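import Pool.Agent.H90.VA.Stm

/-!
Separation of points: the algebraic core.
-/

set_option autoImplicit false
set_option linter.unusedSectionVars false
set_option linter.overlappingInstances false

namespace Pool.Agent.H90.VA

open Module MvPolynomial

section

variable {L : Type} [Field L] [Algebra ℂ L] {M : ℕ}

/-- `w / u0` is in the local ring of `p` -/
def Reg (y : Fin M → L) (p : Fin M → ℂ) (u0 w : L) : Prop :=
  ∃ (e : ℕ) (A B : MvPolynomial (Fin M) ℂ), A.IsHomogeneous e ∧ B.IsHomogeneous e ∧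
    aeval p B ≠ 0 ∧ aeval y B * w = aeval y A * u0

/-- `w / u0` is in the maximal ideal of the local ring of `p` -/
def Van (y : Fin M → L) (p : Fin M → ℂ) (u0 w : L) : Prop :=
  ∃ (e : ℕ) (A B : MvPolynomial (Fin M) ℂ), A.IsHomogeneous e ∧ B.IsHomogeneous e ∧
    aeval p B ≠ 0 ∧ aeval p A = 0 ∧ aeval y B * w = aeval y A * u0

theorem reg_zero {y : Fin M → L} {p : Fin M → ℂ} {u0 : L} : Reg y p u0 0 :=
  ⟨0, 0, 1, isHomogeneous_zero _ _ _, isHomogeneous_one _ _, by simp, by simp⟩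

theorem van_zero {y : Fin M → L} {p : Fin M → ℂ} {u0 : L} : Van y p u0 0 :=
  ⟨0, 0, 1, isHomogeneous_zero _ _ _, isHomogeneous_one _ _, by simp, by simp, by simp⟩

theorem reg_add {y : Fin M → L} {p : Fin M → ℂ} {u0 w w' : L} (h : Reg y p u0 w)
    (h' : Reg y p u0 w') : Reg y p u0 (w + w') := by
  obtain ⟨e, A, B, hA, hB, hBp, hw⟩ := h
  obtain ⟨e', A', B', hA', hB', hBp', hw'⟩ := h'
  refine ⟨e + e', A * B' + A' * B, B * B', (hA.mul hB').add ?_, hB.mul hB', ?_, ?_⟩
  · rw [add_comm e e']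
    exact hA'.mul hB
  · rw [map_mul]
    exact mul_ne_zero hBp hBp'
  · simp only [map_mul, map_add]
    linear_combination aeval y B' * hw + aeval y B * hw'

theorem van_add {y : Fin M → L} {p : Fin M → ℂ} {u0 w w' : L} (h : Van y p u0 w)
    (h' : Van y p u0 w') : Van y p u0 (w + w') := by
  obtain ⟨e, A, B, hA, hB, hBp, hAp, hw⟩ := h
  obtain ⟨e', A', B', hA', hB', hBp', hAp', hw'⟩ := h'
  refine ⟨e + e', A * B' + A' * B, B * B', (hA.mul hB').add ?_, hB.mul hB', ?_, ?_, ?_⟩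
  · rw [add_comm e e']
    exact hA'.mul hB
  · rw [map_mul]
    exact mul_ne_zero hBp hBp'
  · rw [map_add, map_mul, map_mul, hAp, hAp', zero_mul, zero_mul, add_zero]
  · simp only [map_mul, map_add]
    linear_combination aeval y B' * hw + aeval y B * hw'

theorem reg_smul {y : Fin M → L} {p : Fin M → ℂ} {u0 w : L} (a : ℂ) (h : Reg y p u0 w) :
    Reg y p u0 (algebraMap ℂ L a * w) := by
  obtain ⟨e, A, B, hA, hB, hBp, hw⟩ := h
  refine ⟨e, C a * A, B, by simpa using (isHomogeneous_C (Fin M) a).mul hA, hB, hBp, ?_⟩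
  rw [map_mul, aeval_C]
  linear_combination algebraMap ℂ L a * hw

theorem van_smul {y : Fin M → L} {p : Fin M → ℂ} {u0 w : L} (a : ℂ) (h : Van y p u0 w) :
    Van y p u0 (algebraMap ℂ L a * w) := by
  obtain ⟨e, A, B, hA, hB, hBp, hAp, hw⟩ := h
  refine ⟨e, C a * A, B, by simpa using (isHomogeneous_C (Fin M) a).mul hA, hB, hBp, ?_, ?_⟩
  · rw [map_mul, hAp, mul_zero]
  · rw [map_mul, aeval_C]
    linear_combination algebraMap ℂ L a * hw

theorem mul_nonunit (O : ValuationSubring L) {a b : L} (ha : a ∈ O.nonunits) (hb : b ∈ O) :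
    a * b ∈ O.nonunits := by
  rw [O.mem_nonunits_iff, map_mul]
  have h4 := O.mem_nonunits_iff.1 ha
  have h5 := (O.valuation_le_one_iff _).2 hb
  exact (mul_le_mul_right h5 _).trans_lt (by rwa [mul_one])

theorem const_nonunit (O : ValuationSubring L) (hO : ∀ a : ℂ, algebraMap ℂ L a ∈ O) {a : ℂ}
    (h : algebraMap ℂ L a ∈ O.nonunits) : a = 0 := by
  by_contra ha
  rw [O.mem_nonunits_iff_or] at h
  rcases h with h1 | h1
  · rw [map_eq_zero] at h1
    exact ha h1
  · apply h1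
    rw [← map_inv₀]
    exact hO _

theorem mem_of_nonunit (O : ValuationSubring L) {a : L} (ha : a ∈ O.nonunits) : a ∈ O :=
  O.nonunits_subset ha

/-- polynomials at congruent points -/
theorem tay0 (O : ValuationSubring L) (hO : ∀ a : ℂ, algebraMap ℂ L a ∈ O) (u : Fin M → L)
    (p : Fin M → ℂ) (hu : ∀ j, u j - algebraMap ℂ L (p j) ∈ O.nonunits)
    (A : MvPolynomial (Fin M) ℂ) : aeval u A - algebraMap ℂ L (aeval p A) ∈ O.nonunits := by
  induction A using MvPolynomial.induction_on with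
  | C a =>
    rw [aeval_C, aeval_C, Algebra.algebraMap_self_apply, sub_self]
    exact zero_mem _
  | add f g hf hg =>
    rw [map_add, map_add, map_add]
    have h1 := add_mem hf hg
    rwa [show aeval u f + aeval u g - (algebraMap ℂ L (aeval p f) + algebraMap ℂ L (aeval p g)) =
      aeval u f - algebraMap ℂ L (aeval p f) + (aeval u g - algebraMap ℂ L (aeval p g)) by ring]
  | mul_X f i hf =>
    rw [map_mul, map_mul, map_mul, aeval_X, aeval_X]
    have hui : u i ∈ O := by
      have h1 := add_mem (mem_of_nonunit O (hu i)) (hO (p i))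
      rwa [sub_add_cancel] at h1
    have h1 := add_mem (mul_nonunit O hf hui) (mul_nonunit O (hu i) (hO (aeval p f)))
    rwa [show aeval u f * u i - algebraMap ℂ L (aeval p f) * algebraMap ℂ L (p i) =
      (aeval u f - algebraMap ℂ L (aeval p f)) * u i +
        (u i - algebraMap ℂ L (p i)) * algebraMap ℂ L (aeval p f) by ring]

/-- quotients at congruent points -/
theorem quo0 (O : ValuationSubring L) (hO : ∀ a : ℂ, algebraMap ℂ L a ∈ O) {y : Fin M → L}
    {s : L} (hs : s ≠ 0) {p : Fin M → ℂ}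
    (hu : ∀ j, y j / s - algebraMap ℂ L (p j) ∈ O.nonunits) {e : ℕ}
    {A B : MvPolynomial (Fin M) ℂ} (hA : A.IsHomogeneous e) (hB : B.IsHomogeneous e)
    (hBp : aeval p B ≠ 0) {u0 w : L} (hu0 : u0 ≠ 0) (hw : aeval y B * w = aeval y A * u0) :
    w / u0 - algebraMap ℂ L (aeval p A / aeval p B) ∈ O.nonunits := by
  obtain ⟨u, hu'⟩ : ∃ u : Fin M → L, u = fun j => y j / s := ⟨_, rfl⟩
  have hy : y = fun j => s * u j := by
    funext j
    rw [hu']
    exact (mul_div_cancel₀ _ hs).symm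
  have hu1 : ∀ j, u j - algebraMap ℂ L (p j) ∈ O.nonunits := by
    intro j
    rw [hu']
    exact hu j
  have hAu := tay0 O hO u p hu1 A
  have hBu := tay0 O hO u p hu1 B
  have hBn : aeval u B ∉ O.nonunits := by
    intro h
    have h1 := sub_mem h hBu
    rw [sub_sub_cancel] at h1
    exact hBp (const_nonunit O hO h1)
  have hBi : (aeval u B)⁻¹ ∈ O := by
    by_contra h4
    exact hBn (O.mem_nonunits_iff_or.2 (Or.inr h4))
  have hB0 : aeval u B ≠ 0 := fun h => hBn (by rw [h]; exact zero_mem _)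
  have h1 : w / u0 = aeval u A / aeval u B := by
    rw [hy, smul_form hA, smul_form hB] at hw
    rw [div_eq_div_iff hu0 hB0]
    have h2 : s ^ e ≠ 0 := pow_ne_zero _ hs
    apply mul_left_cancel₀ h2
    linear_combination hw
  rw [h1, map_div₀]
  have hBpL : algebraMap ℂ L (aeval p B) ≠ 0 := by
    rw [Ne, map_eq_zero]
    exact hBp
  have h2 : aeval u A / aeval u B - algebraMap ℂ L (aeval p A) / algebraMap ℂ L (aeval p B) =
      (aeval u A - algebraMap ℂ L (aeval p A)) * (aeval u B)⁻¹ -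
        (aeval u B - algebraMap ℂ L (aeval p B)) *
          (algebraMap ℂ L (aeval p A / aeval p B) * (aeval u B)⁻¹) := by
    rw [map_div₀]
    field_simp
    ring
  rw [h2]
  exact sub_mem (mul_nonunit O hAu hBi) (mul_nonunit O hBu (mul_mem (hO _) hBi))

/-- a valuation ring centred at a point -/
theorem exists_val_pt {y : Fin M → L} {p : Fin M → ℂ} (hp : IsPoint y p) :
    ∃ (O : ValuationSubring L) (s : L), (∀ a : ℂ, algebraMap ℂ L a ∈ O) ∧ s ≠ 0 ∧
      ∀ j, y j / s - algebraMap ℂ L (p j) ∈ O.nonunits := by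
  obtain ⟨j1, hj1⟩ : ∃ j, p j ≠ 0 := by
    by_contra hc
    push Not at hc
    exact hp.1 (funext hc)
  have hy1 : y j1 ≠ 0 := by
    intro h0
    apply hj1
    have h1 := hp.2 1 (MvPolynomial.X j1) (MvPolynomial.isHomogeneous_X ℂ j1)
      (by rw [MvPolynomial.aeval_X, h0])
    rwa [MvPolynomial.aeval_X] at h1
  obtain ⟨O, hO1, hO2⟩ := exists_val (fun j => y j / y j1) (fun j => p j / p j1)
    (fun F hF => dehom hp hj1 hy1 F hF)
  have hO : ∀ a : ℂ, algebraMap ℂ L a ∈ O := by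
    intro a
    have h1 := hO1 (MvPolynomial.C a)
    rwa [MvPolynomial.aeval_C] at h1
  have hj1L : algebraMap ℂ L (p j1) ≠ 0 := by
    rw [Ne, map_eq_zero]
    exact hj1
  refine ⟨O, y j1 / algebraMap ℂ L (p j1), hO, div_ne_zero hy1 hj1L, fun j => ?_⟩
  have h1 := hO2 (MvPolynomial.X j - MvPolynomial.C (p j / p j1)) (by
    rw [map_sub, MvPolynomial.aeval_X, MvPolynomial.aeval_C, Algebra.algebraMap_self_apply,
      sub_self])
  rw [map_sub, MvPolynomial.aeval_X, MvPolynomial.aeval_C] at h1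
  have h2 := mul_nonunit O h1 (hO (p j1))
  have h3 : y j / (y j1 / algebraMap ℂ L (p j1)) - algebraMap ℂ L (p j) =
      (y j / y j1 - algebraMap ℂ L (p j / p j1)) * algebraMap ℂ L (p j1) := by
    rw [map_div₀]
    field_simp
  rw [h3]
  exact h2

end

section

variable {K L : Type} [Field K] [Algebra ℂ K] [Field L] [Algebra ℂ L] [Algebra L K]
  [IsScalarTower ℂ L K] [FiniteDimensional L K] {N : ℕ}

/-- coordinates -/
theorem coords (O : ValuationSubring L) [Algebra O K] [IsScalarTower O L K]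
    (hO : ∀ a : ℂ, algebraMap ℂ L a ∈ O) (x : Fin N → K) (hx : x ≠ 0) :
    ∃ (lam : K) (ξ : Fin N → K) (P : MvPolynomial (Fin N) ℂ), lam ≠ 0 ∧
      (x = fun j => lam * ξ j) ∧ (∀ j, IsIntegral O (ξ j)) ∧
      (1 : K) ∈ Submodule.span O (Set.range ξ) ∧ P.IsHomogeneous 1 ∧ aeval ξ P = 1 := by
  obtain ⟨a, hlam, hPint⟩ := exists_form O hO x hx
  obtain ⟨lam, hlamdef⟩ : ∃ lam : K, lam = ∑ i, algebraMap ℂ K (a i) * x i := ⟨_, rfl⟩
  rw [← hlamdef] at hlam hPint
  obtain ⟨ξ, hξ⟩ : ∃ ξ : Fin N → K, ξ = fun j => x j / lam := ⟨_, rfl⟩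
  have hxξ : x = fun j => lam * ξ j := by
    funext j
    rw [hξ]
    exact (mul_div_cancel₀ _ hlam).symm
  have hint : ∀ j, IsIntegral O (ξ j) := by
    intro j
    obtain ⟨P, hP1, hP2, hP3⟩ := hPint j
    have h1 : P ∈ Polynomial.lifts (algebraMap O L) := by
      rw [Polynomial.lifts_iff_coeff_lifts]
      exact fun i => ⟨⟨_, hP2 i⟩, rfl⟩
    obtain ⟨P', hP', -, hP'm⟩ := Polynomial.lifts_and_natDegree_eq_and_monic h1 hP1
    refine ⟨P', hP'm, ?_⟩
    rw [IsScalarTower.algebraMap_eq O L K, ← Polynomial.eval₂_map, hP', hξ]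
    exact hP3
  have honeξ : ∑ i, algebraMap ℂ K (a i) * ξ i = 1 := by
    rw [hξ]
    simp only [← mul_div_assoc]
    rw [← Finset.sum_div, ← hlamdef, div_self hlam]
  have hone : (1 : K) ∈ Submodule.span O (Set.range ξ) := by
    rw [← honeξ]
    refine Submodule.sum_mem _ fun i _ => ?_
    have h1 : algebraMap ℂ K (a i) * ξ i = (⟨algebraMap ℂ L (a i), hO (a i)⟩ : O) • ξ i := by
      rw [Algebra.smul_def, IsScalarTower.algebraMap_apply O L K,
        IsScalarTower.algebraMap_apply ℂ L K]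
      rfl
    rw [h1]
    exact Submodule.smul_mem _ _ (Submodule.subset_span ⟨i, rfl⟩)
  refine ⟨lam, ξ, ∑ i, C (a i) * X i, hlam, hxξ, hint, hone, ?_, ?_⟩
  · refine IsHomogeneous.sum _ _ _ fun i _ => ?_
    simpa using (isHomogeneous_C (Fin N) (a i)).mul (isHomogeneous_X ℂ i)
  · rw [map_sum, ← honeξ]
    refine Finset.sum_congr rfl fun i _ => ?_
    rw [map_mul, aeval_C, aeval_X]

end

section

theorem mem_sc_one {L : Type} [Field L] (O : ValuationSubring L) {z : L} :
    z ∈ sc O 1 ↔ z ∈ O.nonunits := by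
  constructor
  · rintro ⟨w, hw, rfl⟩
    rwa [one_mul]
  · intro h
    exact ⟨z, h, (one_mul z).symm⟩

theorem prodX_hom {N m : ℕ} (f : Fin m → Fin N) :
    (∏ k, (X (f k) : MvPolynomial (Fin N) ℂ)).IsHomogeneous m := by
  have h1 := IsHomogeneous.prod (Finset.univ : Finset (Fin m))
    (fun k => (X (f k) : MvPolynomial (Fin N) ℂ)) (fun _ => 1)
    (fun k _ => isHomogeneous_X ℂ (f k))
  simpa using h1

variable {K L : Type} [Field K] [Algebra ℂ K] [Field L] [Algebra ℂ L] [Algebra L K]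
  [IsScalarTower ℂ L K] [FiniteDimensional L K] {N M : ℕ}

/-- properties which are closed under linear combinations -/
theorem form_closed (hspan : S_SPAN) {m : ℕ} {x : Fin N → K} {s : K} (P : L → Prop) (h0 : P 0)
    (hadd : ∀ a b, P a → P b → P (a + b)) (hsmul : ∀ (a : ℂ) b, P b → P (algebraMap ℂ L a * b))
    (τ : K →ₗ[L] L) (h : ∀ f : Fin m → Fin N, P (τ ((∏ k, x (f k)) * s)))
    (G : MvPolynomial (Fin N) ℂ) (hG : G.IsHomogeneous m) : P (τ (aeval x G * s)) := by
  have h1 := hspan N m G hG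
  refine Submodule.span_induction (p := fun G _ => P (τ (aeval x G * s))) ?_ ?_ ?_ ?_ h1
  · rintro _ ⟨f, rfl⟩
    have h2 := h f
    simpa [map_prod, aeval_X] using h2
  · rw [map_zero, zero_mul, map_zero]
    exact h0
  · intro a b _ _ ha hb
    rw [map_add, add_mul, map_add]
    exact hadd _ _ ha hb
  · intro a b _ hb
    have h2 : aeval x (a • b) * s = (algebraMap ℂ L a) • (aeval x b * s) := by
      rw [map_smul, Algebra.smul_def, Algebra.smul_def, ← IsScalarTower.algebraMap_apply ℂ L K]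
      ring
    rw [h2, map_smul, smul_eq_mul]
    exact hsmul _ _ hb

/-- **The forms which vanish on the fibre over a point.** -/
theorem pt1 (hspan : S_SPAN) (hspr : S_SPR) (hdep : S_DEP) (hstab : S_STAB) (hvan : S_VAN)
    {x : Fin N → K} (hx : x ≠ 0) {y : Fin M → L} {r T m : ℕ} (hd1 : finrank L K ≤ r + 1)
    (hd2 : finrank L K ≤ T + 1) (hm : r + 1 + T = m) {p : Fin M → ℂ} (hp : IsPoint y p)
    {u0 : L} (hu0 : u0 ≠ 0) (S0 : Set K)
    (h1 : ∀ s ∈ S0, ∀ f : Fin m → Fin N,
      Reg y p u0 (Algebra.trace L K ((∏ k, x (f k)) * s))) :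
    ∃ H : Set (MvPolynomial (Fin N) ℂ), (∀ h ∈ H, h.IsHomogeneous (r + 1)) ∧
      (∀ h ∈ H, ∀ s ∈ S0, ∀ G : MvPolynomial (Fin N) ℂ, G.IsHomogeneous T →
        Van y p u0 (Algebra.trace L K (aeval x (G * h) * s))) ∧
      ∀ (κ : Type) [Field κ] [Algebra ℂ κ] (q : Fin N → κ), q ≠ 0 →
        ∀ (d : ℕ) (F : Fin M → MvPolynomial (Fin N) ℂ), (∀ j, (F j).IsHomogeneous d) →
        (∀ j k, algebraMap L K (y j) * aeval x (F k) = algebraMap L K (y k) * aeval x (F j)) →
        (¬ ∀ j k, aeval q (F j) * algebraMap ℂ κ (p k) = aeval q (F k) * algebraMap ℂ κ (p j)) →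
        ∃ h ∈ H, aeval q h ≠ 0 := by
  classical
  obtain ⟨O, s0, hO, hs0, hu⟩ := exists_val_pt hp
  let _ : Algebra O K := ((algebraMap L K).comp (algebraMap O L)).toAlgebra
  have _ : IsScalarTower O L K := IsScalarTower.of_algebraMap_eq fun _ => rfl
  obtain ⟨lam, ξ, P, hlam, hxξ, hint, hone, hP, hP1⟩ := coords O hO x hx
  obtain ⟨τ, hτ⟩ : ∃ τ : K →ₗ[L] L, τ = Algebra.trace L K := ⟨_, rfl⟩
  obtain ⟨S, hS⟩ : ∃ S : Set K, S = {z | ∃ w ∈ S0, z = lam ^ m * (w / algebraMap L K u0)} :=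
    ⟨_, rfl⟩
  have hu0K : algebraMap L K u0 ≠ 0 := by
    rw [Ne, map_eq_zero]
    exact hu0
  have hres : ∀ (G : MvPolynomial (Fin N) ℂ) (_ : G.IsHomogeneous m) (w : K),
      τ (aeval ξ G * (lam ^ m * (w / algebraMap L K u0))) = τ (aeval x G * w) / u0 := by
    intro G hG w
    have h3 : aeval ξ G * (lam ^ m * (w / algebraMap L K u0)) = u0⁻¹ • (aeval x G * w) := by
      rw [Algebra.smul_def, map_inv₀]
      conv_rhs => rw [hxξ, smul_form hG]
      field_simp
    rw [h3, map_smul, smul_eq_mul]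
    field_simp
  have hval : ∀ f : Fin m → Fin N, ∀ z ∈ S, ∃ a : ℂ,
      τ ((∏ k, ξ (f k)) * z) - algebraMap ℂ L a ∈ sc O 1 := by
    intro f z hz
    rw [hS] at hz
    obtain ⟨w, hw, rfl⟩ := hz
    obtain ⟨e, A, B, hA, hB, hBp, hAB⟩ := h1 w hw f
    refine ⟨aeval p A / aeval p B, ?_⟩
    rw [mem_sc_one]
    have h2 := quo0 O hO hs0 hu hA hB hBp hu0 hAB
    have h3 := hres _ (prodX_hom f) w
    simp only [map_prod, aeval_X] at h3
    rw [h3, hτ]
    exact h2
  obtain ⟨J, hJ⟩ : ∃ J : Ideal (MvPolynomial (Fin N) ℂ), J = JJ O hO ξ S τ (sc O 1) := ⟨_, rfl⟩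
  have hPJ : P - 1 ∈ J := by
    rw [hJ, mem_JJ]
    intro c _ s _
    rw [map_sub, hP1, map_one, sub_self, zero_mul, zero_mul, map_zero]
    exact zero_mem _
  have hst := hstab N r J P hP hPJ (fun h hh => by
    rw [hJ]
    exact hdep K L N m r (r + 1) T O hO ξ hint hone S τ (sc O 1) hd1 hd2 hm
      (fun z hz => (mem_sc_one O).1 hz) hval h hh)
  have hdm : finrank L K ≤ m + 1 := by omega
  refine ⟨{h | h ∈ J ∧ h.IsHomogeneous (r + 1)}, fun h hh => hh.2, ?_, ?_⟩
  · rintro h ⟨hhJ, hhh⟩ s hs G hG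
    have hGh : (G * h).IsHomogeneous m := by
      have h3 := hG.mul hhh
      rwa [show T + (r + 1) = m by omega] at h3
    obtain ⟨e, A, B, hA, hB, hBp, hAB⟩ := form_closed hspan (Reg y p u0) reg_zero
      (fun a b => reg_add) (fun a b => reg_smul a) (Algebra.trace L K) (h1 s hs) (G * h) hGh
    refine ⟨e, A, B, hA, hB, hBp, ?_, hAB⟩
    have h2 := quo0 O hO hs0 hu hA hB hBp hu0 hAB
    have h3 := hres _ hGh s
    rw [hJ, mem_JJ] at hhJ
    have h4 := hhJ (aeval ξ G) (aeval_mem O hO ξ G) (lam ^ m * (s / algebraMap L K u0)) (by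
      rw [hS]
      exact ⟨s, hs, rfl⟩)
    rw [show aeval ξ h * aeval ξ G = aeval ξ (G * h) by rw [map_mul, mul_comm], h3, mem_sc_one,
      hτ] at h4
    have h5 := sub_mem h4 h2
    rw [sub_sub_cancel] at h5
    have h6 := const_nonunit O hO h5
    exact (div_eq_zero_iff.1 h6).resolve_right hBp
  · intro κ _ _ q hq d F hF hrel hne
    by_contra hcon
    push Not at hcon
    apply hne
    intro j k
    have h2 := hvan N r J P hP hPJ hst κ q hq (fun F hF hF' => hcon F ⟨hF, hF'⟩) d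
      (C (p k) * F j - C (p j) * F k) (by
        rw [hJ, mem_JJ]
        intro c hc z hz
        have hin : ∀ i, τ (aeval ξ (F i) * c * z) ∈ O := by
          intro i
          have h3 := hspr K L N m O ξ hint hone hdm (1 : Submodule O L) τ z (fun f => by
            obtain ⟨a, ha⟩ := hval f z hz
            rw [mem_sc_one] at ha
            have h4 := add_mem (mem_of_nonunit O ha) (hO a)
            rw [sub_add_cancel] at h4
            exact Submodule.mem_one.2 ⟨⟨_, h4⟩, rfl⟩) (aeval ξ (F i) * c)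
              (mul_mem (aeval_mem O hO ξ (F i)) hc)
          obtain ⟨b, hb⟩ := Submodule.mem_one.1 h3
          rw [← hb]
          exact b.2
        have h5 : aeval ξ (C (p k) * F j - C (p j) * F k) * c * z =
            (y j / s0 - algebraMap ℂ L (p j)) • (aeval ξ (F k) * c * z) -
            (y k / s0 - algebraMap ℂ L (p k)) • (aeval ξ (F j) * c * z) := by
          have h6 := hrel j k
          rw [hxξ, smul_form (hF k), smul_form (hF j)] at h6
          have h7 : algebraMap L K (y j) * aeval ξ (F k) = algebraMap L K (y k) * aeval ξ (F j) := by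
            apply mul_left_cancel₀ (pow_ne_zero d hlam)
            linear_combination h6
          have hs0K : algebraMap L K s0 ≠ 0 := by
            rw [Ne, map_eq_zero]
            exact hs0
          rw [map_sub, map_mul, map_mul, aeval_C, aeval_C, Algebra.smul_def, Algebra.smul_def,
            map_sub, map_sub, map_div₀, map_div₀, ← IsScalarTower.algebraMap_apply ℂ L K,
            ← IsScalarTower.algebraMap_apply ℂ L K]
          field_simp
          linear_combination (-(c * z)) * h7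
        rw [h5, map_sub, map_smul, map_smul, smul_eq_mul, smul_eq_mul, mem_sc_one]
        exact sub_mem (mul_nonunit O (hu j) (hin k)) (mul_nonunit O (hu k) (hin j))) (by
        refine IsHomogeneous.sub ?_ ?_
        · simpa using (isHomogeneous_C (Fin N) (p k)).mul (hF j)
        · simpa using (isHomogeneous_C (Fin N) (p j)).mul (hF k))
    rw [map_sub, map_mul, map_mul, aeval_C, aeval_C] at h2
    linear_combination h2

/-- **Separation of several points.** -/
theorem core_pts (hspan : S_SPAN) (hspr : S_SPR) (hdep : S_DEP) (hstab : S_STAB) (hvan : S_VAN)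
    {x : Fin N → K} (hx : x ≠ 0) {y : Fin M → L} {r T m k : ℕ} (hd1 : finrank L K ≤ r + 1)
    (hd2 : finrank L K ≤ T + 1) (hm : k * (r + 1) + T = m) {p : Fin M → ℂ} (hp : IsPoint y p)
    {u0 : L} (hu0 : u0 ≠ 0) {p' : Fin k → Fin M → ℂ} (hp' : ∀ i, IsPoint y (p' i))
    {u' : Fin k → L} (hu' : ∀ i, u' i ≠ 0) (hne : ∀ i, ∃ j l, p j * p' i l ≠ p l * p' i j)
    (S0 : Set K)
    (h1 : ∀ s ∈ S0, ∀ f : Fin m → Fin N,
      Reg y p u0 (Algebra.trace L K ((∏ k, x (f k)) * s)))
    (h1' : ∀ i, ∀ s ∈ S0, ∀ f : Fin m → Fin N,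
      Reg y (p' i) (u' i) (Algebra.trace L K ((∏ k, x (f k)) * s)))
    (h2 : ∀ (κ : Type) [Field κ] [Algebra ℂ κ] (q : Fin N → κ), IsPoint x q →
      InGraph x y q p →
      (∀ (d : ℕ) (F : Fin M → MvPolynomial (Fin N) ℂ), (∀ j, (F j).IsHomogeneous d) →
        (∀ j k, algebraMap L K (y j) * MvPolynomial.aeval x (F k) =
          algebraMap L K (y k) * MvPolynomial.aeval x (F j)) →
        ∀ j k, MvPolynomial.aeval q (F j) * algebraMap ℂ κ (p k) =
          MvPolynomial.aeval q (F k) * algebraMap ℂ κ (p j)) →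
      Defined x y q ∧
      ∃ (e s : ℕ) (B : MvPolynomial (Fin N) ℂ) (A : Fin s → MvPolynomial (Fin N) ℂ)
        (w : Fin s → K), B.IsHomogeneous e ∧ MvPolynomial.aeval q B ≠ 0 ∧
        (∀ i, (A i).IsHomogeneous (e + m)) ∧ (∀ i, w i ∈ S0) ∧
        MvPolynomial.aeval x B * algebraMap L K u0 = ∑ i, MvPolynomial.aeval x (A i) * w i) :
    ∃ G : MvPolynomial (Fin N) ℂ, G.IsHomogeneous m ∧ ∃ s ∈ S0,
      (∃ (e : ℕ) (A B : MvPolynomial (Fin M) ℂ), A.IsHomogeneous e ∧ B.IsHomogeneous e ∧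
        aeval p B ≠ 0 ∧ aeval p A ≠ 0 ∧
        aeval y B * Algebra.trace L K (aeval x G * s) = aeval y A * u0) ∧
      ∀ i, Van y (p' i) (u' i) (Algebra.trace L K (aeval x G * s)) := by
  classical
  have hH : ∀ i : Fin k, ∃ H : Set (MvPolynomial (Fin N) ℂ), (∀ h ∈ H, h.IsHomogeneous (r + 1)) ∧
      (∀ h ∈ H, ∀ s ∈ S0, ∀ G : MvPolynomial (Fin N) ℂ, G.IsHomogeneous ((k - 1) * (r + 1) + T) →
        Van y (p' i) (u' i) (Algebra.trace L K (aeval x (G * h) * s))) ∧
      ∀ (κ : Type) [Field κ] [Algebra ℂ κ] (q : Fin N → κ), q ≠ 0 →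
        ∀ (d : ℕ) (F : Fin M → MvPolynomial (Fin N) ℂ), (∀ j, (F j).IsHomogeneous d) →
        (∀ j k, algebraMap L K (y j) * aeval x (F k) = algebraMap L K (y k) * aeval x (F j)) →
        (¬ ∀ j k, aeval q (F j) * algebraMap ℂ κ (p' i k) =
          aeval q (F k) * algebraMap ℂ κ (p' i j)) →
        ∃ h ∈ H, aeval q h ≠ 0 := by
    intro i
    obtain ⟨k', hk'⟩ : ∃ k', k = k' + 1 := ⟨k - 1, by have := i.2; omega⟩
    have hk2 : k - 1 = k' := by omega
    refine pt1 hspan hspr hdep hstab hvan hx hd1 (T := (k - 1) * (r + 1) + T) ?_ ?_ (hp' i)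
      (hu' i) S0 (h1' i)
    · have : 0 ≤ (k - 1) * (r + 1) := Nat.zero_le _
      omega
    · rw [hk2, ← hm, hk']
      ring
  choose H hH1 hH2 hH3 using hH
  obtain ⟨S1, hS1⟩ : ∃ S1 : Set K, S1 = {z | ∃ h : Fin k → MvPolynomial (Fin N) ℂ,
      (∀ i, h i ∈ H i) ∧ ∃ s ∈ S0, z = aeval x (∏ i, h i) * s} := ⟨_, rfl⟩
  have hprod : ∀ h : Fin k → MvPolynomial (Fin N) ℂ, (∀ i, h i ∈ H i) →
      (∏ i, h i).IsHomogeneous (k * (r + 1)) := by
    intro h hh
    have h3 := IsHomogeneous.prod (Finset.univ : Finset (Fin k)) h (fun _ => r + 1)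
      (fun i _ => hH1 i _ (hh i))
    simpa using h3
  have hexp : ∀ (f : Fin T → Fin N) (h : Fin k → MvPolynomial (Fin N) ℂ),
      aeval x ((∏ k, X (f k)) * ∏ i, h i) = (∏ k, x (f k)) * aeval x (∏ i, h i) := by
    intro f h
    rw [map_mul]
    congr 1
    simp [map_prod, aeval_X]
  obtain ⟨z, hz, f, e, A, B, hA, hB, hBp, hAp, hAB⟩ := core hx hd2 hp hu0 S1 (fun z hz f => by
      rw [hS1] at hz
      obtain ⟨h, hh, s, hs, rfl⟩ := hz
      have h3 := form_closed hspan (Reg y p u0) reg_zero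
        (fun a b => reg_add) (fun a b => reg_smul a) (Algebra.trace L K) (h1 s hs)
        ((∏ k, X (f k)) * ∏ i, h i) (by
          have h4 := (prodX_hom f).mul (hprod h hh)
          rwa [show T + k * (r + 1) = m by omega] at h4)
      rw [hexp f h, mul_assoc] at h3
      exact h3)
    (fun κ _ _ q hq hgraph hpq => by
      obtain ⟨⟨d, F, hF, hyF, k0, hk0⟩, e, s, B, A, w, hB, hBq, hA, hw, hsum⟩ :=
        h2 κ q hq hgraph hpq
      have hex : ∀ i, ∃ h ∈ H i, aeval q h ≠ 0 := by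
        intro i
        refine hH3 i κ q hq.1 d F hF hyF fun hcon => ?_
        obtain ⟨j, l, hjl⟩ := hne i
        apply hjl
        apply (algebraMap ℂ κ).injective
        rw [map_mul, map_mul]
        apply mul_left_cancel₀ hk0
        have h3 := hpq d F hF hyF
        have h4 := hcon j l
        have h5 := h3 k0 j
        have h6 := h3 k0 l
        linear_combination (algebraMap ℂ κ (p' i l)) * h5 - (algebraMap ℂ κ (p' i j)) * h6 +
          algebraMap ℂ κ (p k0) * h4
      choose h hh hhq using hex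
      refine ⟨k * (r + 1) + e, s, (∏ i, h i) * B, A, fun i => aeval x (∏ i, h i) * w i,
        (hprod h hh).mul hB, ?_, fun i => ?_, fun i => ?_, ?_⟩
      · rw [map_mul, map_prod]
        exact mul_ne_zero (Finset.prod_ne_zero_iff.2 fun i _ => hhq i) hBq
      · have h3 := hA i
        rwa [show e + m = k * (r + 1) + e + T by omega] at h3
      · rw [hS1]
        exact ⟨h, hh, w i, hw i, rfl⟩
      · rw [map_mul, mul_assoc, hsum, Finset.mul_sum]
        refine Finset.sum_congr rfl fun i _ => ?_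
        ring)
  rw [hS1] at hz
  obtain ⟨h, hh, s, hs, rfl⟩ := hz
  refine ⟨(∏ k, X (f k)) * ∏ i, h i, ?_, s, hs, ⟨e, A, B, hA, hB, hBp, hAp, ?_⟩, fun i => ?_⟩
  · have h4 := (prodX_hom f).mul (hprod h hh)
    rwa [show T + k * (r + 1) = m by omega] at h4
  · rw [hexp f h, mul_assoc]
    exact hAB
  · have h5 : ((∏ k, X (f k)) * ∏ i, h i : MvPolynomial (Fin N) ℂ) =
        ((∏ k, X (f k)) * ∏ i' ∈ Finset.univ.erase i, h i') * h i := by
      rw [mul_assoc, Finset.prod_erase_mul _ _ (Finset.mem_univ i)]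
    rw [h5]
    refine hH2 i (h i) (hh i) s hs _ ?_
    have h6 := IsHomogeneous.prod (Finset.univ.erase i : Finset (Fin k)) h (fun _ => r + 1)
      (fun i _ => hH1 i _ (hh i))
    have h7 := (prodX_hom f).mul h6
    rw [Finset.sum_const, Finset.card_erase_of_mem (Finset.mem_univ i), Finset.card_univ,
      Fintype.card_fin, smul_eq_mul, add_comm] at h7
    exact h7

end

end Pool.Agent.H90.VA
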