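import Pool.Agent.H90.VA.Stm2
import Pool.Agent.H90.VA.Pts

/-!
Tangent vectors at smooth points are limits of secants.
-/

set_option autoImplicit false
set_option linter.unusedSectionVars false

namespace Pool.Agent.H90.VA

open Module MvPolynomial

section

variable {L : Type} [Field L] [Algebra ℂ L] {M : ℕ}

/-- `p` is a smooth point: near `p` the variety is defined by forms with linearly independent
differentials at `p` -/
def SmoothPoint (y : Fin M → L) (p : Fin M → ℂ) : Prop :=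
  ∃ (c : ℕ) (d : Fin c → ℕ) (F : Fin c → MvPolynomial (Fin M) ℂ),
    (∀ i, (F i).IsHomogeneous (d i)) ∧ (∀ i, aeval y (F i) = 0) ∧
    LinearIndependent ℂ (fun (i : Fin c) (j : Fin M) => aeval p (pderiv j (F i))) ∧
    ∀ (e : ℕ) (G : MvPolynomial (Fin M) ℂ), G.IsHomogeneous e → aeval y G = 0 →
      ∃ (B : MvPolynomial (Fin M) ℂ) (A : Fin c → MvPolynomial (Fin M) ℂ), aeval p B ≠ 0 ∧
        B * G = ∑ i, A i * F i

/-- `v` is a tangent vector at `p` -/
def IsTangent (y : Fin M → L) (p v : Fin M → ℂ) : Prop :=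
  (∀ (e : ℕ) (G : MvPolynomial (Fin M) ℂ), G.IsHomogeneous e → aeval y G = 0 →
    ∑ j, aeval p (pderiv j G) * v j = 0) ∧ ∃ j k, v j * p k ≠ v k * p j

theorem constCoeff_aeval (γ : Fin M → PowerSeries ℂ) (p : Fin M → ℂ)
    (h : ∀ j, PowerSeries.coeff 0 (γ j) = p j) (B : MvPolynomial (Fin M) ℂ) :
    PowerSeries.constantCoeff (aeval γ B) = aeval p B := by
  induction B using MvPolynomial.induction_on with
  | C a =>
    rw [aeval_C, aeval_C]
    simp
  | add f g hf hg => rw [map_add, map_add, map_add, hf, hg]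
  | mul_X f i hf =>
    rw [map_mul, map_mul, map_mul, hf, aeval_X, aeval_X, ← h i, PowerSeries.coeff_zero_eq_constantCoeff_apply]

theorem smooth_dir (hA : S_ARCA) (hB : S_ARCB) {y : Fin M → L} {p v : Fin M → ℂ}
    (hp : IsPoint y p) (hs : SmoothPoint y p) (hv : IsTangent y p v) : Direction y p v := by
  obtain ⟨c, d, F, hF, hF0, hlin, hloc⟩ := hs
  obtain ⟨γ, h0, h1, hγ⟩ := hA M c F p v (fun i => hp.2 _ _ (hF i) (hF0 i)) hlin
    (fun i => hv.1 _ _ (hF i) (hF0 i))
  refine hB L M y p v γ h0 h1 (fun e G hG hG0 => ?_) hv.2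
  obtain ⟨B, A, hBp, hBG⟩ := hloc e G hG hG0
  have h2 : aeval γ B * aeval γ G = 0 := by
    rw [← map_mul, hBG, map_sum]
    refine Finset.sum_eq_zero fun i _ => ?_
    rw [map_mul, hγ i, mul_zero]
  refine (mul_eq_zero.1 h2).resolve_left fun h3 => hBp ?_
  rw [← constCoeff_aeval γ p h0, h3, map_zero]

end

end Pool.Agent.H90.VA
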