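import Pool.Agent.H90.VA.Stm2

/-! # ARCA: formal arcs on complete intersections (helper61) -/

set_option autoImplicit false

namespace Pool.Agent.H90.VA

open Module MvPolynomial

namespace Arca

/-- congruent points have congruent values -/
lemma congr_val {M : ℕ} (n : ℕ) (γ δ : Fin M → PowerSeries ℂ)
    (h : ∀ j, (PowerSeries.X : PowerSeries ℂ) ^ n ∣ γ j - δ j) (A : MvPolynomial (Fin M) ℂ) :
    (PowerSeries.X : PowerSeries ℂ) ^ n ∣ aeval γ A - aeval δ A := by
  induction A using MvPolynomial.induction_on with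
  | C a => simp
  | add p q hp hq =>
    rw [map_add, map_add, add_sub_add_comm]
    exact dvd_add hp hq
  | mul_X p i hp =>
    rw [map_mul, map_mul, aeval_X, aeval_X]
    have : aeval γ p * γ i - aeval δ p * δ i =
        (aeval γ p - aeval δ p) * γ i + aeval δ p * (γ i - δ i) := by ring
    rw [this]
    exact dvd_add (hp.mul_right _) ((h i).mul_left _)

/-- Taylor expansion -/
lemma taylor {M : ℕ} (k : ℕ) (γ : Fin M → PowerSeries ℂ) (w : Fin M → ℂ)
    (A : MvPolynomial (Fin M) ℂ) :
    (PowerSeries.X : PowerSeries ℂ) ^ (k + 2) ∣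
      aeval (fun j => γ j + PowerSeries.X ^ (k + 1) * PowerSeries.C (w j)) A - aeval γ A
        - PowerSeries.X ^ (k + 1) * ∑ j, aeval γ (pderiv j A) * PowerSeries.C (w j) := by
  induction A using MvPolynomial.induction_on with
  | C a => simp
  | add p q hp hq =>
    have := dvd_add hp hq
    convert this using 1
    simp only [map_add, add_mul, Finset.sum_add_distrib]
    ring
  | mul_X p i hp =>
    have h1 : ∑ j, aeval γ (pderiv j (p * X i)) * PowerSeries.C (w j) =
        (∑ j, aeval γ (pderiv j p) * PowerSeries.C (w j)) * γ i +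
          aeval γ p * PowerSeries.C (w i) := by
      have h2 : ∀ j, aeval γ (pderiv j (p * X i)) * PowerSeries.C (w j) =
          (aeval γ (pderiv j p) * PowerSeries.C (w j)) * γ i +
            (if j = i then aeval γ p * PowerSeries.C (w i) else 0) := by
        intro j
        rw [pderiv_mul, map_add, map_mul, map_mul, aeval_X]
        by_cases hj : j = i
        · subst hj
          rw [pderiv_X_self, map_one, if_pos rfl]
          ring
        · rw [pderiv_X_of_ne (Ne.symm hj), map_zero, if_neg hj]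
          ring
      simp only [h2]
      rw [Finset.sum_add_distrib, ← Finset.sum_mul, Finset.sum_ite_eq' Finset.univ i]
      simp
    rw [h1, map_mul, map_mul, aeval_X, aeval_X]
    set E := aeval (fun j => γ j + PowerSeries.X ^ (k + 1) * PowerSeries.C (w j)) p
    set e := aeval γ p
    set D := ∑ j, aeval γ (pderiv j p) * PowerSeries.C (w j)
    have h3 : E * (γ i + PowerSeries.X ^ (k + 1) * PowerSeries.C (w i)) - e * γ i -
        PowerSeries.X ^ (k + 1) * (D * γ i + e * PowerSeries.C (w i)) =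
        (E - e - PowerSeries.X ^ (k + 1) * D) *
          (γ i + PowerSeries.X ^ (k + 1) * PowerSeries.C (w i)) +
          PowerSeries.X ^ (k + 2) * (PowerSeries.X ^ k * D * PowerSeries.C (w i)) := by ring
    rw [h3]
    exact dvd_add (hp.mul_right _) (dvd_mul_right _ _)

lemma const_val {M : ℕ} (p : Fin M → ℂ) (A : MvPolynomial (Fin M) ℂ) :
    aeval (fun j => (PowerSeries.C (p j) : PowerSeries ℂ)) A = PowerSeries.C (aeval p A) := by
  have := MvPolynomial.aeval_algebraMap_apply (PowerSeries ℂ) p A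
  exact this

/-- the constant coefficient of a value -/
lemma coeff_zero_val {M : ℕ} (γ : Fin M → PowerSeries ℂ) (p : Fin M → ℂ)
    (h : ∀ j, PowerSeries.coeff 0 (γ j) = p j) (A : MvPolynomial (Fin M) ℂ) :
    PowerSeries.coeff 0 (aeval γ A) = aeval p A := by
  have h1 := congr_val 1 γ (fun j => PowerSeries.C (p j)) (fun j => by
    rw [PowerSeries.X_pow_dvd_iff]
    intro m hm
    obtain rfl : m = 0 := by omega
    rw [map_sub, h j]
    simp) A
  rw [PowerSeries.X_pow_dvd_iff] at h1
  have h2 := h1 0 one_pos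
  rw [map_sub, const_val, sub_eq_zero] at h2
  rw [h2]
  simp

lemma surj {M c : ℕ} (a : Fin c → Fin M → ℂ) (h : LinearIndependent ℂ a) (b : Fin c → ℂ) :
    ∃ w : Fin M → ℂ, ∀ i, ∑ j, a i j * w j = b i := by
  have h1 := LinearIndependent.rank_matrix (M := Matrix.of a) h
  have h2 : LinearMap.range (Matrix.of a).mulVecLin = ⊤ := by
    apply Submodule.eq_top_of_finrank_eq
    rw [show Module.finrank ℂ (LinearMap.range (Matrix.of a).mulVecLin) = (Matrix.of a).rank from rfl, h1]
    simp
  obtain ⟨w, hw⟩ := LinearMap.range_eq_top.1 h2 b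
  refine ⟨w, fun i => ?_⟩
  rw [← hw]
  rfl

/-- one step -/
lemma step {M c : ℕ} (F : Fin c → MvPolynomial (Fin M) ℂ) (p : Fin M → ℂ)
    (hli : LinearIndependent ℂ (fun (i : Fin c) (j : Fin M) => aeval p (pderiv j (F i))))
    (k : ℕ) (γ : Fin M → PowerSeries ℂ) (h0 : ∀ j, PowerSeries.coeff 0 (γ j) = p j)
    (hF : ∀ i, (PowerSeries.X : PowerSeries ℂ) ^ (k + 1) ∣ aeval γ (F i)) :
    ∃ w : Fin M → ℂ, ∀ i, (PowerSeries.X : PowerSeries ℂ) ^ (k + 2) ∣
      aeval (fun j => γ j + PowerSeries.X ^ (k + 1) * PowerSeries.C (w j)) (F i) := by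
  obtain ⟨w, hw⟩ := surj _ hli (fun i => - PowerSeries.coeff (k + 1) (aeval γ (F i)))
  refine ⟨w, fun i => ?_⟩
  have h1 := taylor k γ w (F i)
  have h2 : (PowerSeries.X : PowerSeries ℂ) ^ (k + 2) ∣ aeval γ (F i) +
      PowerSeries.X ^ (k + 1) * ∑ j, aeval γ (pderiv j (F i)) * PowerSeries.C (w j) := by
    rw [PowerSeries.X_pow_dvd_iff]
    intro m hm
    rw [map_add, PowerSeries.coeff_X_pow_mul']
    rcases Nat.lt_or_ge m (k + 1) with h | h
    · rw [if_neg (by omega), (PowerSeries.X_pow_dvd_iff.1 (hF i)) m h, add_zero]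
    · obtain rfl : m = k + 1 := by omega
      rw [if_pos le_rfl, Nat.sub_self, map_sum]
      have h3 : ∀ j, PowerSeries.coeff 0 (aeval γ (pderiv j (F i)) * PowerSeries.C (w j)) =
          aeval p (pderiv j (F i)) * w j := by
        intro j
        rw [PowerSeries.coeff_mul_C, coeff_zero_val γ p h0]
      simp only [h3]
      rw [hw i, add_neg_cancel]
  have h4 := dvd_add h1 h2
  have h5 : aeval (fun j => γ j + PowerSeries.X ^ (k + 1) * PowerSeries.C (w j)) (F i)
      - aeval γ (F i)
        - PowerSeries.X ^ (k + 1) * ∑ j, aeval γ (pderiv j (F i)) * PowerSeries.C (w j) +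
      (aeval γ (F i) +
      PowerSeries.X ^ (k + 1) * ∑ j, aeval γ (pderiv j (F i)) * PowerSeries.C (w j)) =
      aeval (fun j => γ j + PowerSeries.X ^ (k + 1) * PowerSeries.C (w j)) (F i) := by ring
  rwa [h5] at h4

end Arca

theorem arca : S_ARCA := by
  intro M c F p v hp hli hv
  classical
  -- the first approximation
  set γ₀ : Fin M → PowerSeries ℂ := fun j => PowerSeries.C (p j) +
    PowerSeries.X ^ (0 + 1) * PowerSeries.C (v j) with hγ₀
  have hγ₀0 : ∀ j, PowerSeries.coeff 0 (γ₀ j) = p j := by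
    intro j
    simp [hγ₀]
  have hγ₀F : ∀ i, (PowerSeries.X : PowerSeries ℂ) ^ (0 + 2) ∣ aeval γ₀ (F i) := by
    intro i
    have h1 := Arca.taylor 0 (fun j => PowerSeries.C (p j)) v (F i)
    have h2 : ∑ j, aeval (fun j => (PowerSeries.C (p j) : PowerSeries ℂ)) (pderiv j (F i)) *
        PowerSeries.C (v j) = 0 := by
      simp only [Arca.const_val, ← map_mul, ← map_sum]
      have := hv i
      unfold dd at this
      rw [this, map_zero]
    rw [h2, Arca.const_val, hp i, map_zero, mul_zero, sub_zero, sub_zero] at h1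
    exact h1
  -- the sequence of approximations
  let S (m : ℕ) := {γ : Fin M → PowerSeries ℂ // (∀ j, PowerSeries.coeff 0 (γ j) = p j) ∧
    ∀ i, (PowerSeries.X : PowerSeries ℂ) ^ (m + 2) ∣ aeval γ (F i)}
  have hstep : ∀ (m : ℕ) (γ : S m), ∃ γ' : S (m + 1), ∀ j,
      (PowerSeries.X : PowerSeries ℂ) ^ (m + 2) ∣ γ'.1 j - γ.1 j := by
    intro m γ
    obtain ⟨w, hw⟩ := Arca.step F p hli (m + 1) γ.1 γ.2.1 γ.2.2
    refine ⟨⟨fun j => γ.1 j + PowerSeries.X ^ (m + 1 + 1) * PowerSeries.C (w j), ?_, hw⟩, ?_⟩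
    · intro j
      rw [map_add, γ.2.1 j, PowerSeries.coeff_X_pow_mul', if_neg (by omega), add_zero]
    · intro j
      rw [add_sub_cancel_left]
      exact dvd_mul_right _ _
  choose nxt hnxt using hstep
  let G : (m : ℕ) → S m := fun m => Nat.rec ⟨γ₀, hγ₀0, hγ₀F⟩ (fun m γ => nxt m γ) m
  have hG : ∀ m j, (PowerSeries.X : PowerSeries ℂ) ^ (m + 2) ∣ (G (m + 1)).1 j - (G m).1 j :=
    fun m j => hnxt m (G m) j
  have hG' : ∀ m r j, (PowerSeries.X : PowerSeries ℂ) ^ (m + 2) ∣ (G (m + r)).1 j - (G m).1 j := by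
    intro m r j
    induction r with
    | zero => simp
    | succ r ih =>
      have h1 := hG (m + r) j
      have h2 : (PowerSeries.X : PowerSeries ℂ) ^ (m + 2) ∣ PowerSeries.X ^ (m + r + 2) :=
        pow_dvd_pow _ (by omega)
      have h3 := dvd_add (h2.trans h1) ih
      rw [sub_add_sub_cancel] at h3
      exact h3
  set γ : Fin M → PowerSeries ℂ := fun j => PowerSeries.mk fun n => PowerSeries.coeff n ((G n).1 j)
    with hγ
  have hlim : ∀ m j, (PowerSeries.X : PowerSeries ℂ) ^ (m + 2) ∣ γ j - (G m).1 j := by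
    intro m j
    rw [PowerSeries.X_pow_dvd_iff]
    intro n hn
    rw [map_sub, hγ, PowerSeries.coeff_mk, sub_eq_zero]
    rcases Nat.lt_or_ge m n with h | h
    · obtain rfl : n = m + 1 := by omega
      have h1 := (PowerSeries.X_pow_dvd_iff.1 (hG m j)) (m + 1) (by omega)
      rwa [map_sub, sub_eq_zero] at h1
    · obtain ⟨r, rfl⟩ := Nat.exists_eq_add_of_le h
      have h1 := (PowerSeries.X_pow_dvd_iff.1 (hG' n r j)) n (by omega)
      rw [map_sub, sub_eq_zero] at h1
      exact h1.symm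
  refine ⟨γ, ?_, ?_, ?_⟩
  · intro j
    have h1 := (PowerSeries.X_pow_dvd_iff.1 (hlim 0 j)) 0 (by omega)
    rw [map_sub, sub_eq_zero] at h1
    rw [h1]
    exact (G 0).2.1 j
  · intro j
    have h1 := (PowerSeries.X_pow_dvd_iff.1 (hlim 0 j)) 1 (by omega)
    rw [map_sub, sub_eq_zero] at h1
    rw [h1]
    change PowerSeries.coeff 1 (γ₀ j) = v j
    rw [hγ₀]
    simp
  · intro i
    ext m
    rw [map_zero]
    have h1 := dvd_add (Arca.congr_val (m + 2) γ (G m).1 (hlim m) (F i)) ((G m).2.2 i)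
    rw [sub_add_cancel] at h1
    exact (PowerSeries.X_pow_dvd_iff.1 h1) m (by omega)

end Pool.Agent.H90.VA
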