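import Pool.Agent.H90.VA.Stm2

/-!
Project VA: velocities of formal arcs are limits of secants.
-/

set_option autoImplicit false

namespace Pool.Agent.H90.VA

open MvPolynomial

namespace ArcbAux

/-- `smul_form` for commutative algebras -/
theorem smul_form' {R ι : Type} [CommRing R] [Algebra ℂ R] [Fintype ι] {F : MvPolynomial ι ℂ} {e : ℕ}
    (hF : F.IsHomogeneous e) (c : R) (y : ι → R) :
    MvPolynomial.aeval (fun l => c * y l) F = c ^ e * MvPolynomial.aeval y F := by
  classical
  rw [MvPolynomial.aeval_def, MvPolynomial.eval₂_eq', MvPolynomial.aeval_def,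
    MvPolynomial.eval₂_eq', Finset.mul_sum]
  refine Finset.sum_congr rfl fun a ha => ?_
  have h1 : ∑ i, a i = e := by
    have h2 := hF (MvPolynomial.mem_support_iff.1 ha)
    rw [← h2, Finsupp.weight_apply, Finsupp.sum_fintype _ _ fun i => by simp]
    simp
  simp only [mul_pow, Finset.prod_mul_distrib]
  rw [Finset.prod_pow_eq_pow_sum, h1]
  ring

/-- the forms which give the blow-up -/
noncomputable def HH {M : ℕ} (p : Fin M → ℂ) (i : Fin M × Fin M × Fin M) : MvPolynomial (Fin M) ℂ :=
  X i.1 * (X i.2.1 * C (p i.2.2) - X i.2.2 * C (p i.2.1))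

theorem HH_hom {M : ℕ} (p : Fin M → ℂ) (i : Fin M × Fin M × Fin M) :
    (HH p i).IsHomogeneous 2 := by
  unfold HH
  have h1 : (X i.2.1 * C (p i.2.2) : MvPolynomial (Fin M) ℂ).IsHomogeneous 1 := by
    have := (isHomogeneous_X ℂ i.2.1).mul (isHomogeneous_C (Fin M) (p i.2.2))
    simpa using this
  have h2 : (X i.2.2 * C (p i.2.1) : MvPolynomial (Fin M) ℂ).IsHomogeneous 1 := by
    have := (isHomogeneous_X ℂ i.2.2).mul (isHomogeneous_C (Fin M) (p i.2.1))
    simpa using this
  exact (isHomogeneous_X ℂ i.1).mul (h1.sub h2)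

theorem aeval_HH {M : ℕ} {R : Type} [CommRing R] [Algebra ℂ R] (p : Fin M → ℂ) (y : Fin M → R)
    (i : Fin M × Fin M × Fin M) : aeval y (HH p i) =
      y i.1 * (y i.2.1 * algebraMap ℂ R (p i.2.2) - y i.2.2 * algebraMap ℂ R (p i.2.1)) := by
  unfold HH
  simp only [map_mul, map_sub, aeval_X, aeval_C]

theorem aeval_comp {M : ℕ} {R : Type} [CommRing R] [Algebra ℂ R] (p : Fin M → ℂ) (y : Fin M → R)
    (F : MvPolynomial (Fin M × Fin M × Fin M) ℂ) :
    aeval y (aeval (HH p) F) = aeval (fun i => y i.1 *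
      (y i.2.1 * algebraMap ℂ R (p i.2.2) - y i.2.2 * algebraMap ℂ R (p i.2.1))) F := by
  have h1 : (aeval y).comp (aeval (HH p)) = aeval (R := ℂ) (fun i : Fin M × Fin M × Fin M => y i.1 *
      (y i.2.1 * algebraMap ℂ R (p i.2.2) - y i.2.2 * algebraMap ℂ R (p i.2.1))) := by
    apply MvPolynomial.algHom_ext
    intro i
    rw [AlgHom.comp_apply, aeval_X, aeval_X, aeval_HH]
  rw [← h1]
  rfl

end ArcbAux

open ArcbAux

theorem arcb : S_ARCB := by
  classical
  intro L _ _ M y p v γ h0 h1 hγ hne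
  refine ⟨?_, ?_⟩
  · obtain ⟨j, k, hjk⟩ := hne
    have hp : ∃ i, p i ≠ 0 := by
      by_contra hcon
      push Not at hcon
      apply hjk
      rw [hcon j, hcon k, mul_zero, mul_zero]
    obtain ⟨i, hi⟩ := hp
    intro hz
    have h2 := congrFun hz (i, j, k)
    have h3 : p i * (v j * p k - v k * p j) = 0 := h2
    rcases mul_eq_zero.1 h3 with h4 | h4
    · exact hi h4
    · exact hjk (sub_eq_zero.1 h4)
  · intro e F hF hz
    have hG : (aeval (HH p) F).IsHomogeneous (2 * e) := hF.aeval (HH p) (HH_hom p)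
    have h2 : aeval y (aeval (HH p) F) = 0 := by
      rw [aeval_comp]
      exact hz
    have h3 := hγ _ _ hG h2
    rw [aeval_comp] at h3
    -- the factor `s`
    have hδ : ∀ j k : Fin M, ∃ δ : PowerSeries ℂ,
        γ j * algebraMap ℂ (PowerSeries ℂ) (p k) - γ k * algebraMap ℂ (PowerSeries ℂ) (p j) =
          PowerSeries.X * δ ∧ PowerSeries.coeff 0 δ = v j * p k - v k * p j := by
      intro j k
      have h4 : (PowerSeries.X : PowerSeries ℂ) ∣
          γ j * algebraMap ℂ (PowerSeries ℂ) (p k) - γ k * algebraMap ℂ (PowerSeries ℂ) (p j) := by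
        rw [PowerSeries.X_dvd_iff]
        have h5 := h0 j
        have h6 := h0 k
        rw [PowerSeries.coeff_zero_eq_constantCoeff_apply] at h5 h6
        rw [map_sub, map_mul, map_mul, h5, h6]
        simp only [PowerSeries.algebraMap_apply, Algebra.algebraMap_self, RingHom.id_apply,
          PowerSeries.constantCoeff_C]
        ring
      obtain ⟨δ, hδ⟩ := h4
      refine ⟨δ, hδ, ?_⟩
      have h5 := congrArg (PowerSeries.coeff 1) hδ
      have h6 : PowerSeries.coeff 1 (PowerSeries.X * δ) = PowerSeries.coeff 0 δ :=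
        PowerSeries.coeff_succ_X_mul 0 δ
      rw [h6] at h5
      rw [← h5, map_sub]
      simp only [PowerSeries.algebraMap_apply, Algebra.algebraMap_self, RingHom.id_apply,
        PowerSeries.coeff_mul_C]
      rw [h1 j, h1 k]
    choose δ hδ1 hδ2 using hδ
    have h4 : (fun i : Fin M × Fin M × Fin M => γ i.1 *
        (γ i.2.1 * algebraMap ℂ (PowerSeries ℂ) (p i.2.2) -
          γ i.2.2 * algebraMap ℂ (PowerSeries ℂ) (p i.2.1))) =
        fun i => PowerSeries.X * (γ i.1 * δ i.2.1 i.2.2) := by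
      funext i
      rw [hδ1]
      ring
    rw [h4, smul_form' hF] at h3
    have h5 : aeval (fun i : Fin M × Fin M × Fin M => γ i.1 * δ i.2.1 i.2.2) F = 0 :=
      (mul_eq_zero.1 h3).resolve_left (pow_ne_zero _ PowerSeries.X_ne_zero)
    have h6 := congrArg (PowerSeries.constantCoeff (R := ℂ)) h5
    rw [MvPolynomial.map_aeval, map_zero] at h6
    have h7 : (PowerSeries.constantCoeff (R := ℂ)).comp (algebraMap ℂ (PowerSeries ℂ)) =
        algebraMap ℂ ℂ := by
      ext a
      simp [PowerSeries.algebraMap_apply]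
    rw [h7] at h6
    have h8 : (fun i : Fin M × Fin M × Fin M =>
        PowerSeries.constantCoeff (R := ℂ) (γ i.1 * δ i.2.1 i.2.2)) =
        fun i => p i.1 * (v i.2.1 * p i.2.2 - v i.2.2 * p i.2.1) := by
      funext i
      rw [map_mul]
      have h9 := h0 i.1
      have h10 := hδ2 i.2.1 i.2.2
      rw [PowerSeries.coeff_zero_eq_constantCoeff_apply] at h9 h10
      rw [h9, h10]
    rw [h8] at h6
    exact h6

end Pool.Agent.H90.VA
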