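import Pool.Agent.H90.VA.Stm

set_option autoImplicit false

namespace Pool.Agent.H90.VA

open Module MvPolynomial

theorem mul_nonunits {L : Type} [Field L] (O : ValuationSubring L) {c z : L} (hc : c ∈ O)
    (hz : z ∈ O.nonunits) : c * z ∈ O.nonunits := by
  rw [O.mem_nonunits_iff, map_mul]
  have h5 := (O.valuation_le_one_iff _).2 hc
  exact (mul_le_mul_left h5 _).trans_lt (by rw [one_mul]; exact O.mem_nonunits_iff.1 hz)

theorem nonunits_mem {L : Type} [Field L] (O : ValuationSubring L) {z : L}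
    (hz : z ∈ O.nonunits) : z ∈ O :=
  (O.valuation_le_one_iff _).1 (O.mem_nonunits_iff.1 hz).le

theorem unit_notMem {L : Type} [Field L] [Algebra ℂ L] (O : ValuationSubring L)
    (hO : ∀ a : ℂ, algebraMap ℂ L a ∈ O) {a : ℂ} (ha : a ≠ 0) :
    algebraMap ℂ L a ∉ O.nonunits := by
  intro h
  have h1 := mul_nonunits O (hO a⁻¹) h
  rw [← map_mul, inv_mul_cancel₀ ha, map_one, O.mem_nonunits_iff, map_one] at h1
  exact lt_irrefl _ h1

theorem blow : S_BLOW := by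
  intro L _ _ M y p v hp hd
  classical
  obtain ⟨hd0, _⟩ := id hd
  obtain ⟨j1, j2, hj1, hj2⟩ : ∃ j1 j2, p j1 ≠ 0 ∧ v j2 * p j1 - v j1 * p j2 ≠ 0 := by
    by_contra hcon
    push Not at hcon
    apply hd0
    funext i
    show p i.1 * (v i.2.1 * p i.2.2 - v i.2.2 * p i.2.1) = 0
    by_cases h : p i.1 = 0
    · rw [h, zero_mul]
    · have h1 := hcon i.1 i.2.1 h
      have h2 := hcon i.1 i.2.2 h
      linear_combination p i.2.2 * h1 - p i.2.1 * h2
  obtain ⟨YY, hYY⟩ : ∃ YY : Fin M × Fin M × Fin M → L, YY = fun i =>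
      y i.1 * (y i.2.1 * algebraMap ℂ L (p i.2.2) - y i.2.2 * algebraMap ℂ L (p i.2.1)) := ⟨_, rfl⟩
  obtain ⟨PP, hPP⟩ : ∃ PP : Fin M × Fin M × Fin M → ℂ, PP = fun i =>
      p i.1 * (v i.2.1 * p i.2.2 - v i.2.2 * p i.2.1) := ⟨_, rfl⟩
  have hpt : IsPoint YY PP := by
    rw [hYY, hPP]
    exact hd
  have hP0 : PP (j1, j2, j1) ≠ 0 := by
    rw [hPP]
    exact mul_ne_zero hj1 hj2
  have hY0 : YY (j1, j2, j1) ≠ 0 := by
    intro h
    have h1 := hpt.2 1 (X (j1, j2, j1)) (isHomogeneous_X _ _) (by rw [aeval_X]; exact h)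
    rw [aeval_X] at h1
    exact hP0 h1
  obtain ⟨O, hO1, hO2⟩ := exists_val (fun j => YY j / YY (j1, j2, j1))
    (fun j => PP j / PP (j1, j2, j1)) (fun F hF => dehom hpt hP0 hY0 F hF)
  have hC : ∀ a : ℂ, algebraMap ℂ L a ∈ O := by
    intro a
    have h1 := hO1 (C a)
    rwa [aeval_C] at h1
  have hN : ∀ i, YY i / YY (j1, j2, j1) - algebraMap ℂ L (PP i / PP (j1, j2, j1)) ∈
      O.nonunits := by
    intro i
    have h1 := hO2 (X i - C (PP i / PP (j1, j2, j1))) (by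
      rw [map_sub, aeval_X, aeval_C]
      exact sub_self _)
    rwa [map_sub, aeval_X, aeval_C] at h1
  -- notation
  have hinj : ∀ a : ℂ, a ≠ 0 → algebraMap ℂ L a ≠ 0 := fun a ha =>
    (map_ne_zero_iff _ (algebraMap ℂ L).injective).2 ha
  obtain ⟨D, hD⟩ : ∃ D : L, D = y j2 * algebraMap ℂ L (p j1) - y j1 * algebraMap ℂ L (p j2) :=
    ⟨_, rfl⟩
  have hYD : YY (j1, j2, j1) = y j1 * D := by rw [hYY, hD]
  rw [hYD] at hY0
  have hy1 : y j1 ≠ 0 := left_ne_zero_of_mul hY0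
  have hD0 : D ≠ 0 := right_ne_zero_of_mul hY0
  obtain ⟨W, hW⟩ : ∃ W : ℂ, W = v j2 * p j1 - v j1 * p j2 := ⟨_, rfl⟩
  rw [← hW] at hj2
  have hPW : PP (j1, j2, j1) = p j1 * W := by rw [hPP, hW]
  have ha1 := hinj _ hj1
  have hW0 := hinj _ hj2
  -- the two kinds of coordinates
  have hz1 : ∀ j, y j / y j1 - algebraMap ℂ L (p j / p j1) ∈ O.nonunits := by
    intro j
    have h1 := hN (j, j2, j1)
    have e1 : YY (j, j2, j1) / YY (j1, j2, j1) = y j / y j1 := by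
      have e2 : YY (j, j2, j1) = y j * D := by rw [hYY, hD]
      rw [hYD, e2, mul_div_mul_right _ _ hD0]
    have e3 : PP (j, j2, j1) / PP (j1, j2, j1) = p j / p j1 := by
      have e2 : PP (j, j2, j1) = p j * W := by rw [hPP, hW]
      rw [hPW, e2, mul_div_mul_right _ _ hj2]
    rwa [e1, e3] at h1
  have hz2 : ∀ j, (y j * algebraMap ℂ L (p j1) - y j1 * algebraMap ℂ L (p j)) / D -
      algebraMap ℂ L ((v j * p j1 - v j1 * p j) / W) ∈ O.nonunits := by
    intro j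
    have h1 := hN (j1, j, j1)
    have e1 : YY (j1, j, j1) / YY (j1, j2, j1) =
        (y j * algebraMap ℂ L (p j1) - y j1 * algebraMap ℂ L (p j)) / D := by
      rw [hYD, hYY]
      exact mul_div_mul_left _ _ hy1
    have e3 : PP (j1, j, j1) / PP (j1, j2, j1) = (v j * p j1 - v j1 * p j) / W := by
      rw [hPW, hPP]
      exact mul_div_mul_left _ _ hj1
    rwa [e1, e3] at h1
  obtain ⟨t, ht⟩ : ∃ t : L, t = D * algebraMap ℂ L (p j1) / (y j1 * algebraMap ℂ L W) := ⟨_, rfl⟩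
  have ht0 : t ≠ 0 := by
    rw [ht]
    exact div_ne_zero (mul_ne_zero hD0 ha1) (mul_ne_zero hy1 hW0)
  have htn : t ∈ O.nonunits := by
    have h1 := mul_nonunits O (hC (p j1 ^ 2 / W)) (hz1 j2)
    have e1 : algebraMap ℂ L (p j1 ^ 2 / W) * (y j2 / y j1 - algebraMap ℂ L (p j2 / p j1)) = t := by
      rw [ht, hD, map_div₀, map_div₀, map_pow]
      field_simp
    rwa [e1] at h1
  have hs0 : algebraMap ℂ L (p j1) + t * algebraMap ℂ L (v j1) ≠ 0 := by
    intro h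
    apply unit_notMem O hC hj1
    have h1 := mul_nonunits O (hC (-(v j1))) htn
    have e1 : algebraMap ℂ L (-(v j1)) * t = algebraMap ℂ L (p j1) := by
      rw [map_neg]
      linear_combination (-1 : L) * h
    rwa [e1] at h1
  refine ⟨O, t, y j1 / (algebraMap ℂ L (p j1) + t * algebraMap ℂ L (v j1)), hC, ht0, htn,
    div_ne_zero hy1 hs0, fun j => ?_⟩
  obtain ⟨z2, hz2d⟩ : ∃ z2 : L, z2 = (y j * algebraMap ℂ L (p j1) -
    y j1 * algebraMap ℂ L (p j)) / D - algebraMap ℂ L ((v j * p j1 - v j1 * p j) / W) := ⟨_, rfl⟩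
  have hz2n := hz2 j
  rw [← hz2d] at hz2n
  obtain ⟨z, hz⟩ : ∃ z : L, z = algebraMap ℂ L (W / p j1 ^ 2) * z2 := ⟨_, rfl⟩
  have hzn : z ∈ O.nonunits := by
    rw [hz]
    exact mul_nonunits O (hC _) hz2n
  obtain ⟨w, hw⟩ : ∃ w : ℂ, w = (v j * p j1 - v j1 * p j) / p j1 ^ 2 := ⟨_, rfl⟩
  -- the expansion of `y j / y j1`
  have hU : y j / y j1 = algebraMap ℂ L (p j / p j1) + t * (algebraMap ℂ L w + z) := by
    rw [hz, hz2d, hw, ht]
    simp only [map_div₀, map_sub, map_mul, map_pow]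
    field_simp
    ring
  refine ⟨algebraMap ℂ L (p j1) * z + (algebraMap ℂ L w * algebraMap ℂ L (v j1) +
    algebraMap ℂ L (v j1) * z) * t, ?_, ?_⟩
  · refine add_mem (mul_nonunits O (hC _) hzn) (mul_nonunits O ?_ htn)
    exact add_mem (mul_mem (hC _) (hC _)) (mul_mem (hC _) (nonunits_mem O hzn))
  · have e1 : y j / (y j1 / (algebraMap ℂ L (p j1) + t * algebraMap ℂ L (v j1))) =
        (y j / y j1) * (algebraMap ℂ L (p j1) + t * algebraMap ℂ L (v j1)) := by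
      field_simp
    rw [e1, hU, hw]
    simp only [map_div₀, map_sub, map_mul, map_pow]
    field_simp
    ring

end Pool.Agent.H90.VA
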