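import Pool.Agent.H90.VA.Stm

/-!
TAY: Taylor expansion.
-/

set_option autoImplicit false
set_option linter.unusedSectionVars false
set_option linter.overlappingInstances false

namespace Pool.Agent.H90.VA

open Module MvPolynomial

namespace Tay68

theorem dd_C {M : ℕ} (p v : Fin M → ℂ) (a : ℂ) : dd p v (C a) = 0 := by
  simp [dd]

theorem dd_add {M : ℕ} (p v : Fin M → ℂ) (A B : MvPolynomial (Fin M) ℂ) :
    dd p v (A + B) = dd p v A + dd p v B := by
  simp only [dd, map_add, add_mul, Finset.sum_add_distrib]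

theorem dd_mul {M : ℕ} (p v : Fin M → ℂ) (A B : MvPolynomial (Fin M) ℂ) :
    dd p v (A * B) = dd p v A * aeval p B + aeval p A * dd p v B := by
  simp only [dd, Derivation.leibniz, smul_eq_mul, map_add, map_mul]
  rw [Finset.sum_mul, Finset.mul_sum, ← Finset.sum_add_distrib]
  refine Finset.sum_congr rfl fun j _ => ?_
  ring

theorem dd_X {M : ℕ} (p v : Fin M → ℂ) (i : Fin M) : dd p v (X i) = v i := by
  classical
  simp only [dd, pderiv_X]
  rw [Finset.sum_eq_single i]
  · simp
  · intro j _ hj
    simp [Pi.single_apply, Ne.symm hj]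
  · intro h
    exact absurd (Finset.mem_univ i) h

theorem mem_sc {L : Type} [Field L] {O : ValuationSubring L} {t w : L} :
    w ∈ sc O t ↔ ∃ z ∈ O.nonunits, w = t * z := Iff.rfl

theorem nonunits_mem {L : Type} [Field L] {O : ValuationSubring L} {z : L}
    (h : z ∈ O.nonunits) : z ∈ O := by
  rw [← O.valuation_le_one_iff]
  exact (O.mem_nonunits_iff.1 h).le

theorem nonunits_mul {L : Type} [Field L] {O : ValuationSubring L} {z c : L}
    (h : z ∈ O.nonunits) (hc : c ∈ O) : c * z ∈ O.nonunits := by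
  rw [O.mem_nonunits_iff, map_mul]
  have h5 := (O.valuation_le_one_iff _).2 hc
  exact (mul_le_mul_left h5 _).trans_lt (by rw [one_mul]; exact O.mem_nonunits_iff.1 h)

theorem sc_mul {L : Type} [Field L] {O : ValuationSubring L} {t w c : L}
    (h : w ∈ sc O t) (hc : c ∈ O) : c * w ∈ sc O t := by
  obtain ⟨z, hz, rfl⟩ := h
  exact ⟨c * z, nonunits_mul hz hc, by ring⟩

theorem sc_self {L : Type} [Field L] {O : ValuationSubring L} {t w : L}
    (h : w ∈ O.nonunits) : t * w ∈ sc O t := ⟨w, h, rfl⟩

theorem sc_mem {L : Type} [Field L] {O : ValuationSubring L} {t w : L} (ht : t ∈ O)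
    (h : w ∈ sc O t) : w ∈ O := by
  obtain ⟨z, hz, rfl⟩ := h
  exact mul_mem ht (nonunits_mem hz)

/-- products of Taylor expansions -/
theorem mul_tay {L : Type} [Field L] [Algebra ℂ L] {O : ValuationSubring L}
    (hO : ∀ a : ℂ, algebraMap ℂ L a ∈ O) {t f g : L} (ht : t ∈ O.nonunits) {a a' b b' : ℂ}
    (hf : f - algebraMap ℂ L a - t * algebraMap ℂ L a' ∈ sc O t)
    (hg : g - algebraMap ℂ L b - t * algebraMap ℂ L b' ∈ sc O t) :
    f * g - algebraMap ℂ L (a * b) - t * algebraMap ℂ L (a' * b + a * b') ∈ sc O t := by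
  have ht' : t ∈ O := nonunits_mem ht
  have hgO : g ∈ O := by
    have h1 : g = (g - algebraMap ℂ L b - t * algebraMap ℂ L b')
        + (algebraMap ℂ L b + t * algebraMap ℂ L b') := by ring
    rw [h1]
    exact add_mem (sc_mem ht' hg) (add_mem (hO b) (mul_mem ht' (hO b')))
  have h2 : f * g - algebraMap ℂ L (a * b) - t * algebraMap ℂ L (a' * b + a * b')
      = g * (f - algebraMap ℂ L a - t * algebraMap ℂ L a')
        + (algebraMap ℂ L a + t * algebraMap ℂ L a') * (g - algebraMap ℂ L b - t * algebraMap ℂ L b')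
        + t * ((algebraMap ℂ L a' * algebraMap ℂ L b') * t) := by
    simp only [map_mul, map_add]
    ring
  rw [h2]
  refine add_mem (add_mem (sc_mul hf hgO) (sc_mul hg ?_)) (sc_self ?_)
  · exact add_mem (hO a) (mul_mem ht' (hO a'))
  · exact nonunits_mul ht (mul_mem (hO a') (hO b'))

end Tay68

open Tay68 in
theorem tay : S_TAY := by
  intro L _ _ O hO M u p v t ht hu A
  induction A using MvPolynomial.induction_on with
  | C a =>
    rw [dd_C, map_zero, mul_zero, sub_zero, aeval_C, aeval_C]
    simp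
  | add f g hf hg =>
    have h1 := add_mem hf hg
    have h2 : aeval u (f + g) - algebraMap ℂ L (aeval p (f + g)) - t * algebraMap ℂ L (dd p v (f + g))
        = (aeval u f - algebraMap ℂ L (aeval p f) - t * algebraMap ℂ L (dd p v f))
        + (aeval u g - algebraMap ℂ L (aeval p g) - t * algebraMap ℂ L (dd p v g)) := by
      rw [dd_add]
      simp only [map_add]
      ring
    rw [h2]
    exact h1
  | mul_X f i hf =>
    have h1 : aeval u (X i : MvPolynomial (Fin M) ℂ) - algebraMap ℂ L (aeval p (X i : MvPolynomial (Fin M) ℂ))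
        - t * algebraMap ℂ L (dd p v (X i)) ∈ sc O t := by
      rw [dd_X, aeval_X, aeval_X]
      exact hu i
    have h2 := mul_tay hO ht hf h1
    rw [dd_mul, map_mul, map_mul]
    exact h2

end Pool.Agent.H90.VA
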