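import Pool.Agent.H90.VA.Pts
import Pool.Agent.H90.VA.Tay

/-!
Separation of tangent directions: the algebraic core.
-/

set_option autoImplicit false
set_option linter.unusedSectionVars false
set_option linter.overlappingInstances false

namespace Pool.Agent.H90.VA

open Module MvPolynomial

section

variable {K L : Type} [Field K] [Algebra ℂ K] [Field L] [Algebra ℂ L] [Algebra L K]
  [IsScalarTower ℂ L K] {N M : ℕ}

/-- the residue points are points over `p` -/
theorem res_point {x : Fin N → K} {lam : K} (hlam : lam ≠ 0) {ξ : Fin N → K}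
    (hxξ : x = fun j => lam * ξ j) {y : Fin M → L} {s0 : L} (hs0 : s0 ≠ 0) {u : Fin M → L}
    (hyu : y = fun j => s0 * u j) {p : Fin M → ℂ} (hp : p ≠ 0) {P : MvPolynomial (Fin N) ℂ}
    (hP : P.IsHomogeneous 1) (hP1 : aeval ξ P = 1) {κ : Type} [Field κ] [Algebra ℂ κ]
    {q : Fin N → κ}
    (hq1 : ∀ G : MvPolynomial (Fin N ⊕ Fin M) ℂ,
      aeval (Sum.elim ξ fun j => algebraMap L K (u j)) G = 0 →
      aeval (Sum.elim q fun j => algebraMap ℂ κ (p j)) G = 0) :
    IsPoint x q ∧ InGraph x y q p ∧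
      ∀ (d : ℕ) (F : Fin M → MvPolynomial (Fin N) ℂ), (∀ j, (F j).IsHomogeneous d) →
        (∀ j k, algebraMap L K (y j) * aeval x (F k) = algebraMap L K (y k) * aeval x (F j)) →
        ∀ j k, aeval q (F j) * algebraMap ℂ κ (p k) = aeval q (F k) * algebraMap ℂ κ (p j) := by
  classical
  obtain ⟨j1, hj1⟩ : ∃ j, p j ≠ 0 := by
    by_contra hc
    push Not at hc
    exact hp (funext hc)
  have hj1' : algebraMap ℂ κ (p j1) ≠ 0 := by
    rw [Ne, map_eq_zero]
    exact hj1
  have hs0K : algebraMap L K s0 ≠ 0 := by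
    rw [Ne, map_eq_zero]
    exact hs0
  have hq3 : ∀ F : MvPolynomial (Fin N) ℂ, aeval ξ F = 0 → aeval q F = 0 := by
    intro F hF
    have h1 := hq1 (rename Sum.inl F) (by
      rw [aeval_rename, Sum.elim_comp_inl, hF])
    rwa [aeval_rename, Sum.elim_comp_inl] at h1
  have hqone : aeval q P = 1 := by
    have h1 := hq3 (P - 1) (by rw [map_sub, hP1, map_one, sub_self])
    rw [map_sub, map_one] at h1
    exact sub_eq_zero.1 h1
  have hq0 : ∃ i, q i ≠ 0 := by
    by_contra hc'
    push Not at hc'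
    have h1 : q = fun j => (0 : κ) * q j := by
      funext j
      rw [hc', mul_zero]
    rw [h1, smul_form hP, pow_one, zero_mul] at hqone
    exact zero_ne_one hqone
  refine ⟨⟨fun h0 => ?_, fun e F hF hF0 => ?_⟩, ⟨fun h0 => ?_, fun e F hF hF0 => ?_⟩, ?_⟩
  · obtain ⟨i, hi⟩ := hq0
    exact hi (congrFun h0 i)
  · apply hq3
    rw [hxξ, smul_form hF] at hF0
    exact (mul_eq_zero.1 hF0).resolve_left (pow_ne_zero _ hlam)
  · obtain ⟨i, hi⟩ := hq0
    exact mul_ne_zero hi hj1' (congrFun h0 (i, j1))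
  · have h1 : (fun ij : Fin N × Fin M => x ij.1 * algebraMap L K (y ij.2)) =
        fun ij => (lam * algebraMap L K s0) * (ξ ij.1 * algebraMap L K (u ij.2)) := by
      funext ij
      conv_lhs => rw [hxξ, hyu]
      rw [map_mul]
      ring
    rw [h1, smul_form hF] at hF0
    have hF1 := (mul_eq_zero.1 hF0).resolve_left (pow_ne_zero _ (mul_ne_zero hlam hs0K))
    have h3 := hq1 (aeval (fun ij : Fin N × Fin M =>
      (X (Sum.inl ij.1) * X (Sum.inr ij.2) : MvPolynomial (Fin N ⊕ Fin M) ℂ)) F) (by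
      rw [comp_aeval_apply]
      simp only [map_mul, aeval_X, Sum.elim_inl, Sum.elim_inr]
      exact hF1)
    rw [comp_aeval_apply] at h3
    simp only [map_mul, aeval_X, Sum.elim_inl, Sum.elim_inr] at h3
    exact h3
  · intro d F hF hyF j k
    have h1 := hq1 (rename Sum.inl (F j) * X (Sum.inr k) -
      rename Sum.inl (F k) * X (Sum.inr j)) (by
        rw [map_sub, map_mul, map_mul, aeval_rename, aeval_rename,
          Sum.elim_comp_inl, aeval_X, aeval_X, Sum.elim_inr, Sum.elim_inr]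
        have h2 := hyF j k
        rw [hxξ, smul_form (hF k), smul_form (hF j)] at h2
        have h3 : ∀ i, algebraMap L K (y i) = algebraMap L K s0 * algebraMap L K (u i) := by
          intro i
          rw [← map_mul]
          congr 1
          exact congrFun hyu i
        rw [h3 j, h3 k] at h2
        have h4 : (algebraMap L K s0 * lam ^ d) * (aeval ξ (F j) *
            algebraMap L K (u k) - aeval ξ (F k) * algebraMap L K (u j)) = 0 := by
          linear_combination -h2
        exact (mul_eq_zero.1 h4).resolve_left (mul_ne_zero hs0K (pow_ne_zero _ hlam)))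
    rw [map_sub, map_mul, map_mul, aeval_rename, aeval_rename,
      Sum.elim_comp_inl, aeval_X, aeval_X, Sum.elim_inr, Sum.elim_inr] at h1
    exact sub_eq_zero.1 h1

end

section

variable {L : Type} [Field L]

theorem unit_inv_mem (O : ValuationSubring L) {a : L} (h : a ∉ O.nonunits) : a⁻¹ ∈ O := by
  by_contra h4
  exact h (O.mem_nonunits_iff_or.2 (Or.inr h4))

theorem unit_add [Algebra ℂ L] (O : ValuationSubring L) (hO : ∀ a : ℂ, algebraMap ℂ L a ∈ O)
    {a : ℂ} (ha : a ≠ 0) {z : L} (hz : z ∈ O.nonunits) : algebraMap ℂ L a + z ∉ O.nonunits := by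
  intro h
  have h1 := sub_mem h hz
  rw [add_sub_cancel_right] at h1
  exact ha (const_nonunit O hO h1)

end

section

variable {K L : Type} [Field K] [Algebra ℂ K] [Field L] [Algebra ℂ L] [Algebra L K]
  [IsScalarTower ℂ L K] [FiniteDimensional L K] {N M : ℕ}

/-- **Separation of tangent directions.** -/
theorem core_tan (hspr : S_SPR) (hdep : S_DEP) (hstab : S_STAB) (hred : S_RED)
    (hlow : S_LOW) (hquo : S_QUO) (hglob : S_GLOB) (hblow : S_BLOW)
    {x : Fin N → K} (hx : x ≠ 0) {y : Fin M → L} {r T m : ℕ} (hd1 : finrank L K ≤ r + 1)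
    (hd2 : finrank L K ≤ T + 1) (hm : r + 1 + T = m) {p : Fin M → ℂ} (hp : IsPoint y p)
    {v : Fin M → ℂ} (hv : Direction y p v) {u0 : L} (hu0 : u0 ≠ 0) (S0 : Set K)
    (h1 : ∀ s ∈ S0, ∀ f : Fin m → Fin N,
      Reg y p u0 (Algebra.trace L K ((∏ k, x (f k)) * s)))
    (h2 : ∀ (κ : Type) [Field κ] [Algebra ℂ κ] (q : Fin N → κ), IsPoint x q →
      InGraph x y q p →
      (∀ (d : ℕ) (F : Fin M → MvPolynomial (Fin N) ℂ), (∀ j, (F j).IsHomogeneous d) →
        (∀ j k, algebraMap L K (y j) * MvPolynomial.aeval x (F k) =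
          algebraMap L K (y k) * MvPolynomial.aeval x (F j)) →
        ∀ j k, MvPolynomial.aeval q (F j) * algebraMap ℂ κ (p k) =
          MvPolynomial.aeval q (F k) * algebraMap ℂ κ (p j)) →
      Defined x y q ∧
      ∃ (e s : ℕ) (B : MvPolynomial (Fin N) ℂ) (A : Fin s → MvPolynomial (Fin N) ℂ)
        (w : Fin s → K), B.IsHomogeneous e ∧ MvPolynomial.aeval q B ≠ 0 ∧
        (∀ i, (A i).IsHomogeneous (e + m)) ∧ (∀ i, w i ∈ S0) ∧
        MvPolynomial.aeval x B * algebraMap L K u0 = ∑ i, MvPolynomial.aeval x (A i) * w i) :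
    ∃ G G' : MvPolynomial (Fin N) ℂ, G.IsHomogeneous m ∧ G'.IsHomogeneous m ∧
      ∃ s ∈ S0, ∃ s' ∈ S0, ∃ (e : ℕ) (A B : MvPolynomial (Fin M) ℂ), A.IsHomogeneous e ∧
        B.IsHomogeneous e ∧ aeval p B ≠ 0 ∧ aeval p A = 0 ∧ dd p v A ≠ 0 ∧
        aeval y B * Algebra.trace L K (aeval x G * s + aeval x G' * s') = aeval y A * u0 := by
  classical
  by_contra hcon
  have hu0K : algebraMap L K u0 ≠ 0 := by
    rw [Ne, map_eq_zero]
    exact hu0
  -- the valuation ring
  obtain ⟨O, t, s0, hO, ht0, ht, hs0, hu⟩ := hblow L M y p v hp hv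
  obtain ⟨u, hudef⟩ : ∃ u : Fin M → L, u = fun j => y j / s0 := ⟨_, rfl⟩
  have hyu : y = fun j => s0 * u j := by
    funext j
    rw [hudef]
    exact (mul_div_cancel₀ _ hs0).symm
  have hu1 : ∀ j, u j - algebraMap ℂ L (p j) - t * algebraMap ℂ L (v j) ∈ sc O t := by
    intro j
    rw [hudef]
    exact hu j
  have htO : t ∈ O := mem_of_nonunit O ht
  have hsct : ∀ z ∈ sc O t, z ∈ O.nonunits := by
    rintro z ⟨w, hw, rfl⟩
    exact mul_nonunit O ht (mem_of_nonunit O hw)
  have hu2 : ∀ j, u j - algebraMap ℂ L (p j) ∈ O.nonunits := by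
    intro j
    have h3 := add_mem (hsct _ (hu1 j)) (mul_nonunit O ht (hO (v j)))
    rwa [sub_add_cancel] at h3
  have huO : ∀ j, u j ∈ O := by
    intro j
    have h3 := add_mem (mem_of_nonunit O (hu2 j)) (hO (p j))
    rwa [sub_add_cancel] at h3
  have hdes : ∀ (e : ℕ) (A B : MvPolynomial (Fin M) ℂ) (w : L), A.IsHomogeneous e →
      B.IsHomogeneous e → aeval y B * w = aeval y A * u0 → aeval u B * (w / u0) = aeval u A := by
    intro e A B w hA hB hAB
    rw [hyu, smul_form hA, smul_form hB] at hAB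
    have h3 : aeval u B * w = aeval u A * u0 :=
      mul_left_cancel₀ (pow_ne_zero e hs0) (by linear_combination hAB)
    rw [← mul_div_assoc, h3, mul_div_cancel_right₀ _ hu0]
  -- coordinates
  let _ : Algebra O K := ((algebraMap L K).comp (algebraMap O L)).toAlgebra
  have _ : IsScalarTower O L K := IsScalarTower.of_algebraMap_eq fun _ => rfl
  obtain ⟨lam, ξ, P, hlam, hxξ, hint, hone, hP, hP1⟩ := coords O hO x hx
  -- a generating section
  have hdm : finrank L K ≤ m + 1 := by omega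
  obtain ⟨s1, hs1, f1, e1, A1, B1, hA1, hB1, hB1p, hA1p, hAB1⟩ := core hx hdm hp hu0 S0 h1
    (fun κ _ _ q hq hgraph hpq => (h2 κ q hq hgraph hpq).2)
  obtain ⟨a1, ha1⟩ : ∃ a : ℂ, a = aeval p A1 / aeval p B1 := ⟨_, rfl⟩
  have ha10 : a1 ≠ 0 := by
    rw [ha1]
    exact div_ne_zero hA1p hB1p
  obtain ⟨μ, hμ⟩ : ∃ μ : ℂ, μ = (dd p v A1 * aeval p B1 - aeval p A1 * dd p v B1) /
      (aeval p B1) ^ 2 / a1 := ⟨_, rfl⟩
  have hval0 : ∀ f : Fin m → Fin N, ∀ w ∈ S0, ∃ a : ℂ,
      Algebra.trace L K ((∏ k, x (f k)) * w) / u0 -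
        algebraMap ℂ L a * (1 + t * algebraMap ℂ L μ) ∈ sc O t := by
    intro f w hw
    obtain ⟨e, A, B, hA, hB, hBp, hAB⟩ := h1 w hw f
    refine ⟨aeval p A / aeval p B, ?_⟩
    obtain ⟨c, hc⟩ : ∃ c : ℂ, c = (aeval p A / aeval p B) / a1 := ⟨_, rfl⟩
    have hdd : dd p v (A * B1 + C (-c) * (A1 * B)) = 0 := by
      by_contra hne
      apply hcon
      refine ⟨∏ k, X (f k), C (-c) * ∏ k, X (f1 k), prodX_hom f, ?_, w, hw, s1, hs1, e + e1,
        A * B1 + C (-c) * (A1 * B), B * B1, (hA.mul hB1).add ?_, hB.mul hB1, ?_, ?_, hne, ?_⟩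
      · simpa using (isHomogeneous_C (Fin N) (-c)).mul (prodX_hom f1)
      · rw [add_comm e e1]
        simpa using (isHomogeneous_C (Fin M) (-c)).mul (hA1.mul hB)
      · rw [map_mul]
        exact mul_ne_zero hBp hB1p
      · rw [map_add, map_mul, map_mul, map_mul, aeval_C, Algebra.algebraMap_self_apply, hc, ha1]
        field_simp
        ring
      · have h3 : aeval x (∏ k, X (f k) : MvPolynomial (Fin N) ℂ) = ∏ k, x (f k) := by
          simp [map_prod, aeval_X]
        have h4 : aeval x (C (-c) * ∏ k, X (f1 k) : MvPolynomial (Fin N) ℂ) * s1 =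
            algebraMap ℂ L (-c) • ((∏ k, x (f1 k)) * s1) := by
          rw [Algebra.smul_def, ← IsScalarTower.algebraMap_apply ℂ L K]
          simp only [map_mul, map_prod, aeval_X, aeval_C]
          ring
        rw [h3, h4, map_add, map_smul, smul_eq_mul]
        simp only [map_mul, map_add, aeval_C]
        linear_combination aeval y B1 * hAB + aeval y B * algebraMap ℂ L (-c) * hAB1
    have h3 := hquo L O hO M u p v t ht hu1 A B _ hBp (hdes e A B _ hA hB hAB)
    have h4 : (dd p v A * aeval p B - aeval p A * dd p v B) / (aeval p B) ^ 2 =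
        (aeval p A / aeval p B) * μ := by
      rw [Tay68.dd_add, Tay68.dd_mul, Tay68.dd_mul, Tay68.dd_mul, Tay68.dd_C, zero_mul, zero_add,
        aeval_C, Algebra.algebraMap_self_apply, hc] at hdd
      rw [hμ]
      rw [ha1] at hdd ⊢
      field_simp at hdd ⊢
      linear_combination hdd
    rw [h4] at h3
    have h5 : Algebra.trace L K ((∏ k, x (f k)) * w) / u0 -
        algebraMap ℂ L (aeval p A / aeval p B) * (1 + t * algebraMap ℂ L μ) =
        Algebra.trace L K ((∏ k, x (f k)) * w) / u0 -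
        algebraMap ℂ L (aeval p A / aeval p B) -
        t * algebraMap ℂ L (aeval p A / aeval p B * μ) := by
      rw [map_mul (algebraMap ℂ L) (aeval p A / aeval p B) μ]
      ring
    rw [h5]
    exact h3
  -- the functional
  obtain ⟨ε, hε⟩ : ∃ ε : L, ε = 1 + t * algebraMap ℂ L μ := ⟨_, rfl⟩
  have hεn : ε ∉ O.nonunits := by
    have h3 := unit_add O hO one_ne_zero (mul_nonunit O ht (hO μ))
    rwa [map_one, ← hε] at h3
  have hεi : ε⁻¹ ∈ O := unit_inv_mem O hεn
  have hε0 : ε ≠ 0 := fun h => hεn (by rw [h]; exact zero_mem _)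
  have hεO : ε ∈ O := by
    rw [hε]
    exact add_mem (one_mem _) (mul_mem htO (hO μ))
  rw [← hε] at hval0
  obtain ⟨τ, hτ⟩ : ∃ τ : K →ₗ[L] L, τ = ε⁻¹ • Algebra.trace L K := ⟨_, rfl⟩
  have hτa : ∀ z, τ z = ε⁻¹ * Algebra.trace L K z := by
    intro z
    rw [hτ, LinearMap.smul_apply, smul_eq_mul]
  obtain ⟨S, hS⟩ : ∃ S : Set K, S = {z | ∃ w ∈ S0, z = lam ^ m * (w / algebraMap L K u0)} :=
    ⟨_, rfl⟩
  have hres : ∀ (G : MvPolynomial (Fin N) ℂ) (_ : G.IsHomogeneous m) (w : K),
      τ (aeval ξ G * (lam ^ m * (w / algebraMap L K u0))) =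
        ε⁻¹ * (Algebra.trace L K (aeval x G * w) / u0) := by
    intro G hG w
    have h3 : aeval ξ G * (lam ^ m * (w / algebraMap L K u0)) = u0⁻¹ • (aeval x G * w) := by
      rw [Algebra.smul_def, map_inv₀]
      conv_rhs => rw [hxξ, smul_form hG]
      field_simp
    rw [h3, map_smul, smul_eq_mul, hτa, div_eq_mul_inv]
    ring
  have hval : ∀ f : Fin m → Fin N, ∀ z ∈ S, ∃ a : ℂ,
      τ ((∏ k, ξ (f k)) * z) - algebraMap ℂ L a ∈ sc O t := by
    intro f z hz
    rw [hS] at hz
    obtain ⟨w, hw, rfl⟩ := hz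
    obtain ⟨a, ha⟩ := hval0 f w hw
    refine ⟨a, ?_⟩
    have h3 := hres _ (prodX_hom f) w
    simp only [map_prod, aeval_X] at h3
    rw [h3]
    have h4 := (sc O t).smul_mem (⟨ε⁻¹, hεi⟩ : O) ha
    have h5 : (⟨ε⁻¹, hεi⟩ : O) • (Algebra.trace L K ((∏ k, x (f k)) * w) / u0 -
        algebraMap ℂ L a * ε) = ε⁻¹ * (Algebra.trace L K ((∏ k, x (f k)) * w) / u0) -
        algebraMap ℂ L a := by
      change ε⁻¹ * (Algebra.trace L K ((∏ k, x (f k)) * w) / u0 - algebraMap ℂ L a * ε) = _
      field_simp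
    rwa [h5] at h4
  -- the ideals
  have hPJ : P - 1 ∈ JJ O hO ξ S τ (sc O t) := by
    rw [mem_JJ]
    intro c _ s _
    rw [map_sub, hP1, map_one, sub_self, zero_mul, zero_mul, map_zero]
    exact zero_mem _
  have hst := hstab N r _ P hP hPJ (fun h hh =>
    hdep K L N m r (r + 1) T O hO ξ hint hone S τ (sc O t) hd1 hd2 hm hsct hval h hh)
  have hre := hred N r _ P hP hPJ hst
  have hlo := hlow K L N m r (T + 1) O hO ξ hint hone S τ (sc O t) (by omega) (by omega)
    hsct hval hre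
  have hin : ∀ c ∈ Algebra.adjoin O (Set.range ξ), ∀ z ∈ S, τ (c * z) ∈ O := by
    intro c hc z hz
    have h3 := hspr K L N m O ξ hint hone hdm (1 : Submodule O L) τ z (fun f => by
      obtain ⟨a, ha⟩ := hval f z hz
      have h4 := add_mem (mem_of_nonunit O (hsct _ ha)) (hO a)
      rw [sub_add_cancel] at h4
      exact Submodule.mem_one.2 ⟨⟨_, h4⟩, rfl⟩) c hc
    obtain ⟨b, hb⟩ := Submodule.mem_one.1 h3
    rw [← hb]
    exact b.2
  -- the parameter
  obtain ⟨j, k, hjk⟩ : ∃ j k, v j * p k - v k * p j ≠ 0 := by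
    by_contra hc
    push Not at hc
    apply hv.1
    funext i
    change p i.1 * (v i.2.1 * p i.2.2 - v i.2.2 * p i.2.1) = 0
    rw [hc, mul_zero]
  obtain ⟨g, hg⟩ : ∃ g : L, g = u j * algebraMap ℂ L (p k) - u k * algebraMap ℂ L (p j) :=
    ⟨_, rfl⟩
  obtain ⟨η, hη, hgη⟩ : ∃ η : L, η ∉ O.nonunits ∧ g = t * η := by
    obtain ⟨z1, hz1, hz1'⟩ := hu1 j
    obtain ⟨z2, hz2, hz2'⟩ := hu1 k
    refine ⟨algebraMap ℂ L (v j * p k - v k * p j) + (z1 * algebraMap ℂ L (p k) -
      z2 * algebraMap ℂ L (p j)), unit_add O hO hjk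
        (sub_mem (mul_nonunit O hz1 (hO _)) (mul_nonunit O hz2 (hO _))), ?_⟩
    rw [hg, map_sub, map_mul, map_mul]
    linear_combination algebraMap ℂ L (p k) * hz1' - algebraMap ℂ L (p j) * hz2'
  have hηi : η⁻¹ ∈ O := unit_inv_mem O hη
  have hη0 : η ≠ 0 := fun h => hη (by rw [h]; exact zero_mem _)
  have hηO : η ∈ O := by
    rcases O.mem_or_inv_mem η with h | h
    · exact h
    · by_contra hcn
      obtain ⟨z1, hz1, hz1'⟩ := hu1 j
      obtain ⟨z2, hz2, hz2'⟩ := hu1 k
      have h3 : η = algebraMap ℂ L (v j * p k - v k * p j) + (z1 * algebraMap ℂ L (p k) -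
          z2 * algebraMap ℂ L (p j)) := by
        apply mul_left_cancel₀ ht0
        rw [← hgη, hg, map_sub, map_mul, map_mul]
        linear_combination algebraMap ℂ L (p k) * hz1' - algebraMap ℂ L (p j) * hz2'
      apply hcn
      rw [h3]
      exact add_mem (hO _) (sub_mem (mul_mem (mem_of_nonunit O hz1) (hO _))
        (mul_mem (mem_of_nonunit O hz2) (hO _)))
  have hgn : g ∈ O.nonunits := by
    rw [hgη]
    exact mul_nonunit O ht hηO
  -- conclusion
  have hfin := hglob K L N M O hO ξ hint u huO p hu2 τ (fun κ _ _ q hq1 => by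
    obtain ⟨hqpt, hgraph, hpq⟩ := res_point hlam hxξ hs0 hyu hp.1 hP hP1 hq1
    obtain ⟨⟨d, F, hF, hyF, k0, hk0⟩, e, s, B, A, w, hB, hBq, hA, hw, hsum⟩ :=
      h2 κ q hqpt hgraph hpq
    have hpk0 : p k0 ≠ 0 := by
      intro h0
      apply hp.1
      funext l
      have h3 := hpq d F hF hyF k0 l
      rw [h0, map_zero, mul_zero] at h3
      have h4 := (mul_eq_zero.1 h3).resolve_left hk0
      rw [map_eq_zero] at h4
      exact h4
    have hs0K : algebraMap L K s0 ≠ 0 := by
      rw [Ne, map_eq_zero]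
      exact hs0
    have hrel : ∀ i l, algebraMap L K (u i) * aeval ξ (F l) =
        algebraMap L K (u l) * aeval ξ (F i) := by
      intro i l
      have h3 := hyF i l
      rw [hxξ, hyu, smul_form (hF l), smul_form (hF i)] at h3
      simp only [map_mul] at h3
      apply mul_left_cancel₀ (mul_ne_zero hs0K (pow_ne_zero d hlam))
      linear_combination h3
    have huk0 : u k0 ∉ O.nonunits := by
      have h3 := unit_add O hO hpk0 (hu2 k0)
      rwa [add_sub_cancel] at h3
    have huk0' : u k0 ≠ 0 := fun h => huk0 (by rw [h]; exact zero_mem _)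
    have huk0K : algebraMap L K (u k0) ≠ 0 := by
      rw [Ne, map_eq_zero]
      exact huk0'
    have hAq : aeval ξ (C (p k) * F j - C (p j) * F k) =
        algebraMap L K (g * (u k0)⁻¹) * aeval ξ (F k0) := by
      have h3 := hrel k0 j
      have h4 := hrel k0 k
      rw [map_sub, map_mul, map_mul, aeval_C, aeval_C, hg, map_mul, map_inv₀, map_sub, map_mul,
        map_mul, ← IsScalarTower.algebraMap_apply ℂ L K, ← IsScalarTower.algebraMap_apply ℂ L K]
      field_simp
      linear_combination algebraMap ℂ K (p k) * h3 - algebraMap ℂ K (p j) * h4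
    have hτA : ∀ c z : K, τ (aeval ξ (C (p k) * F j - C (p j) * F k) * c * z) =
        g * (u k0)⁻¹ * τ (aeval ξ (F k0) * c * z) := by
      intro c z
      have h3 : aeval ξ (C (p k) * F j - C (p j) * F k) * c * z =
          (g * (u k0)⁻¹) • (aeval ξ (F k0) * c * z) := by
        rw [hAq, Algebra.smul_def]
        ring
      rw [h3, map_smul, smul_eq_mul]
    have hA2 := hlo (C (p k) * F j - C (p j) * F k) (by
      rw [mem_JJ]
      intro c hc z hz
      rw [hτA, mem_sc_one]
      have h3 := hin _ (mul_mem (aeval_mem O hO ξ (F k0)) hc) z hz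
      exact mul_nonunit O (mul_nonunit O hgn (unit_inv_mem O huk0)) h3)
    rw [mem_JJ] at hA2
    have hFn : ∀ c ∈ Algebra.adjoin O (Set.range ξ), ∀ z ∈ S,
        τ (aeval ξ (F k0) * c * z) ∈ O.nonunits := by
      intro c hc z hz
      obtain ⟨z', hz', h3⟩ := hA2 c hc z hz
      rw [hτA, hgη] at h3
      have h4 : τ (aeval ξ (F k0) * c * z) = z' * (u k0 * η⁻¹) := by
        apply mul_left_cancel₀ (mul_ne_zero ht0 (mul_ne_zero hη0 (inv_ne_zero huk0')))
        rw [show t * (η * (u k0)⁻¹) * τ (aeval ξ (F k0) * c * z) =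
          t * η * (u k0)⁻¹ * τ (aeval ξ (F k0) * c * z) by ring, h3]
        field_simp
      rw [h4]
      exact mul_nonunit O hz' (mul_mem (huO k0) hηi)
    refine ⟨F k0 * B, ?_, fun c' hc' => ?_⟩
    · rw [map_mul]
      exact mul_ne_zero hk0 hBq
    · have h5 : aeval ξ B = ∑ i, aeval ξ (A i) * (lam ^ m * (w i / algebraMap L K u0)) := by
        have h6 := hsum
        rw [hxξ, smul_form hB] at h6
        have h3 : ∀ i, aeval (fun j => lam * ξ j) (A i) * w i =
            lam ^ e * algebraMap L K u0 * (aeval ξ (A i) *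
              (lam ^ m * (w i / algebraMap L K u0))) := by
          intro i
          rw [smul_form (hA i), pow_add]
          field_simp
        rw [Finset.sum_congr rfl fun i _ => h3 i, ← Finset.mul_sum] at h6
        have h4 : lam ^ e * algebraMap L K u0 ≠ 0 := mul_ne_zero (pow_ne_zero _ hlam) hu0K
        apply mul_left_cancel₀ h4
        rw [← h6]
        ring
      have h6 : aeval ξ (F k0 * B) * c' = ∑ i, aeval ξ (F k0) * (aeval ξ (A i) * c') *
          (lam ^ m * (w i / algebraMap L K u0)) := by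
        rw [map_mul, h5, Finset.mul_sum, Finset.sum_mul]
        refine Finset.sum_congr rfl fun i _ => ?_
        ring
      rw [h6, map_sum]
      refine sum_mem fun i _ => hFn _ (mul_mem (aeval_mem O hO ξ (A i)) hc') _ ?_
      rw [hS]
      exact ⟨w i, hw i, rfl⟩)
  rw [hτa] at hfin
  have h3 : Algebra.trace L K 1 = algebraMap ℂ L (Module.finrank L K) := by
    have h4 := Algebra.trace_algebraMap (R := L) (S := K) (1 : L)
    rw [map_one] at h4
    rw [h4, nsmul_eq_mul, mul_one, map_natCast]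
  have h4 : (Module.finrank L K : ℂ) ≠ 0 := by
    exact_mod_cast (Module.finrank_pos (R := L) (M := K)).ne'
  apply h4
  apply const_nonunit O hO
  have h5 := mul_nonunit O hfin hεO
  rw [h3] at h5
  have h6 : ε⁻¹ * algebraMap ℂ L (finrank L K : ℂ) * ε = algebraMap ℂ L (finrank L K : ℂ) := by
    field_simp
  rwa [h6] at h5

end

end Pool.Agent.H90.VA
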