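import Pool.Agent.H90.VA.DStm
import Pool.Agent.H90.VA.Tan

/-!
The algebraic core for coverings with a `Good` coordinate system.
-/

set_option autoImplicit false
set_option linter.unusedSectionVars false
set_option linter.overlappingInstances false

namespace Pool.Agent.H90.VA

open Module MvPolynomial

section

variable {K L : Type} [Field K] [Algebra ℂ K] [Field L] [Algebra ℂ L] [Algebra L K]
  [IsScalarTower ℂ L K] [FiniteDimensional L K] {N M : ℕ}

/-- the coordinates `x` are good in degree `r` over all valuation rings of `L` -/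
def Good (L : Type) {K : Type} [Field K] [Algebra ℂ K] [Field L] [Algebra ℂ L] [Algebra L K]
    [IsScalarTower ℂ L K] [FiniteDimensional L K] {N : ℕ} (x : Fin N → K) (r : ℕ) : Prop :=
  ∀ (O : ValuationSubring L) [Algebra O K] [IsScalarTower O L K]
    (hO : ∀ a : ℂ, algebraMap ℂ L a ∈ O),
    ∃ (lam : K) (ξ : Fin N → K) (P : MvPolynomial (Fin N) ℂ), lam ≠ 0 ∧
      (x = fun j => lam * ξ j) ∧ (∀ j, IsIntegral O (ξ j)) ∧ P.IsHomogeneous 1 ∧
      aeval ξ P = 1 ∧ (∀ T, r ≤ T → Filt O ξ T) ∧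
      ∀ (T m : ℕ), r ≤ T → r + 1 + T = m →
        ∀ (S : Set K) (τ : K →ₗ[L] L) (M : Submodule O L), (∀ z ∈ M, z ∈ O.nonunits) →
        (∀ f : Fin m → Fin N, ∀ s ∈ S, ∃ a : ℂ,
          τ ((∏ k, ξ (f k)) * s) - algebraMap ℂ L a ∈ M) →
        ∀ F : MvPolynomial (Fin N) ℂ, F.IsHomogeneous (r + 1) →
          ∃ g : MvPolynomial (Fin N) ℂ, g.IsHomogeneous r ∧ F - P * g ∈ JJ O hO ξ S τ M

theorem spread (O : ValuationSubring L) [Algebra O K] [IsScalarTower O L K] (ξ : Fin N → K)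
    {T : ℕ} (hd : Filt O ξ T) (M : Submodule O L) (τ : K →ₗ[L] L) (z : K)
    (hτ : ∀ f : Fin T → Fin N, τ ((∏ k, ξ (f k)) * z) ∈ M) (c : K)
    (hc : c ∈ Algebra.adjoin O (Set.range ξ)) : τ (c * z) ∈ M := by
  have h2 : c ∈ (Submodule.span O (Set.range ξ)) ^ T := hd hc
  rw [Submodule.span_pow] at h2
  refine Submodule.span_induction (p := fun c _ => τ (c * z) ∈ M) ?_ ?_ ?_ ?_ h2
  · intro c hc
    obtain ⟨f, hf⟩ := Set.mem_pow.1 hc
    choose g hg using fun k => (f k).2
    have h3 := hτ g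
    have h4 : ∏ k, ξ (g k) = c := by
      rw [← hf, List.prod_ofFn]
      exact Finset.prod_congr rfl fun k _ => hg k
    rwa [h4] at h3
  · rw [zero_mul, map_zero]
    exact zero_mem _
  · intro a b _ _ ha hb
    rw [add_mul, map_add]
    exact add_mem ha hb
  · intro a b _ hb
    rw [smul_mul_assoc, ← algebraMap_smul L a (b * z), map_smul]
    rw [algebraMap_smul]
    exact M.smul_mem a hb

/-- **Traces generate.** -/
theorem coreG (hglob : S_GLOB) {x : Fin N → K} {y : Fin M → L} {r m : ℕ}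
    (hgood : Good L x r) (hrm : r ≤ m)
    {p : Fin M → ℂ} (hp : IsPoint y p) {u0 : L} (hu0 : u0 ≠ 0) (S0 : Set K)
    (h1 : ∀ s ∈ S0, ∀ f : Fin m → Fin N,
      Reg y p u0 (Algebra.trace L K ((∏ k, x (f k)) * s)))
    (h2 : ∀ (κ : Type) [Field κ] [Algebra ℂ κ] (q : Fin N → κ), IsPoint x q →
      InGraph x y q p →
      (∀ (d : ℕ) (F : Fin M → MvPolynomial (Fin N) ℂ), (∀ j, (F j).IsHomogeneous d) →
        (∀ j k, algebraMap L K (y j) * MvPolynomial.aeval x (F k) =
          algebraMap L K (y k) * MvPolynomial.aeval x (F j)) →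
        ∀ j k, MvPolynomial.aeval q (F j) * algebraMap ℂ κ (p k) =
          MvPolynomial.aeval q (F k) * algebraMap ℂ κ (p j)) →
      ∃ (e s : ℕ) (B : MvPolynomial (Fin N) ℂ) (A : Fin s → MvPolynomial (Fin N) ℂ)
        (w : Fin s → K), B.IsHomogeneous e ∧ MvPolynomial.aeval q B ≠ 0 ∧
        (∀ i, (A i).IsHomogeneous (e + m)) ∧ (∀ i, w i ∈ S0) ∧
        MvPolynomial.aeval x B * algebraMap L K u0 = ∑ i, MvPolynomial.aeval x (A i) * w i) :
    ∃ s ∈ S0, ∃ (f : Fin m → Fin N) (e : ℕ) (A B : MvPolynomial (Fin M) ℂ),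
      A.IsHomogeneous e ∧ B.IsHomogeneous e ∧ MvPolynomial.aeval p B ≠ 0 ∧
      MvPolynomial.aeval p A ≠ 0 ∧
      MvPolynomial.aeval y B * Algebra.trace L K ((∏ k, x (f k)) * s) =
        MvPolynomial.aeval y A * u0 := by
  classical
  by_contra hcon
  have hu0K : algebraMap L K u0 ≠ 0 := by
    rw [Ne, map_eq_zero]
    exact hu0
  obtain ⟨O, s0, hO, hs0, hu⟩ := exists_val_pt hp
  obtain ⟨u, hudef⟩ : ∃ u : Fin M → L, u = fun j => y j / s0 := ⟨_, rfl⟩
  have hyu : y = fun j => s0 * u j := by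
    funext j
    rw [hudef]
    exact (mul_div_cancel₀ _ hs0).symm
  have hu2 : ∀ j, u j - algebraMap ℂ L (p j) ∈ O.nonunits := by
    intro j
    rw [hudef]
    exact hu j
  have huO : ∀ j, u j ∈ O := by
    intro j
    have h3 := add_mem (mem_of_nonunit O (hu2 j)) (hO (p j))
    rwa [sub_add_cancel] at h3
  let _ : Algebra O K := ((algebraMap L K).comp (algebraMap O L)).toAlgebra
  have _ : IsScalarTower O L K := IsScalarTower.of_algebraMap_eq fun _ => rfl
  obtain ⟨lam, ξ, P, hlam, hxξ, hint, hP, hP1, hfilt, -⟩ := hgood O hO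
  obtain ⟨τ, hτ⟩ : ∃ τ : K →ₗ[L] L, τ = Algebra.trace L K := ⟨_, rfl⟩
  obtain ⟨S, hS⟩ : ∃ S : Set K, S = {z | ∃ w ∈ S0, z = lam ^ m * (w / algebraMap L K u0)} :=
    ⟨_, rfl⟩
  have hres : ∀ (G : MvPolynomial (Fin N) ℂ) (_ : G.IsHomogeneous m) (w : K),
      τ (aeval ξ G * (lam ^ m * (w / algebraMap L K u0))) = τ (aeval x G * w) / u0 := by
    intro G hG w
    have h3 : aeval ξ G * (lam ^ m * (w / algebraMap L K u0)) = u0⁻¹ • (aeval x G * w) := by
      rw [Algebra.smul_def, map_inv₀]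
      conv_rhs => rw [hxξ, smul_form hG]
      field_simp
    rw [h3, map_smul, smul_eq_mul]
    field_simp
  have hval : ∀ f : Fin m → Fin N, ∀ z ∈ S, τ ((∏ k, ξ (f k)) * z) ∈ sc O 1 := by
    intro f z hz
    rw [hS] at hz
    obtain ⟨w, hw, rfl⟩ := hz
    obtain ⟨e, A, B, hA, hB, hBp, hAB⟩ := h1 w hw f
    rw [mem_sc_one]
    have h2 := quo0 O hO hs0 hu hA hB hBp hu0 hAB
    have h3 := hres _ (prodX_hom f) w
    simp only [map_prod, aeval_X] at h3
    have hAp : aeval p A = 0 := by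
      by_contra hAp
      exact hcon ⟨w, hw, f, e, A, B, hA, hB, hBp, hAp, hAB⟩
    rw [hAp, zero_div, map_zero, sub_zero] at h2
    rw [h3, hτ]
    exact h2
  have hall : ∀ c ∈ Algebra.adjoin O (Set.range ξ), ∀ z ∈ S, τ (c * z) ∈ O.nonunits := by
    intro c hc z hz
    have h3 := spread O ξ (hfilt m hrm) (sc O 1) τ z (fun f => hval f z hz) c hc
    rwa [mem_sc_one] at h3
  have hfin := hglob K L N M O hO ξ hint u huO p hu2 τ (fun κ _ _ q hq1 => by
    obtain ⟨hqpt, hgraph, hpq⟩ := res_point hlam hxξ hs0 hyu hp.1 hP hP1 hq1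
    obtain ⟨e, s, B, A, w, hB, hBq, hA, hw, hsum⟩ := h2 κ q hqpt hgraph hpq
    refine ⟨B, hBq, fun c' hc' => ?_⟩
    have h5 : aeval ξ B = ∑ i, aeval ξ (A i) * (lam ^ m * (w i / algebraMap L K u0)) := by
      have h6 := hsum
      rw [hxξ, smul_form hB] at h6
      have h3 : ∀ i, aeval (fun j => lam * ξ j) (A i) * w i =
          lam ^ e * algebraMap L K u0 * (aeval ξ (A i) *
            (lam ^ m * (w i / algebraMap L K u0))) := by
        intro i
        rw [smul_form (hA i), pow_add]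
        field_simp
      rw [Finset.sum_congr rfl fun i _ => h3 i, ← Finset.mul_sum] at h6
      have h4 : lam ^ e * algebraMap L K u0 ≠ 0 := mul_ne_zero (pow_ne_zero _ hlam) hu0K
      apply mul_left_cancel₀ h4
      rw [← h6]
      ring
    have h6 : aeval ξ B * c' = ∑ i, (aeval ξ (A i) * c') *
        (lam ^ m * (w i / algebraMap L K u0)) := by
      rw [h5, Finset.sum_mul]
      refine Finset.sum_congr rfl fun i _ => ?_
      ring
    rw [h6, map_sum]
    refine sum_mem fun i _ => hall _ (mul_mem (aeval_mem O hO ξ (A i)) hc') _ ?_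
    rw [hS]
    exact ⟨w i, hw i, rfl⟩)
  rw [hτ] at hfin
  have h3 : Algebra.trace L K 1 = algebraMap ℂ L (Module.finrank L K) := by
    have h4 := Algebra.trace_algebraMap (R := L) (S := K) (1 : L)
    rw [map_one] at h4
    rw [h4, nsmul_eq_mul, mul_one, map_natCast]
  have h4 : (Module.finrank L K : ℂ) ≠ 0 := by
    exact_mod_cast (Module.finrank_pos (R := L) (M := K)).ne'
  apply h4
  apply const_nonunit O hO
  rwa [h3] at hfin

/-- **The forms which vanish on the fibre over a point.** -/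
theorem pt1G (hspan : S_SPAN) (hvan : S_VAN)
    {x : Fin N → K} {y : Fin M → L} {r T m : ℕ} (hgood : Good L x r)
    (hrT : r ≤ T) (hm : r + 1 + T = m) {p : Fin M → ℂ} (hp : IsPoint y p)
    {u0 : L} (hu0 : u0 ≠ 0) (S0 : Set K)
    (h1 : ∀ s ∈ S0, ∀ f : Fin m → Fin N,
      Reg y p u0 (Algebra.trace L K ((∏ k, x (f k)) * s))) :
    ∃ H : Set (MvPolynomial (Fin N) ℂ), (∀ h ∈ H, h.IsHomogeneous (r + 1)) ∧
      (∀ h ∈ H, ∀ s ∈ S0, ∀ G : MvPolynomial (Fin N) ℂ, G.IsHomogeneous T →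
        Van y p u0 (Algebra.trace L K (aeval x (G * h) * s))) ∧
      ∀ (κ : Type) [Field κ] [Algebra ℂ κ] (q : Fin N → κ), q ≠ 0 →
        ∀ (d : ℕ) (F : Fin M → MvPolynomial (Fin N) ℂ), (∀ j, (F j).IsHomogeneous d) →
        (∀ j k, algebraMap L K (y j) * aeval x (F k) = algebraMap L K (y k) * aeval x (F j)) →
        (¬ ∀ j k, aeval q (F j) * algebraMap ℂ κ (p k) = aeval q (F k) * algebraMap ℂ κ (p j)) →
        ∃ h ∈ H, aeval q h ≠ 0 := by
  classical
  obtain ⟨O, s0, hO, hs0, hu⟩ := exists_val_pt hp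
  let _ : Algebra O K := ((algebraMap L K).comp (algebraMap O L)).toAlgebra
  have _ : IsScalarTower O L K := IsScalarTower.of_algebraMap_eq fun _ => rfl
  obtain ⟨lam, ξ, P, hlam, hxξ, hint, hP, hP1, hfilt, hstG⟩ := hgood O hO
  obtain ⟨τ, hτ⟩ : ∃ τ : K →ₗ[L] L, τ = Algebra.trace L K := ⟨_, rfl⟩
  obtain ⟨S, hS⟩ : ∃ S : Set K, S = {z | ∃ w ∈ S0, z = lam ^ m * (w / algebraMap L K u0)} :=
    ⟨_, rfl⟩
  have hu0K : algebraMap L K u0 ≠ 0 := by
    rw [Ne, map_eq_zero]
    exact hu0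
  have hres : ∀ (G : MvPolynomial (Fin N) ℂ) (_ : G.IsHomogeneous m) (w : K),
      τ (aeval ξ G * (lam ^ m * (w / algebraMap L K u0))) = τ (aeval x G * w) / u0 := by
    intro G hG w
    have h3 : aeval ξ G * (lam ^ m * (w / algebraMap L K u0)) = u0⁻¹ • (aeval x G * w) := by
      rw [Algebra.smul_def, map_inv₀]
      conv_rhs => rw [hxξ, smul_form hG]
      field_simp
    rw [h3, map_smul, smul_eq_mul]
    field_simp
  have hval : ∀ f : Fin m → Fin N, ∀ z ∈ S, ∃ a : ℂ,
      τ ((∏ k, ξ (f k)) * z) - algebraMap ℂ L a ∈ sc O 1 := by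
    intro f z hz
    rw [hS] at hz
    obtain ⟨w, hw, rfl⟩ := hz
    obtain ⟨e, A, B, hA, hB, hBp, hAB⟩ := h1 w hw f
    refine ⟨aeval p A / aeval p B, ?_⟩
    rw [mem_sc_one]
    have h2 := quo0 O hO hs0 hu hA hB hBp hu0 hAB
    have h3 := hres _ (prodX_hom f) w
    simp only [map_prod, aeval_X] at h3
    rw [h3, hτ]
    exact h2
  obtain ⟨J, hJ⟩ : ∃ J : Ideal (MvPolynomial (Fin N) ℂ), J = JJ O hO ξ S τ (sc O 1) := ⟨_, rfl⟩
  have hPJ : P - 1 ∈ J := by
    rw [hJ, mem_JJ]
    intro c _ s _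
    rw [map_sub, hP1, map_one, sub_self, zero_mul, zero_mul, map_zero]
    exact zero_mem _
  have hst : ∀ F : MvPolynomial (Fin N) ℂ, F.IsHomogeneous (r + 1) →
      ∃ g : MvPolynomial (Fin N) ℂ, g.IsHomogeneous r ∧ F - P * g ∈ J := by
    intro F hF
    rw [hJ]
    exact hstG T m hrT hm S τ (sc O 1) (fun z hz => (mem_sc_one O).1 hz) hval F hF
  have hdm : r ≤ m := by omega
  refine ⟨{h | h ∈ J ∧ h.IsHomogeneous (r + 1)}, fun h hh => hh.2, ?_, ?_⟩
  · rintro h ⟨hhJ, hhh⟩ s hs G hG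
    have hGh : (G * h).IsHomogeneous m := by
      have h3 := hG.mul hhh
      rwa [show T + (r + 1) = m by omega] at h3
    obtain ⟨e, A, B, hA, hB, hBp, hAB⟩ := form_closed hspan (Reg y p u0) reg_zero
      (fun a b => reg_add) (fun a b => reg_smul a) (Algebra.trace L K) (h1 s hs) (G * h) hGh
    refine ⟨e, A, B, hA, hB, hBp, ?_, hAB⟩
    have h2 := quo0 O hO hs0 hu hA hB hBp hu0 hAB
    have h3 := hres _ hGh s
    rw [hJ, mem_JJ] at hhJ
    have h4 := hhJ (aeval ξ G) (aeval_mem O hO ξ G) (lam ^ m * (s / algebraMap L K u0)) (by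
      rw [hS]
      exact ⟨s, hs, rfl⟩)
    rw [show aeval ξ h * aeval ξ G = aeval ξ (G * h) by rw [map_mul, mul_comm], h3, mem_sc_one,
      hτ] at h4
    have h5 := sub_mem h4 h2
    rw [sub_sub_cancel] at h5
    have h6 := const_nonunit O hO h5
    exact (div_eq_zero_iff.1 h6).resolve_right hBp
  · intro κ _ _ q hq d F hF hrel hne
    by_contra hcon
    push Not at hcon
    apply hne
    intro j k
    have h2 := hvan N r J P hP hPJ hst κ q hq (fun F hF hF' => hcon F ⟨hF, hF'⟩) d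
      (C (p k) * F j - C (p j) * F k) (by
        rw [hJ, mem_JJ]
        intro c hc z hz
        have hin : ∀ i, τ (aeval ξ (F i) * c * z) ∈ O := by
          intro i
          have h3 := spread O ξ (hfilt m hdm) (1 : Submodule O L) τ z (fun f => by
            obtain ⟨a, ha⟩ := hval f z hz
            rw [mem_sc_one] at ha
            have h4 := add_mem (mem_of_nonunit O ha) (hO a)
            rw [sub_add_cancel] at h4
            exact Submodule.mem_one.2 ⟨⟨_, h4⟩, rfl⟩) (aeval ξ (F i) * c)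
              (mul_mem (aeval_mem O hO ξ (F i)) hc)
          obtain ⟨b, hb⟩ := Submodule.mem_one.1 h3
          rw [← hb]
          exact b.2
        have h5 : aeval ξ (C (p k) * F j - C (p j) * F k) * c * z =
            (y j / s0 - algebraMap ℂ L (p j)) • (aeval ξ (F k) * c * z) -
            (y k / s0 - algebraMap ℂ L (p k)) • (aeval ξ (F j) * c * z) := by
          have h6 := hrel j k
          rw [hxξ, smul_form (hF k), smul_form (hF j)] at h6
          have h7 : algebraMap L K (y j) * aeval ξ (F k) = algebraMap L K (y k) * aeval ξ (F j) := by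
            apply mul_left_cancel₀ (pow_ne_zero d hlam)
            linear_combination h6
          have hs0K : algebraMap L K s0 ≠ 0 := by
            rw [Ne, map_eq_zero]
            exact hs0
          rw [map_sub, map_mul, map_mul, aeval_C, aeval_C, Algebra.smul_def, Algebra.smul_def,
            map_sub, map_sub, map_div₀, map_div₀, ← IsScalarTower.algebraMap_apply ℂ L K,
            ← IsScalarTower.algebraMap_apply ℂ L K]
          field_simp
          linear_combination (-(c * z)) * h7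
        rw [h5, map_sub, map_smul, map_smul, smul_eq_mul, smul_eq_mul, mem_sc_one]
        exact sub_mem (mul_nonunit O (hu j) (hin k)) (mul_nonunit O (hu k) (hin j))) (by
        refine IsHomogeneous.sub ?_ ?_
        · simpa using (isHomogeneous_C (Fin N) (p k)).mul (hF j)
        · simpa using (isHomogeneous_C (Fin N) (p j)).mul (hF k))
    rw [map_sub, map_mul, map_mul, aeval_C, aeval_C] at h2
    linear_combination h2

/-- **Separation of several points.** -/
theorem core_ptsG (hglob : S_GLOB) (hspan : S_SPAN) (hvan : S_VAN)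
    {x : Fin N → K} {y : Fin M → L} {r T m k : ℕ} (hgood : Good L x r)
    (hrT : r ≤ T) (hm : k * (r + 1) + T = m) {p : Fin M → ℂ} (hp : IsPoint y p)
    {u0 : L} (hu0 : u0 ≠ 0) {p' : Fin k → Fin M → ℂ} (hp' : ∀ i, IsPoint y (p' i))
    {u' : Fin k → L} (hu' : ∀ i, u' i ≠ 0) (hne : ∀ i, ∃ j l, p j * p' i l ≠ p l * p' i j)
    (S0 : Set K)
    (h1 : ∀ s ∈ S0, ∀ f : Fin m → Fin N,
      Reg y p u0 (Algebra.trace L K ((∏ k, x (f k)) * s)))
    (h1' : ∀ i, ∀ s ∈ S0, ∀ f : Fin m → Fin N,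
      Reg y (p' i) (u' i) (Algebra.trace L K ((∏ k, x (f k)) * s)))
    (h2 : ∀ (κ : Type) [Field κ] [Algebra ℂ κ] (q : Fin N → κ), IsPoint x q →
      InGraph x y q p →
      (∀ (d : ℕ) (F : Fin M → MvPolynomial (Fin N) ℂ), (∀ j, (F j).IsHomogeneous d) →
        (∀ j k, algebraMap L K (y j) * MvPolynomial.aeval x (F k) =
          algebraMap L K (y k) * MvPolynomial.aeval x (F j)) →
        ∀ j k, MvPolynomial.aeval q (F j) * algebraMap ℂ κ (p k) =
          MvPolynomial.aeval q (F k) * algebraMap ℂ κ (p j)) →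
      Defined x y q ∧
      ∃ (e s : ℕ) (B : MvPolynomial (Fin N) ℂ) (A : Fin s → MvPolynomial (Fin N) ℂ)
        (w : Fin s → K), B.IsHomogeneous e ∧ MvPolynomial.aeval q B ≠ 0 ∧
        (∀ i, (A i).IsHomogeneous (e + m)) ∧ (∀ i, w i ∈ S0) ∧
        MvPolynomial.aeval x B * algebraMap L K u0 = ∑ i, MvPolynomial.aeval x (A i) * w i) :
    ∃ G : MvPolynomial (Fin N) ℂ, G.IsHomogeneous m ∧ ∃ s ∈ S0,
      (∃ (e : ℕ) (A B : MvPolynomial (Fin M) ℂ), A.IsHomogeneous e ∧ B.IsHomogeneous e ∧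
        aeval p B ≠ 0 ∧ aeval p A ≠ 0 ∧
        aeval y B * Algebra.trace L K (aeval x G * s) = aeval y A * u0) ∧
      ∀ i, Van y (p' i) (u' i) (Algebra.trace L K (aeval x G * s)) := by
  classical
  have hH : ∀ i : Fin k, ∃ H : Set (MvPolynomial (Fin N) ℂ), (∀ h ∈ H, h.IsHomogeneous (r + 1)) ∧
      (∀ h ∈ H, ∀ s ∈ S0, ∀ G : MvPolynomial (Fin N) ℂ, G.IsHomogeneous ((k - 1) * (r + 1) + T) →
        Van y (p' i) (u' i) (Algebra.trace L K (aeval x (G * h) * s))) ∧
      ∀ (κ : Type) [Field κ] [Algebra ℂ κ] (q : Fin N → κ), q ≠ 0 →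
        ∀ (d : ℕ) (F : Fin M → MvPolynomial (Fin N) ℂ), (∀ j, (F j).IsHomogeneous d) →
        (∀ j k, algebraMap L K (y j) * aeval x (F k) = algebraMap L K (y k) * aeval x (F j)) →
        (¬ ∀ j k, aeval q (F j) * algebraMap ℂ κ (p' i k) =
          aeval q (F k) * algebraMap ℂ κ (p' i j)) →
        ∃ h ∈ H, aeval q h ≠ 0 := by
    intro i
    obtain ⟨k', hk'⟩ : ∃ k', k = k' + 1 := ⟨k - 1, by have := i.2; omega⟩
    have hk2 : k - 1 = k' := by omega
    refine pt1G hspan hvan hgood (T := (k - 1) * (r + 1) + T) ?_ ?_ (hp' i)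
      (hu' i) S0 (h1' i)
    · have : 0 ≤ (k - 1) * (r + 1) := Nat.zero_le _
      omega
    · rw [hk2, ← hm, hk']
      ring
  choose H hH1 hH2 hH3 using hH
  obtain ⟨S1, hS1⟩ : ∃ S1 : Set K, S1 = {z | ∃ h : Fin k → MvPolynomial (Fin N) ℂ,
      (∀ i, h i ∈ H i) ∧ ∃ s ∈ S0, z = aeval x (∏ i, h i) * s} := ⟨_, rfl⟩
  have hprod : ∀ h : Fin k → MvPolynomial (Fin N) ℂ, (∀ i, h i ∈ H i) →
      (∏ i, h i).IsHomogeneous (k * (r + 1)) := by
    intro h hh
    have h3 := IsHomogeneous.prod (Finset.univ : Finset (Fin k)) h (fun _ => r + 1)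
      (fun i _ => hH1 i _ (hh i))
    simpa using h3
  have hexp : ∀ (f : Fin T → Fin N) (h : Fin k → MvPolynomial (Fin N) ℂ),
      aeval x ((∏ k, X (f k)) * ∏ i, h i) = (∏ k, x (f k)) * aeval x (∏ i, h i) := by
    intro f h
    rw [map_mul]
    congr 1
    simp [map_prod, aeval_X]
  obtain ⟨z, hz, f, e, A, B, hA, hB, hBp, hAp, hAB⟩ := coreG hglob hgood hrT hp hu0 S1 (fun z hz f => by
      rw [hS1] at hz
      obtain ⟨h, hh, s, hs, rfl⟩ := hz
      have h3 := form_closed hspan (Reg y p u0) reg_zero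
        (fun a b => reg_add) (fun a b => reg_smul a) (Algebra.trace L K) (h1 s hs)
        ((∏ k, X (f k)) * ∏ i, h i) (by
          have h4 := (prodX_hom f).mul (hprod h hh)
          rwa [show T + k * (r + 1) = m by omega] at h4)
      rw [hexp f h, mul_assoc] at h3
      exact h3)
    (fun κ _ _ q hq hgraph hpq => by
      obtain ⟨⟨d, F, hF, hyF, k0, hk0⟩, e, s, B, A, w, hB, hBq, hA, hw, hsum⟩ :=
        h2 κ q hq hgraph hpq
      have hex : ∀ i, ∃ h ∈ H i, aeval q h ≠ 0 := by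
        intro i
        refine hH3 i κ q hq.1 d F hF hyF fun hcon => ?_
        obtain ⟨j, l, hjl⟩ := hne i
        apply hjl
        apply (algebraMap ℂ κ).injective
        rw [map_mul, map_mul]
        apply mul_left_cancel₀ hk0
        have h3 := hpq d F hF hyF
        have h4 := hcon j l
        have h5 := h3 k0 j
        have h6 := h3 k0 l
        linear_combination (algebraMap ℂ κ (p' i l)) * h5 - (algebraMap ℂ κ (p' i j)) * h6 +
          algebraMap ℂ κ (p k0) * h4
      choose h hh hhq using hex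
      refine ⟨k * (r + 1) + e, s, (∏ i, h i) * B, A, fun i => aeval x (∏ i, h i) * w i,
        (hprod h hh).mul hB, ?_, fun i => ?_, fun i => ?_, ?_⟩
      · rw [map_mul, map_prod]
        exact mul_ne_zero (Finset.prod_ne_zero_iff.2 fun i _ => hhq i) hBq
      · have h3 := hA i
        rwa [show e + m = k * (r + 1) + e + T by omega] at h3
      · rw [hS1]
        exact ⟨h, hh, w i, hw i, rfl⟩
      · rw [map_mul, mul_assoc, hsum, Finset.mul_sum]
        refine Finset.sum_congr rfl fun i _ => ?_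
        ring)
  rw [hS1] at hz
  obtain ⟨h, hh, s, hs, rfl⟩ := hz
  refine ⟨(∏ k, X (f k)) * ∏ i, h i, ?_, s, hs, ⟨e, A, B, hA, hB, hBp, hAp, ?_⟩, fun i => ?_⟩
  · have h4 := (prodX_hom f).mul (hprod h hh)
    rwa [show T + k * (r + 1) = m by omega] at h4
  · rw [hexp f h, mul_assoc]
    exact hAB
  · have h5 : ((∏ k, X (f k)) * ∏ i, h i : MvPolynomial (Fin N) ℂ) =
        ((∏ k, X (f k)) * ∏ i' ∈ Finset.univ.erase i, h i') * h i := by
      rw [mul_assoc, Finset.prod_erase_mul _ _ (Finset.mem_univ i)]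
    rw [h5]
    refine hH2 i (h i) (hh i) s hs _ ?_
    have h6 := IsHomogeneous.prod (Finset.univ.erase i : Finset (Fin k)) h (fun _ => r + 1)
      (fun i _ => hH1 i _ (hh i))
    have h7 := (prodX_hom f).mul h6
    rw [Finset.sum_const, Finset.card_erase_of_mem (Finset.mem_univ i), Finset.card_univ,
      Fintype.card_fin, smul_eq_mul, add_comm] at h7
    exact h7

/-- **Separation of tangent directions.** -/
theorem core_tanG (hred : S_RED)
    (hlow : S_LOWB) (hquo : S_QUO) (hglob : S_GLOB) (hblow : S_BLOW)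
    {x : Fin N → K} {y : Fin M → L} {r T m : ℕ} (hgood : Good L x r)
    (hrT : r ≤ T) (hm : r + 1 + T = m) {p : Fin M → ℂ} (hp : IsPoint y p)
    {v : Fin M → ℂ} (hv : Direction y p v) {u0 : L} (hu0 : u0 ≠ 0) (S0 : Set K)
    (h1 : ∀ s ∈ S0, ∀ f : Fin m → Fin N,
      Reg y p u0 (Algebra.trace L K ((∏ k, x (f k)) * s)))
    (h2 : ∀ (κ : Type) [Field κ] [Algebra ℂ κ] (q : Fin N → κ), IsPoint x q →
      InGraph x y q p →
      (∀ (d : ℕ) (F : Fin M → MvPolynomial (Fin N) ℂ), (∀ j, (F j).IsHomogeneous d) →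
        (∀ j k, algebraMap L K (y j) * MvPolynomial.aeval x (F k) =
          algebraMap L K (y k) * MvPolynomial.aeval x (F j)) →
        ∀ j k, MvPolynomial.aeval q (F j) * algebraMap ℂ κ (p k) =
          MvPolynomial.aeval q (F k) * algebraMap ℂ κ (p j)) →
      Defined x y q ∧
      ∃ (e s : ℕ) (B : MvPolynomial (Fin N) ℂ) (A : Fin s → MvPolynomial (Fin N) ℂ)
        (w : Fin s → K), B.IsHomogeneous e ∧ MvPolynomial.aeval q B ≠ 0 ∧
        (∀ i, (A i).IsHomogeneous (e + m)) ∧ (∀ i, w i ∈ S0) ∧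
        MvPolynomial.aeval x B * algebraMap L K u0 = ∑ i, MvPolynomial.aeval x (A i) * w i) :
    ∃ G G' : MvPolynomial (Fin N) ℂ, G.IsHomogeneous m ∧ G'.IsHomogeneous m ∧
      ∃ s ∈ S0, ∃ s' ∈ S0, ∃ (e : ℕ) (A B : MvPolynomial (Fin M) ℂ), A.IsHomogeneous e ∧
        B.IsHomogeneous e ∧ aeval p B ≠ 0 ∧ aeval p A = 0 ∧ dd p v A ≠ 0 ∧
        aeval y B * Algebra.trace L K (aeval x G * s + aeval x G' * s') = aeval y A * u0 := by
  classical
  by_contra hcon
  have hu0K : algebraMap L K u0 ≠ 0 := by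
    rw [Ne, map_eq_zero]
    exact hu0
  -- the valuation ring
  obtain ⟨O, t, s0, hO, ht0, ht, hs0, hu⟩ := hblow L M y p v hp hv
  obtain ⟨u, hudef⟩ : ∃ u : Fin M → L, u = fun j => y j / s0 := ⟨_, rfl⟩
  have hyu : y = fun j => s0 * u j := by
    funext j
    rw [hudef]
    exact (mul_div_cancel₀ _ hs0).symm
  have hu1 : ∀ j, u j - algebraMap ℂ L (p j) - t * algebraMap ℂ L (v j) ∈ sc O t := by
    intro j
    rw [hudef]
    exact hu j
  have htO : t ∈ O := mem_of_nonunit O ht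
  have hsct : ∀ z ∈ sc O t, z ∈ O.nonunits := by
    rintro z ⟨w, hw, rfl⟩
    exact mul_nonunit O ht (mem_of_nonunit O hw)
  have hu2 : ∀ j, u j - algebraMap ℂ L (p j) ∈ O.nonunits := by
    intro j
    have h3 := add_mem (hsct _ (hu1 j)) (mul_nonunit O ht (hO (v j)))
    rwa [sub_add_cancel] at h3
  have huO : ∀ j, u j ∈ O := by
    intro j
    have h3 := add_mem (mem_of_nonunit O (hu2 j)) (hO (p j))
    rwa [sub_add_cancel] at h3
  have hdes : ∀ (e : ℕ) (A B : MvPolynomial (Fin M) ℂ) (w : L), A.IsHomogeneous e →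
      B.IsHomogeneous e → aeval y B * w = aeval y A * u0 → aeval u B * (w / u0) = aeval u A := by
    intro e A B w hA hB hAB
    rw [hyu, smul_form hA, smul_form hB] at hAB
    have h3 : aeval u B * w = aeval u A * u0 :=
      mul_left_cancel₀ (pow_ne_zero e hs0) (by linear_combination hAB)
    rw [← mul_div_assoc, h3, mul_div_cancel_right₀ _ hu0]
  -- coordinates
  let _ : Algebra O K := ((algebraMap L K).comp (algebraMap O L)).toAlgebra
  have _ : IsScalarTower O L K := IsScalarTower.of_algebraMap_eq fun _ => rfl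
  obtain ⟨lam, ξ, P, hlam, hxξ, hint, hP, hP1, hfilt, hstG⟩ := hgood O hO
  -- a generating section
  have hdm : r ≤ m := by omega
  obtain ⟨s1, hs1, f1, e1, A1, B1, hA1, hB1, hB1p, hA1p, hAB1⟩ := coreG hglob hgood hdm hp hu0 S0 h1
    (fun κ _ _ q hq hgraph hpq => (h2 κ q hq hgraph hpq).2)
  obtain ⟨a1, ha1⟩ : ∃ a : ℂ, a = aeval p A1 / aeval p B1 := ⟨_, rfl⟩
  have ha10 : a1 ≠ 0 := by
    rw [ha1]
    exact div_ne_zero hA1p hB1p
  obtain ⟨μ, hμ⟩ : ∃ μ : ℂ, μ = (dd p v A1 * aeval p B1 - aeval p A1 * dd p v B1) /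
      (aeval p B1) ^ 2 / a1 := ⟨_, rfl⟩
  have hval0 : ∀ f : Fin m → Fin N, ∀ w ∈ S0, ∃ a : ℂ,
      Algebra.trace L K ((∏ k, x (f k)) * w) / u0 -
        algebraMap ℂ L a * (1 + t * algebraMap ℂ L μ) ∈ sc O t := by
    intro f w hw
    obtain ⟨e, A, B, hA, hB, hBp, hAB⟩ := h1 w hw f
    refine ⟨aeval p A / aeval p B, ?_⟩
    obtain ⟨c, hc⟩ : ∃ c : ℂ, c = (aeval p A / aeval p B) / a1 := ⟨_, rfl⟩
    have hdd : dd p v (A * B1 + C (-c) * (A1 * B)) = 0 := by
      by_contra hne
      apply hcon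
      refine ⟨∏ k, X (f k), C (-c) * ∏ k, X (f1 k), prodX_hom f, ?_, w, hw, s1, hs1, e + e1,
        A * B1 + C (-c) * (A1 * B), B * B1, (hA.mul hB1).add ?_, hB.mul hB1, ?_, ?_, hne, ?_⟩
      · simpa using (isHomogeneous_C (Fin N) (-c)).mul (prodX_hom f1)
      · rw [add_comm e e1]
        simpa using (isHomogeneous_C (Fin M) (-c)).mul (hA1.mul hB)
      · rw [map_mul]
        exact mul_ne_zero hBp hB1p
      · rw [map_add, map_mul, map_mul, map_mul, aeval_C, Algebra.algebraMap_self_apply, hc, ha1]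
        field_simp
        ring
      · have h3 : aeval x (∏ k, X (f k) : MvPolynomial (Fin N) ℂ) = ∏ k, x (f k) := by
          simp [map_prod, aeval_X]
        have h4 : aeval x (C (-c) * ∏ k, X (f1 k) : MvPolynomial (Fin N) ℂ) * s1 =
            algebraMap ℂ L (-c) • ((∏ k, x (f1 k)) * s1) := by
          rw [Algebra.smul_def, ← IsScalarTower.algebraMap_apply ℂ L K]
          simp only [map_mul, map_prod, aeval_X, aeval_C]
          ring
        rw [h3, h4, map_add, map_smul, smul_eq_mul]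
        simp only [map_mul, map_add, aeval_C]
        linear_combination aeval y B1 * hAB + aeval y B * algebraMap ℂ L (-c) * hAB1
    have h3 := hquo L O hO M u p v t ht hu1 A B _ hBp (hdes e A B _ hA hB hAB)
    have h4 : (dd p v A * aeval p B - aeval p A * dd p v B) / (aeval p B) ^ 2 =
        (aeval p A / aeval p B) * μ := by
      rw [Tay68.dd_add, Tay68.dd_mul, Tay68.dd_mul, Tay68.dd_mul, Tay68.dd_C, zero_mul, zero_add,
        aeval_C, Algebra.algebraMap_self_apply, hc] at hdd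
      rw [hμ]
      rw [ha1] at hdd ⊢
      field_simp at hdd ⊢
      linear_combination hdd
    rw [h4] at h3
    have h5 : Algebra.trace L K ((∏ k, x (f k)) * w) / u0 -
        algebraMap ℂ L (aeval p A / aeval p B) * (1 + t * algebraMap ℂ L μ) =
        Algebra.trace L K ((∏ k, x (f k)) * w) / u0 -
        algebraMap ℂ L (aeval p A / aeval p B) -
        t * algebraMap ℂ L (aeval p A / aeval p B * μ) := by
      rw [map_mul (algebraMap ℂ L) (aeval p A / aeval p B) μ]
      ring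
    rw [h5]
    exact h3
  -- the functional
  obtain ⟨ε, hε⟩ : ∃ ε : L, ε = 1 + t * algebraMap ℂ L μ := ⟨_, rfl⟩
  have hεn : ε ∉ O.nonunits := by
    have h3 := unit_add O hO one_ne_zero (mul_nonunit O ht (hO μ))
    rwa [map_one, ← hε] at h3
  have hεi : ε⁻¹ ∈ O := unit_inv_mem O hεn
  have hε0 : ε ≠ 0 := fun h => hεn (by rw [h]; exact zero_mem _)
  have hεO : ε ∈ O := by
    rw [hε]
    exact add_mem (one_mem _) (mul_mem htO (hO μ))
  rw [← hε] at hval0
  obtain ⟨τ, hτ⟩ : ∃ τ : K →ₗ[L] L, τ = ε⁻¹ • Algebra.trace L K := ⟨_, rfl⟩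
  have hτa : ∀ z, τ z = ε⁻¹ * Algebra.trace L K z := by
    intro z
    rw [hτ, LinearMap.smul_apply, smul_eq_mul]
  obtain ⟨S, hS⟩ : ∃ S : Set K, S = {z | ∃ w ∈ S0, z = lam ^ m * (w / algebraMap L K u0)} :=
    ⟨_, rfl⟩
  have hres : ∀ (G : MvPolynomial (Fin N) ℂ) (_ : G.IsHomogeneous m) (w : K),
      τ (aeval ξ G * (lam ^ m * (w / algebraMap L K u0))) =
        ε⁻¹ * (Algebra.trace L K (aeval x G * w) / u0) := by
    intro G hG w
    have h3 : aeval ξ G * (lam ^ m * (w / algebraMap L K u0)) = u0⁻¹ • (aeval x G * w) := by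
      rw [Algebra.smul_def, map_inv₀]
      conv_rhs => rw [hxξ, smul_form hG]
      field_simp
    rw [h3, map_smul, smul_eq_mul, hτa, div_eq_mul_inv]
    ring
  have hval : ∀ f : Fin m → Fin N, ∀ z ∈ S, ∃ a : ℂ,
      τ ((∏ k, ξ (f k)) * z) - algebraMap ℂ L a ∈ sc O t := by
    intro f z hz
    rw [hS] at hz
    obtain ⟨w, hw, rfl⟩ := hz
    obtain ⟨a, ha⟩ := hval0 f w hw
    refine ⟨a, ?_⟩
    have h3 := hres _ (prodX_hom f) w
    simp only [map_prod, aeval_X] at h3
    rw [h3]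
    have h4 := (sc O t).smul_mem (⟨ε⁻¹, hεi⟩ : O) ha
    have h5 : (⟨ε⁻¹, hεi⟩ : O) • (Algebra.trace L K ((∏ k, x (f k)) * w) / u0 -
        algebraMap ℂ L a * ε) = ε⁻¹ * (Algebra.trace L K ((∏ k, x (f k)) * w) / u0) -
        algebraMap ℂ L a := by
      change ε⁻¹ * (Algebra.trace L K ((∏ k, x (f k)) * w) / u0 - algebraMap ℂ L a * ε) = _
      field_simp
    rwa [h5] at h4
  -- the ideals
  have hPJ : P - 1 ∈ JJ O hO ξ S τ (sc O t) := by
    rw [mem_JJ]
    intro c _ s _
    rw [map_sub, hP1, map_one, sub_self, zero_mul, zero_mul, map_zero]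
    exact zero_mem _
  have hst := hstG T m hrT hm S τ (sc O t) hsct hval
  have hre := hred N r _ P hP hPJ hst
  have hlo := hlow K L N m r (T + 1) O hO ξ (hfilt (T + 1) (by omega)) S τ (sc O t) (by omega)
    hsct hval hre
  have hin : ∀ c ∈ Algebra.adjoin O (Set.range ξ), ∀ z ∈ S, τ (c * z) ∈ O := by
    intro c hc z hz
    have h3 := spread O ξ (hfilt m hdm) (1 : Submodule O L) τ z (fun f => by
      obtain ⟨a, ha⟩ := hval f z hz
      have h4 := add_mem (mem_of_nonunit O (hsct _ ha)) (hO a)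
      rw [sub_add_cancel] at h4
      exact Submodule.mem_one.2 ⟨⟨_, h4⟩, rfl⟩) c hc
    obtain ⟨b, hb⟩ := Submodule.mem_one.1 h3
    rw [← hb]
    exact b.2
  -- the parameter
  obtain ⟨j, k, hjk⟩ : ∃ j k, v j * p k - v k * p j ≠ 0 := by
    by_contra hc
    push Not at hc
    apply hv.1
    funext i
    change p i.1 * (v i.2.1 * p i.2.2 - v i.2.2 * p i.2.1) = 0
    rw [hc, mul_zero]
  obtain ⟨g, hg⟩ : ∃ g : L, g = u j * algebraMap ℂ L (p k) - u k * algebraMap ℂ L (p j) :=
    ⟨_, rfl⟩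
  obtain ⟨η, hη, hgη⟩ : ∃ η : L, η ∉ O.nonunits ∧ g = t * η := by
    obtain ⟨z1, hz1, hz1'⟩ := hu1 j
    obtain ⟨z2, hz2, hz2'⟩ := hu1 k
    refine ⟨algebraMap ℂ L (v j * p k - v k * p j) + (z1 * algebraMap ℂ L (p k) -
      z2 * algebraMap ℂ L (p j)), unit_add O hO hjk
        (sub_mem (mul_nonunit O hz1 (hO _)) (mul_nonunit O hz2 (hO _))), ?_⟩
    rw [hg, map_sub, map_mul, map_mul]
    linear_combination algebraMap ℂ L (p k) * hz1' - algebraMap ℂ L (p j) * hz2'
  have hηi : η⁻¹ ∈ O := unit_inv_mem O hη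
  have hη0 : η ≠ 0 := fun h => hη (by rw [h]; exact zero_mem _)
  have hηO : η ∈ O := by
    rcases O.mem_or_inv_mem η with h | h
    · exact h
    · by_contra hcn
      obtain ⟨z1, hz1, hz1'⟩ := hu1 j
      obtain ⟨z2, hz2, hz2'⟩ := hu1 k
      have h3 : η = algebraMap ℂ L (v j * p k - v k * p j) + (z1 * algebraMap ℂ L (p k) -
          z2 * algebraMap ℂ L (p j)) := by
        apply mul_left_cancel₀ ht0
        rw [← hgη, hg, map_sub, map_mul, map_mul]
        linear_combination algebraMap ℂ L (p k) * hz1' - algebraMap ℂ L (p j) * hz2'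
      apply hcn
      rw [h3]
      exact add_mem (hO _) (sub_mem (mul_mem (mem_of_nonunit O hz1) (hO _))
        (mul_mem (mem_of_nonunit O hz2) (hO _)))
  have hgn : g ∈ O.nonunits := by
    rw [hgη]
    exact mul_nonunit O ht hηO
  -- conclusion
  have hfin := hglob K L N M O hO ξ hint u huO p hu2 τ (fun κ _ _ q hq1 => by
    obtain ⟨hqpt, hgraph, hpq⟩ := res_point hlam hxξ hs0 hyu hp.1 hP hP1 hq1
    obtain ⟨⟨d, F, hF, hyF, k0, hk0⟩, e, s, B, A, w, hB, hBq, hA, hw, hsum⟩ :=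
      h2 κ q hqpt hgraph hpq
    have hpk0 : p k0 ≠ 0 := by
      intro h0
      apply hp.1
      funext l
      have h3 := hpq d F hF hyF k0 l
      rw [h0, map_zero, mul_zero] at h3
      have h4 := (mul_eq_zero.1 h3).resolve_left hk0
      rw [map_eq_zero] at h4
      exact h4
    have hs0K : algebraMap L K s0 ≠ 0 := by
      rw [Ne, map_eq_zero]
      exact hs0
    have hrel : ∀ i l, algebraMap L K (u i) * aeval ξ (F l) =
        algebraMap L K (u l) * aeval ξ (F i) := by
      intro i l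
      have h3 := hyF i l
      rw [hxξ, hyu, smul_form (hF l), smul_form (hF i)] at h3
      simp only [map_mul] at h3
      apply mul_left_cancel₀ (mul_ne_zero hs0K (pow_ne_zero d hlam))
      linear_combination h3
    have huk0 : u k0 ∉ O.nonunits := by
      have h3 := unit_add O hO hpk0 (hu2 k0)
      rwa [add_sub_cancel] at h3
    have huk0' : u k0 ≠ 0 := fun h => huk0 (by rw [h]; exact zero_mem _)
    have huk0K : algebraMap L K (u k0) ≠ 0 := by
      rw [Ne, map_eq_zero]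
      exact huk0'
    have hAq : aeval ξ (C (p k) * F j - C (p j) * F k) =
        algebraMap L K (g * (u k0)⁻¹) * aeval ξ (F k0) := by
      have h3 := hrel k0 j
      have h4 := hrel k0 k
      rw [map_sub, map_mul, map_mul, aeval_C, aeval_C, hg, map_mul, map_inv₀, map_sub, map_mul,
        map_mul, ← IsScalarTower.algebraMap_apply ℂ L K, ← IsScalarTower.algebraMap_apply ℂ L K]
      field_simp
      linear_combination algebraMap ℂ K (p k) * h3 - algebraMap ℂ K (p j) * h4
    have hτA : ∀ c z : K, τ (aeval ξ (C (p k) * F j - C (p j) * F k) * c * z) =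
        g * (u k0)⁻¹ * τ (aeval ξ (F k0) * c * z) := by
      intro c z
      have h3 : aeval ξ (C (p k) * F j - C (p j) * F k) * c * z =
          (g * (u k0)⁻¹) • (aeval ξ (F k0) * c * z) := by
        rw [hAq, Algebra.smul_def]
        ring
      rw [h3, map_smul, smul_eq_mul]
    have hA2 := hlo (C (p k) * F j - C (p j) * F k) (by
      rw [mem_JJ]
      intro c hc z hz
      rw [hτA, mem_sc_one]
      have h3 := hin _ (mul_mem (aeval_mem O hO ξ (F k0)) hc) z hz
      exact mul_nonunit O (mul_nonunit O hgn (unit_inv_mem O huk0)) h3)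
    rw [mem_JJ] at hA2
    have hFn : ∀ c ∈ Algebra.adjoin O (Set.range ξ), ∀ z ∈ S,
        τ (aeval ξ (F k0) * c * z) ∈ O.nonunits := by
      intro c hc z hz
      obtain ⟨z', hz', h3⟩ := hA2 c hc z hz
      rw [hτA, hgη] at h3
      have h4 : τ (aeval ξ (F k0) * c * z) = z' * (u k0 * η⁻¹) := by
        apply mul_left_cancel₀ (mul_ne_zero ht0 (mul_ne_zero hη0 (inv_ne_zero huk0')))
        rw [show t * (η * (u k0)⁻¹) * τ (aeval ξ (F k0) * c * z) =
          t * η * (u k0)⁻¹ * τ (aeval ξ (F k0) * c * z) by ring, h3]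
        field_simp
      rw [h4]
      exact mul_nonunit O hz' (mul_mem (huO k0) hηi)
    refine ⟨F k0 * B, ?_, fun c' hc' => ?_⟩
    · rw [map_mul]
      exact mul_ne_zero hk0 hBq
    · have h5 : aeval ξ B = ∑ i, aeval ξ (A i) * (lam ^ m * (w i / algebraMap L K u0)) := by
        have h6 := hsum
        rw [hxξ, smul_form hB] at h6
        have h3 : ∀ i, aeval (fun j => lam * ξ j) (A i) * w i =
            lam ^ e * algebraMap L K u0 * (aeval ξ (A i) *
              (lam ^ m * (w i / algebraMap L K u0))) := by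
          intro i
          rw [smul_form (hA i), pow_add]
          field_simp
        rw [Finset.sum_congr rfl fun i _ => h3 i, ← Finset.mul_sum] at h6
        have h4 : lam ^ e * algebraMap L K u0 ≠ 0 := mul_ne_zero (pow_ne_zero _ hlam) hu0K
        apply mul_left_cancel₀ h4
        rw [← h6]
        ring
      have h6 : aeval ξ (F k0 * B) * c' = ∑ i, aeval ξ (F k0) * (aeval ξ (A i) * c') *
          (lam ^ m * (w i / algebraMap L K u0)) := by
        rw [map_mul, h5, Finset.mul_sum, Finset.sum_mul]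
        refine Finset.sum_congr rfl fun i _ => ?_
        ring
      rw [h6, map_sum]
      refine sum_mem fun i _ => hFn _ (mul_mem (aeval_mem O hO ξ (A i)) hc') _ ?_
      rw [hS]
      exact ⟨w i, hw i, rfl⟩)
  rw [hτa] at hfin
  have h3 : Algebra.trace L K 1 = algebraMap ℂ L (Module.finrank L K) := by
    have h4 := Algebra.trace_algebraMap (R := L) (S := K) (1 : L)
    rw [map_one] at h4
    rw [h4, nsmul_eq_mul, mul_one, map_natCast]
  have h4 : (Module.finrank L K : ℂ) ≠ 0 := by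
    exact_mod_cast (Module.finrank_pos (R := L) (M := K)).ne'
  apply h4
  apply const_nonunit O hO
  have h5 := mul_nonunit O hfin hεO
  rw [h3] at h5
  have h6 : ε⁻¹ * algebraMap ℂ L (finrank L K : ℂ) * ε = algebraMap ℂ L (finrank L K : ℂ) := by
    field_simp
  rwa [h6] at h5

end

end Pool.Agent.H90.VA
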