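import Pool.Agent.H90.VA.DStm

/-!
DFILT: diagonal coverings, the filtration by the number of factors.
-/

set_option autoImplicit false
set_option linter.unusedSectionVars false
set_option linter.overlappingInstances false

namespace Pool.Agent.H90.VA

open Module

section

variable {R K : Type} [CommRing R] [Field K] [Algebra R K]

theorem dfilt_mono {G : Submodule R K} (hone : (1 : K) ∈ G) : Monotone fun j => G ^ j := by
  refine monotone_nat_of_le_succ fun j x hx => ?_
  change x ∈ G ^ (j + 1)
  rw [pow_succ]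
  have h1 := Submodule.mul_mem_mul hx hone
  rwa [mul_one] at h1

theorem dfilt_prod {G : Submodule R K} {ι : Type} [DecidableEq ι] (s : Finset ι) (a : ι → K)
    (ha : ∀ k ∈ s, a k ∈ G) : ∏ k ∈ s, a k ∈ G ^ s.card := by
  induction s using Finset.induction_on with
  | empty =>
    rw [Finset.prod_empty, Finset.card_empty, pow_zero]
    exact Submodule.one_le.1 le_rfl
  | @insert k s hk ih =>
    rw [Finset.prod_insert hk, mul_comm (a k), Finset.card_insert_of_notMem hk, pow_succ]
    exact Submodule.mul_mem_mul (ih fun j hj => ha j (Finset.mem_insert_of_mem hj))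
      (ha k (Finset.mem_insert_self k s))

/-- if `G ^ (r + 1) ≤ G ^ r` then the algebra generated by `G` is `G ^ r` -/
theorem dfilt_adjoin {N : ℕ} (ξ : Fin N → K) (hone : (1 : K) ∈ Submodule.span R (Set.range ξ))
    {r : ℕ} (hr : (Submodule.span R (Set.range ξ)) ^ (r + 1) ≤
      (Submodule.span R (Set.range ξ)) ^ r) :
    (Algebra.adjoin R (Set.range ξ)).toSubmodule ≤ (Submodule.span R (Set.range ξ)) ^ r := by
  obtain ⟨G, hG⟩ : ∃ G : Submodule R K, G = Submodule.span R (Set.range ξ) := ⟨_, rfl⟩
  rw [← hG] at hone hr ⊢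
  have hmono := dfilt_mono hone
  have hex : ∀ z ∈ Algebra.adjoin R (Set.range ξ), ∃ j, z ∈ G ^ j := by
    intro z hz
    induction hz using Algebra.adjoin_induction with
    | mem x hx =>
      refine ⟨1, ?_⟩
      rw [pow_one, hG]
      exact Submodule.subset_span hx
    | algebraMap r =>
      refine ⟨0, ?_⟩
      rw [pow_zero]
      exact Submodule.mem_one.2 ⟨r, rfl⟩
    | add x y _ _ hx hy =>
      obtain ⟨i, hi⟩ := hx
      obtain ⟨j, hj⟩ := hy
      exact ⟨max i j, add_mem (hmono (le_max_left _ _) hi) (hmono (le_max_right _ _) hj)⟩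
    | mul x y _ _ hx hy =>
      obtain ⟨i, hi⟩ := hx
      obtain ⟨j, hj⟩ := hy
      exact ⟨i + j, by rw [pow_add]; exact Submodule.mul_mem_mul hi hj⟩
  have hall : ∀ j, G ^ j ≤ G ^ r := by
    intro j
    induction j with
    | zero => exact hmono (Nat.zero_le r)
    | succ j ih =>
      refine le_trans ?_ hr
      rw [pow_succ, pow_succ]
      exact Submodule.mul_le.2 fun a ha b hb => Submodule.mul_mem_mul (ih ha) hb
  intro z hz
  obtain ⟨j, hj⟩ := hex z hz
  exact hall j hj

end

theorem dfilt : S_DFILT := by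
  classical
  intro K L _ _ _ _ _ _ _ N r x hx hD O _ _
  obtain ⟨V, hV⟩ := exists_ext (Ω := K) O
  obtain ⟨j0, hj0⟩ : ∃ j, x j ≠ 0 := by
    by_contra hcon
    push Not at hcon
    exact hx (funext hcon)
  have : Nonempty (Fin N) := ⟨j0⟩
  obtain ⟨i, hi⟩ := Finite.exists_max (fun i => V.valuation (x i))
  have hi0 : x i ≠ 0 := by
    intro h0
    have h1 := hi j0
    rw [h0, map_zero, le_zero_iff, map_eq_zero] at h1
    exact hj0 h1
  have hVi : ∀ j, x j / x i ∈ V := by
    intro j
    rw [← V.valuation_le_one_iff, map_div₀]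
    exact div_le_one_of_le₀ (hi j) zero_le
  have hb : ∀ (f : Fin (r + 1) → Fin N) (s : Finset (Fin (r + 1))) (b : L),
      algebraMap L K b = ∏ k ∈ s, (x (f k) / x i) → b ∈ O := by
    intro f s b hb
    rw [← hV, hb]
    exact prod_mem fun k _ => hVi (f k)
  refine ⟨i, hi0, fun j => ?_, fun T hT => ?_⟩
  · obtain ⟨s, hs, b, hbe⟩ := hD i hi0 fun _ => j
    have hbO := hb _ _ _ hbe
    rw [Finset.prod_const] at hbe
    refine IsIntegral.of_pow (Finset.card_pos.mpr hs) ?_
    rw [← hbe]
    have h1 : algebraMap L K b = algebraMap O K ⟨b, hbO⟩ := by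
      rw [IsScalarTower.algebraMap_apply O L K]
      rfl
    rw [h1]
    exact isIntegral_algebraMap
  · have hone : (1 : K) ∈ Submodule.span O (Set.range fun j => x j / x i) := by
      refine Submodule.subset_span ⟨i, ?_⟩
      exact div_self hi0
    have hmono := dfilt_mono hone
    refine (dfilt_adjoin _ hone ?_).trans (hmono hT)
    rw [Submodule.span_pow, Submodule.span_le]
    intro c hc
    obtain ⟨f, hf⟩ := Set.mem_pow.1 hc
    choose g hg using fun k => (f k).2
    have h4 : ∏ k, (x (g k) / x i) = c := by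
      rw [← hf, List.prod_ofFn]
      exact Finset.prod_congr rfl fun k _ => hg k
    obtain ⟨s, hs, b, hbe⟩ := hD i hi0 g
    have hbO := hb _ _ _ hbe
    have h5 : c = (⟨b, hbO⟩ : O) • ∏ k ∈ sᶜ, (x (g k) / x i) := by
      rw [← h4, ← Finset.prod_mul_prod_compl s, ← hbe, Algebra.smul_def,
        IsScalarTower.algebraMap_apply O L K]
      rfl
    rw [h5]
    refine Submodule.smul_mem _ _ ?_
    have h6 := dfilt_prod (G := Submodule.span O (Set.range fun j => x j / x i)) sᶜ
      (fun k => x (g k) / x i) fun k _ => Submodule.subset_span ⟨g k, rfl⟩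
    refine hmono ?_ h6
    rw [Finset.card_compl, Fintype.card_fin]
    have := Finset.card_pos.mpr hs
    omega

end Pool.Agent.H90.VA
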