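import Pool.Agent.H90.VA.DStm

/-!
Project VB, DSTAB: forms of degree `r + 1` modulo `JJ`, diagonal coverings.
-/

set_option autoImplicit false
set_option linter.unusedSectionVars false
set_option linter.overlappingInstances false

namespace Pool.Agent.H90.VA

open Module MvPolynomial

namespace DST

/-- a product of variables is a form -/
theorem prod_X_hom {N : ℕ} {κ : Type} (s : Finset κ) (f : κ → Fin N) :
    (∏ k ∈ s, (X (f k) : MvPolynomial (Fin N) ℂ)).IsHomogeneous s.card := by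
  have := MvPolynomial.IsHomogeneous.prod s (fun k => (X (f k) : MvPolynomial (Fin N) ℂ))
    (fun _ => 1) (fun k _ => isHomogeneous_X ℂ (f k))
  simpa using this

/-- values on forms of degree `m` -/
theorem key {K L : Type} [Field K] [Algebra ℂ K] [Field L] [Algebra ℂ L] [Algebra L K]
    [IsScalarTower ℂ L K] {N m : ℕ} {O : ValuationSubring L}
    (hO : ∀ a : ℂ, algebraMap ℂ L a ∈ O) (ξ : Fin N → K) (τ : K →ₗ[L] L) (M : Submodule O L)
    (s : K) (hval : ∀ f : Fin m → Fin N, ∃ a : ℂ, τ ((∏ k, ξ (f k)) * s) - algebraMap ℂ L a ∈ M)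
    (G : MvPolynomial (Fin N) ℂ) (hG : G.IsHomogeneous m) :
    ∃ a : ℂ, τ (aeval ξ G * s) - algebraMap ℂ L a ∈ M := by
  have h4 := span form N m G hG
  clear hG
  induction h4 using Submodule.span_induction with
  | mem x hx =>
    obtain ⟨f, rfl⟩ := hx
    obtain ⟨a, ha⟩ := hval f
    refine ⟨a, ?_⟩
    simpa [map_prod] using ha
  | zero => exact ⟨0, by simp⟩
  | add x y hx hy h1 h2 =>
    obtain ⟨a, ha⟩ := h1
    obtain ⟨b, hb⟩ := h2
    refine ⟨a + b, ?_⟩
    have h5 : τ (aeval ξ (x + y) * s) - algebraMap ℂ L (a + b) =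
        (τ (aeval ξ x * s) - algebraMap ℂ L a) + (τ (aeval ξ y * s) - algebraMap ℂ L b) := by
      rw [map_add (aeval ξ), add_mul, map_add τ, map_add (algebraMap ℂ L)]
      ring
    rw [h5]
    exact add_mem ha hb
  | smul b x hx h1 =>
    obtain ⟨a, ha⟩ := h1
    refine ⟨b * a, ?_⟩
    have h5 : τ (aeval ξ (b • x) * s) - algebraMap ℂ L (b * a) =
        algebraMap ℂ L b * (τ (aeval ξ x * s) - algebraMap ℂ L a) := by
      have h6 : aeval ξ (b • x) * s = (algebraMap ℂ L b) • (aeval ξ x * s) := by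
        rw [map_smul, smul_mul_assoc, algebraMap_smul]
      rw [h6, LinearMap.map_smul, smul_eq_mul, map_mul (algebraMap ℂ L)]
      ring
    rw [h5]
    exact LOW.smulC hO M b ha

/-- values on monomials of degree `T` determine the values on `O[ξ]` -/
theorem fspr {K L : Type} [Field K] [Field L] [Algebra L K] {N T : ℕ} {O : ValuationSubring L}
    [Algebra O K] [IsScalarTower O L K] (ξ : Fin N → K) (hfilt : Filt O ξ T)
    (M : Submodule O L) (τ : K →ₗ[L] L) (z : K)
    (hτ : ∀ f : Fin T → Fin N, τ ((∏ k, ξ (f k)) * z) ∈ M) :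
    ∀ c ∈ Algebra.adjoin O (Set.range ξ), τ (c * z) ∈ M := by
  intro c hc
  have h2 : c ∈ (Submodule.span O (Set.range ξ)) ^ T := hfilt hc
  rw [Submodule.span_pow] at h2
  refine Submodule.span_induction (p := fun c _ => τ (c * z) ∈ M) ?_ ?_ ?_ ?_ h2
  · intro c hc
    obtain ⟨f, hf⟩ := Set.mem_pow.1 hc
    choose g hg using fun k => (f k).2
    have h3 := hτ g
    have h4 : ∏ k, ξ (g k) = c := by
      rw [← hf, List.prod_ofFn]
      exact Finset.prod_congr rfl fun k _ => hg k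
    rwa [h4] at h3
  · rw [zero_mul, map_zero]
    exact zero_mem _
  · intro a b _ _ ha hb
    rw [add_mul, map_add]
    exact add_mem ha hb
  · intro a b _ hb
    rw [smul_mul_assoc, ← algebraMap_smul L a (b * z), map_smul]
    rw [algebraMap_smul]
    exact M.smul_mem a hb

/-- the claim for monomials -/
theorem mono {K L : Type} [Field K] [Algebra ℂ K] [Field L] [Algebra ℂ L] [Algebra L K]
    [IsScalarTower ℂ L K] {N m r T : ℕ} {O : ValuationSubring L}
    [Algebra O K] [IsScalarTower O L K] (hO : ∀ a : ℂ, algebraMap ℂ L a ∈ O) (ξ : Fin N → K)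
    (i : Fin N) (hi : ξ i = 1) (hint : ∀ j, IsIntegral O (ξ j)) (hfilt : Filt O ξ T)
    (hm : r + 1 + T = m) (S : Set K) (τ : K →ₗ[L] L) (M : Submodule O L)
    (hM : ∀ z ∈ M, z ∈ O.nonunits)
    (hval : ∀ f : Fin m → Fin N, ∀ s ∈ S, ∃ a : ℂ, τ ((∏ k, ξ (f k)) * s) - algebraMap ℂ L a ∈ M)
    (f : Fin (r + 1) → Fin N) (s : Finset (Fin (r + 1))) (hs : s.Nonempty) (b : L)
    (hb : algebraMap L K b = ∏ k ∈ s, ξ (f k)) :
    ∃ g : MvPolynomial (Fin N) ℂ, g.IsHomogeneous r ∧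
      (∏ k, (X (f k) : MvPolynomial (Fin N) ℂ)) - X i * g ∈ JJ O hO ξ S τ M := by
  classical
  -- `b` is in `O`
  have hbint : IsIntegral O b := by
    have h1 : IsIntegral O (algebraMap L K b) := by
      rw [hb]
      exact IsIntegral.prod _ fun k _ => hint (f k)
    exact (isIntegral_algebraMap_iff (algebraMap L K).injective).1 h1
  obtain ⟨β, hβ⟩ : ∃ β : O, algebraMap O L β = b :=
    IsIntegrallyClosed.isIntegral_iff.1 hbint
  obtain ⟨φ, hφ1, hφ2, hφ3⟩ := exists_retr O hO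
  obtain ⟨c, hc⟩ : ∃ c : ℂ, c = φ β := ⟨_, rfl⟩
  obtain ⟨g0, hg0⟩ : ∃ g0 : MvPolynomial (Fin N) ℂ,
    g0 = (∏ k ∈ sᶜ, X (f k)) * X i ^ (s.card - 1) := ⟨_, rfl⟩
  have hcard : sᶜ.card + (s.card - 1) = r := by
    have h1 := Finset.card_compl s
    have h2 := hs.card_pos
    have h3 := s.card_le_univ
    rw [Fintype.card_fin] at h1 h3
    omega
  have hg0h : g0.IsHomogeneous r := by
    rw [← hcard, hg0]
    have h1 := (isHomogeneous_X ℂ i).pow (s.card - 1)
    rw [one_mul] at h1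
    exact (prod_X_hom sᶜ f).mul h1
  have hFg : aeval ξ (∏ k, (X (f k) : MvPolynomial (Fin N) ℂ)) =
      algebraMap L K b * aeval ξ g0 := by
    rw [hg0, map_mul, map_pow, aeval_X, hi, one_pow, mul_one, map_prod, map_prod, hb]
    simp only [aeval_X]
    rw [Finset.prod_mul_prod_compl]
  refine ⟨C c * g0, ?_, ?_⟩
  · have := (isHomogeneous_C (Fin N) c).mul hg0h
    rwa [zero_add] at this
  rw [mem_JJ]
  intro x hx z hz
  have e1 : aeval ξ ((∏ k, (X (f k) : MvPolynomial (Fin N) ℂ)) - X i * (C c * g0)) * x * z =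
      x * (aeval ξ ((∏ k, (X (f k) : MvPolynomial (Fin N) ℂ)) - X i * (C c * g0)) * z) := by ring
  rw [e1]
  refine fspr ξ hfilt M τ _ ?_ x hx
  intro h
  have hG : (∏ k, (X (h k) : MvPolynomial (Fin N) ℂ)).IsHomogeneous T := by
    simpa using prod_X_hom Finset.univ h
  have hF : (∏ k, (X (f k) : MvPolynomial (Fin N) ℂ)).IsHomogeneous (r + 1) := by
    simpa using prod_X_hom Finset.univ f
  have hX : (X i * g0 : MvPolynomial (Fin N) ℂ).IsHomogeneous (r + 1) := by
    rw [add_comm]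
    exact (isHomogeneous_X ℂ i).mul hg0h
  obtain ⟨Λ, hΛ⟩ := key hO ξ τ M z (fun f => hval f z hz) (X i * g0 * ∏ k, X (h k))
    (by rw [← hm]; exact hX.mul hG)
  obtain ⟨Λ', hΛ'⟩ := key hO ξ τ M z (fun f => hval f z hz)
    ((∏ k, (X (f k) : MvPolynomial (Fin N) ℂ)) * ∏ k, X (h k))
    (by rw [← hm]; exact hF.mul hG)
  obtain ⟨A, hA⟩ : ∃ A : K, A = aeval ξ (X i * g0 * ∏ k, X (h k)) * z := ⟨_, rfl⟩
  rw [← hA] at hΛ
  have e2 : aeval ξ ((∏ k, (X (f k) : MvPolynomial (Fin N) ℂ)) * ∏ k, X (h k)) * z = b • A := by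
    rw [hA, map_mul (aeval ξ), hFg, map_mul (aeval ξ), map_mul (aeval ξ), aeval_X, hi, one_mul,
      Algebra.smul_def]
    ring
  rw [e2, map_smul, smul_eq_mul] at hΛ'
  have h3 : b * algebraMap ℂ L Λ - algebraMap ℂ L Λ' ∈ M := by
    have h4 := M.smul_mem β hΛ
    have h5 : β • (τ A - algebraMap ℂ L Λ) = b * (τ A - algebraMap ℂ L Λ) := by
      rw [← hβ]
      rfl
    rw [h5] at h4
    have h6 := M.sub_mem hΛ' h4
    have h7 : b * algebraMap ℂ L Λ - algebraMap ℂ L Λ' =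
        b * τ A - algebraMap ℂ L Λ' - b * (τ A - algebraMap ℂ L Λ) := by ring
    rw [h7]
    exact h6
  have h7 : ((β * ⟨algebraMap ℂ L Λ, hO Λ⟩ - ⟨algebraMap ℂ L Λ', hO Λ'⟩ : O) : L) ∈
      O.nonunits := by
    have h8 := hM _ h3
    rw [← hβ] at h8
    exact h8
  have h8 := hφ3 _ h7
  rw [map_sub, hφ1, ← hc] at h8
  have h9 : φ ⟨algebraMap ℂ L Λ', hO Λ'⟩ = Λ' := by
    have := hφ1 1 Λ'
    rwa [one_mul, hφ2, one_mul] at this
  rw [h9] at h8
  have h10 : Λ' = c * Λ := (sub_eq_zero.1 h8).symm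
  have e4 : (∏ k, ξ (h k)) *
      (aeval ξ ((∏ k, (X (f k) : MvPolynomial (Fin N) ℂ)) - X i * (C c * g0)) * z) =
      b • A - (algebraMap ℂ L c) • A := by
    rw [hA, map_sub, hFg, map_mul (aeval ξ), map_mul (aeval ξ), map_mul (aeval ξ),
      map_mul (aeval ξ), aeval_X, hi, one_mul, one_mul, aeval_C, map_prod, Algebra.smul_def,
      Algebra.smul_def, ← IsScalarTower.algebraMap_apply ℂ L K]
    simp only [aeval_X]
    ring
  have e3 : τ ((∏ k, ξ (h k)) *
      (aeval ξ ((∏ k, (X (f k) : MvPolynomial (Fin N) ℂ)) - X i * (C c * g0)) * z)) =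
      (b * τ A - algebraMap ℂ L Λ') - algebraMap ℂ L c * (τ A - algebraMap ℂ L Λ) := by
    rw [e4, map_sub, map_smul, map_smul, smul_eq_mul, smul_eq_mul, h10, map_mul]
    ring
  rw [e3]
  exact M.sub_mem hΛ' (LOW.smulC hO M c hΛ)

end DST

theorem dstab : S_DSTAB := by
  intro K L _ _ _ _ _ _ _ N m r T O _ _ hO ξ i hi hint hD hfilt hm S τ M hM hval F hF
  have h1 := span form N (r + 1) F hF
  clear hF
  induction h1 using Submodule.span_induction with
  | mem x hx =>
    obtain ⟨f, rfl⟩ := hx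
    obtain ⟨s, hs, b, hb⟩ := hD f
    exact DST.mono hO ξ i hi hint hfilt hm S τ M hM hval f s hs b hb
  | zero =>
    refine ⟨0, isHomogeneous_zero _ _ _, ?_⟩
    rw [mul_zero, sub_zero]
    exact zero_mem _
  | add x y hx hy h1 h2 =>
    obtain ⟨g, hg, hg1⟩ := h1
    obtain ⟨g', hg', hg1'⟩ := h2
    refine ⟨g + g', hg.add hg', ?_⟩
    have e : x + y - X i * (g + g') = (x - X i * g) + (y - X i * g') := by ring
    rw [e]
    exact Ideal.add_mem _ hg1 hg1'
  | smul a x hx h1 =>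
    obtain ⟨g, hg, hg1⟩ := h1
    refine ⟨C a * g, ?_, ?_⟩
    · have := (isHomogeneous_C (Fin N) a).mul hg
      rwa [zero_add] at this
    · have e : a • x - X i * (C a * g) = C a * (x - X i * g) := by
        rw [MvPolynomial.smul_eq_C_mul]
        ring
      rw [e]
      exact Ideal.mul_mem_left _ _ hg1

end Pool.Agent.H90.VA
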