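import Pool.Agent.H90.VA.DStm

/-!
LOWB: as LOW, with `Filt` in place of the degree.
-/

set_option autoImplicit false
set_option linter.unusedSectionVars false
set_option linter.overlappingInstances false

namespace Pool.Agent.H90.VA

open Module MvPolynomial

theorem sprb {K L : Type} [Field K] [Field L] [Algebra L K]
    {N T : ℕ} {O : ValuationSubring L} [Algebra O K] [IsScalarTower O L K] {ξ : Fin N → K}
    (hfilt : Filt O ξ T) (M : Submodule O L) (τ : K →ₗ[L] L) (z : K)
    (hτ : ∀ f : Fin T → Fin N, τ ((∏ k, ξ (f k)) * z) ∈ M) :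
    ∀ c ∈ Algebra.adjoin O (Set.range ξ), τ (c * z) ∈ M := by
  intro c hc
  have h2 : c ∈ (Submodule.span O (Set.range ξ)) ^ T := hfilt hc
  rw [Submodule.span_pow] at h2
  refine Submodule.span_induction (p := fun c _ => τ (c * z) ∈ M) ?_ ?_ ?_ ?_ h2
  · intro c hc
    obtain ⟨f, hf⟩ := Set.mem_pow.1 hc
    choose g hg using fun k => (f k).2
    have h3 := hτ g
    have h4 : ∏ k, ξ (g k) = c := by
      rw [← hf, List.prod_ofFn]
      exact Finset.prod_congr rfl fun k _ => hg k
    rwa [h4] at h3
  · rw [zero_mul, map_zero]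
    exact zero_mem _
  · intro a b _ _ ha hb
    rw [add_mul, map_add]
    exact add_mem ha hb
  · intro a b _ hb
    rw [smul_mul_assoc, ← algebraMap_smul L a (b * z), map_smul]
    rw [algebraMap_smul]
    exact M.smul_mem a hb

open LOW in
theorem lowb : S_LOWB := by
  intro K L _ _ _ _ _ _ _ N m r T O _ _ hO ξ hfilt S τ M hm hM hval hred F hF
  have hspan : S_SPAN := span form
  obtain ⟨g, hg, hFg⟩ := hred F
  -- `g ∈ JJ (sc O 1)`
  have hsub : ∀ z ∈ M, z ∈ sc O (1 : L) := fun z hz => ⟨z, hM z hz, by rw [one_mul]⟩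
  have hg1 : g ∈ JJ O hO ξ S τ (sc O 1) := by
    have h2 : F - g ∈ JJ O hO ξ S τ (sc O 1) := by
      intro c hc s hs
      exact hsub _ (hFg c hc s hs)
    have h3 : g = F - (F - g) := by ring
    rw [h3]
    exact Ideal.sub_mem _ hF h2
  have hg2 : g ∈ JJ O hO ξ S τ M := by
    intro c hc s hs
    have key : ∀ G : MvPolynomial (Fin N) ℂ, G.IsHomogeneous m →
        ∃ a : ℂ, τ (aeval ξ G * s) - algebraMap ℂ L a ∈ M := by
      intro G hG
      have h4 := hspan N m G hG
      clear hG
      induction h4 using Submodule.span_induction with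
      | mem x hx =>
        obtain ⟨f, rfl⟩ := hx
        obtain ⟨a, ha⟩ := hval f s hs
        refine ⟨a, ?_⟩
        simpa [map_prod] using ha
      | zero => exact ⟨0, by simp⟩
      | add x y hx hy h1 h2 =>
        obtain ⟨a, ha⟩ := h1
        obtain ⟨b, hb⟩ := h2
        refine ⟨a + b, ?_⟩
        have h5 : τ (aeval ξ (x + y) * s) - algebraMap ℂ L (a + b) =
            (τ (aeval ξ x * s) - algebraMap ℂ L a) + (τ (aeval ξ y * s) - algebraMap ℂ L b) := by
          rw [map_add (aeval ξ), add_mul, map_add τ, map_add (algebraMap ℂ L)]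
          ring
        rw [h5]
        exact add_mem ha hb
      | smul b x hx h1 =>
        obtain ⟨a, ha⟩ := h1
        refine ⟨b * a, ?_⟩
        have h5 : τ (aeval ξ (b • x) * s) - algebraMap ℂ L (b * a) =
            algebraMap ℂ L b * (τ (aeval ξ x * s) - algebraMap ℂ L a) := by
          have h6 : aeval ξ (b • x) * s = (algebraMap ℂ L b) • (aeval ξ x * s) := by
            rw [map_smul, smul_mul_assoc, algebraMap_smul]
          rw [h6, LinearMap.map_smul, smul_eq_mul, map_mul (algebraMap ℂ L)]
          ring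
        rw [h5]
        exact smulC hO M b ha
    have h5 : τ (c * (aeval ξ g * s)) ∈ M := by
      apply sprb hfilt M τ (aeval ξ g * s) _ c hc
      intro f
      have h6 : (g * ∏ k, X (f k)).IsHomogeneous m := by
        rw [← hm]
        apply hg.mul
        have := MvPolynomial.IsHomogeneous.prod Finset.univ (fun k => (X (f k) : MvPolynomial (Fin N) ℂ))
          (fun _ => 1) (fun k _ => isHomogeneous_X ℂ (f k))
        simpa using this
      obtain ⟨a, ha⟩ := key _ h6
      have h7 : aeval ξ (g * ∏ k, X (f k)) * s = (∏ k, ξ (f k)) * (aeval ξ g * s) := by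
        rw [map_mul, map_prod]
        simp only [aeval_X]
        ring
      rw [h7] at ha
      have h8 : τ ((∏ k, ξ (f k)) * (aeval ξ g * s)) ∈ O.nonunits := by
        have h9 := hg1 (∏ k, ξ (f k)) (prod_mem O ξ f) s hs
        obtain ⟨z, hz, h10⟩ := h9
        have h11 : (∏ k, ξ (f k)) * (aeval ξ g * s) = aeval ξ g * (∏ k, ξ (f k)) * s := by ring
        rw [h11, h10, one_mul]
        exact hz
      have h9 : algebraMap ℂ L a ∈ O.nonunits := by
        have h10 : algebraMap ℂ L a = τ ((∏ k, ξ (f k)) * (aeval ξ g * s)) +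
            -(τ ((∏ k, ξ (f k)) * (aeval ξ g * s)) - algebraMap ℂ L a) := by ring
        rw [h10]
        exact add_mem h8 (hM _ (M.neg_mem ha))
      rw [const_eq_zero hO a h9, map_zero, sub_zero] at ha
      exact ha
    have h6 : aeval ξ g * c * s = c * (aeval ξ g * s) := by ring
    rw [h6]
    exact h5
  have h3 : F = (F - g) + g := by ring
  rw [h3]
  exact Ideal.add_mem _ hFg hg2

end Pool.Agent.H90.VA
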