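import Pool.Agent.H90.VA.Geo
import Pool.Agent.H90.VA.DCore
import Pool.Agent.H90.VA.Lowb
import Pool.Agent.H90.VA.Dfilt
import Pool.Agent.H90.VA.Dstab

/-!
Adjoint line bundles on images under diagonal coverings.
-/

set_option autoImplicit false
set_option linter.unusedSectionVars false
set_option linter.overlappingInstances false

open FF Module Pool.Agent.W602.GT Pool.Agent.W603.LV Pool.Agent.W619.PQ Pool.Agent.Y172
open Pool.Agent.Y184.NT

namespace Pool.Agent.H90.VA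

open Pool.Agent.H614.BF (SectionAt Generates RegularFunctions wr pForm pForm_pluri pForm_frame
  fuj_section fuj_local)

section

variable {K L : Type} [Field K] [Algebra ℂ K] [Field L] [Algebra ℂ L] [Algebra L K]
  [IsScalarTower ℂ L K] [FiniteDimensional L K] {n m N M : ℕ}

/-- diagonal coverings are good -/
theorem good_diag {r : ℕ} {x : Fin N → K} (hx : x ≠ 0)
    (hD : ∀ i, x i ≠ 0 → ∀ f : Fin (r + 1) → Fin N, ∃ s : Finset (Fin (r + 1)), s.Nonempty ∧
      ∃ b : L, algebraMap L K b = ∏ k ∈ s, (x (f k) / x i)) : Good L x r := by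
  intro O _ _ hO
  obtain ⟨i, hi, hint, hfilt⟩ := dfilt K L N r x hx hD O
  refine ⟨x i, fun j => x j / x i, MvPolynomial.X i, hi, ?_, hint,
    MvPolynomial.isHomogeneous_X ℂ i, ?_, hfilt, fun T m hrT hm S τ M hM hval =>
    dstab K L N m r T O hO _ i (div_self hi) hint (hD i hi) (hfilt T hrT) hm S τ M hM hval⟩
  · funext j
    exact (mul_div_cancel₀ _ hi).symm
  · rw [MvPolynomial.aeval_X]
    exact div_self hi

/-- **Separation of points.** -/
theorem fuj_ptsG [Algebra.EssFiniteType ℂ K] (hK : Algebra.trdeg ℂ K = n) {x : Fin N → K}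
    (hx : x ≠ 0) {y : Fin M → L} {r T k : ℕ} (hgood : Good L x r)
    (hrT : r ≤ T) (hm : k * (r + 1) + T = m) (a : Place ℂ L → ℤ) {φ : K}
    (hφ : φ ≠ 0)
    (hglob : ∀ (Q : Place ℂ K) (P : Place ℂ L) (e : ℕ), Over Q P e → Divisorial n Q →
      ∀ i, x i ≠ 0 → Q.ord φ ≤ e * a P + ((m + (n + 1) : ℕ) : ℤ) * Q.ord (x i))
    {p : Fin M → ℂ} (hp : IsPoint y p) {g : L} {t : Fin n → L} (ht : RegularFunctions y p t)
    (hne : ∃ D : Fin n → Derivation ℂ L L, g * (Matrix.of fun i j => D i (t j)).det ≠ 0)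
    (hgen : Generates a y p
      (fun D : Fin n → Derivation ℂ L L => g * (Matrix.of fun i j => D i (t j)).det))
    (h : ∀ (κ : Type) [Field κ] [Algebra ℂ κ] (q : Fin N → κ), InGraph x y q p →
      Defined x y q ∧ ∃ (e : ℕ) (A B : MvPolynomial (Fin N) ℂ),
        A.IsHomogeneous (e + (m + (n + 1))) ∧ B.IsHomogeneous e ∧ MvPolynomial.aeval q B ≠ 0 ∧
        MvPolynomial.aeval x B * (φ * algebraMap L K g) = MvPolynomial.aeval x A)
    {p' : Fin k → Fin M → ℂ} (hp' : ∀ i, IsPoint y (p' i))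
    (hpp' : ∀ i, ∃ j l, p j * p' i l ≠ p l * p' i j) {g' : Fin k → L} {t' : Fin k → Fin n → L}
    (hne' : ∀ i, ∃ D : Fin n → Derivation ℂ L L,
      g' i * (Matrix.of fun i' j => D i' (t' i j)).det ≠ 0)
    (hgen' : ∀ i, Generates a y (p' i)
      (fun D : Fin n → Derivation ℂ L L => g' i * (Matrix.of fun i' j => D i' (t' i j)).det)) :
    ∃ θ : (Fin n → Derivation ℂ L L) → L, IsPluri 1 θ ∧
      (∀ P : Place ℂ L, Divisorial n P → SectionAt a P θ) ∧ Generates a y p θ ∧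
      ∀ i, ∃ (e : ℕ) (A B : MvPolynomial (Fin M) ℂ), A.IsHomogeneous e ∧ B.IsHomogeneous e ∧
        MvPolynomial.aeval (p' i) B ≠ 0 ∧ MvPolynomial.aeval (p' i) A = 0 ∧
        ∀ D : Fin n → Derivation ℂ L L, MvPolynomial.aeval y B * θ D =
          MvPolynomial.aeval y A * (g' i * (Matrix.of fun i' j => D i' (t' i j)).det) := by
  classical
  obtain ⟨z, E, S0, hE, hcoord, hsec, hgenr⟩ := data (m := m) hK hx (y := y) a hφ hglob
  obtain ⟨hu0, hη⟩ := gen_ne hcoord hne
  have hG1 : ∀ f : Fin m → Fin N, MvPolynomial.aeval x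
      (∏ k, (MvPolynomial.X (f k) : MvPolynomial (Fin N) ℂ)) = ∏ k, x (f k) := by
    intro f
    simp [map_prod, MvPolynomial.aeval_X]
  have hsec1 : ∀ s ∈ S0, ∀ f : Fin m → Fin N, ∀ P : Place ℂ L, Divisorial n P →
      SectionAt a P (pForm 1 z (Algebra.trace L K ((∏ k, x (f k)) * s))) := by
    intro s hs f P hP
    have h1 := hsec s hs _ (prodX_hom f) P hP
    rwa [hG1] at h1
  obtain ⟨G, hG, s, hs, ⟨e, A, B, hA, hB, hBp, hAp, hAB⟩, hvan'⟩ := core_ptsG glob (span form)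
    (van form) hgood hrT hm hp hu0 hp'
    (fun i => (gen_ne hcoord (hne' i)).1) hpp' S0
    (fun s hs f => reg_of hE hgen (hsec1 s hs f))
    (fun i s hs f => reg_of hE (hgen' i) (hsec1 s hs f)) (hgenr p hp g t ht h)
  have hθ : ∀ D, pForm 1 z (Algebra.trace L K (MvPolynomial.aeval x G * s)) D =
      (Matrix.of fun i j => D i (z j)).det ^ 1 *
        Algebra.trace L K (MvPolynomial.aeval x G * s) := fun D => rfl
  refine ⟨pForm 1 z (Algebra.trace L K (MvPolynomial.aeval x G * s)), pForm_pluri 1 z _,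
    fun P hP => hsec s hs G hG P hP, fun θ' hθp' hθ' => ?_, fun i => ?_⟩
  · obtain ⟨e', A', B', hA', hB', hB'p, hAB'⟩ := hgen θ' hθp' hθ'
    refine ⟨e' + e, A' * B, B' * A, hA'.mul hB, hB'.mul hA, ?_, fun D => ?_⟩
    · rw [map_mul]
      exact mul_ne_zero hB'p hAp
    · rw [map_mul, map_mul, hθ]
      have h4 := hAB' D
      have h5 := hη D
      change MvPolynomial.aeval y B' * θ' D = MvPolynomial.aeval y A' *
        (g * (Matrix.of fun i j => D i (t j)).det) at h4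
      rw [h5] at h4
      linear_combination MvPolynomial.aeval y A * h4 -
        MvPolynomial.aeval y A' * (Matrix.of fun i j => D i (z j)).det ^ 1 * hAB
  · obtain ⟨e', A', B', hA', hB', hB'p, hA'p, hAB'⟩ := hvan' i
    refine ⟨e', A', B', hA', hB', hB'p, hA'p, fun D => ?_⟩
    rw [hθ, (gen_ne hcoord (hne' i)).2 D]
    linear_combination (Matrix.of fun i j => D i (z j)).det ^ 1 * hAB'

/-- **Separation of tangent directions.** -/
theorem fuj_tanG [Algebra.EssFiniteType ℂ K] (hK : Algebra.trdeg ℂ K = n) {x : Fin N → K}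
    (hx : x ≠ 0) {y : Fin M → L} {r T : ℕ} (hgood : Good L x r)
    (hrT : r ≤ T) (hm : r + 1 + T = m) (a : Place ℂ L → ℤ) {φ : K}
    (hφ : φ ≠ 0)
    (hglob : ∀ (Q : Place ℂ K) (P : Place ℂ L) (e : ℕ), Over Q P e → Divisorial n Q →
      ∀ i, x i ≠ 0 → Q.ord φ ≤ e * a P + ((m + (n + 1) : ℕ) : ℤ) * Q.ord (x i))
    {p : Fin M → ℂ} (hp : IsPoint y p) {v : Fin M → ℂ} (hv : Direction y p v) {g : L}
    {t : Fin n → L} (ht : RegularFunctions y p t)
    (hne : ∃ D : Fin n → Derivation ℂ L L, g * (Matrix.of fun i j => D i (t j)).det ≠ 0)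
    (hgen : Generates a y p
      (fun D : Fin n → Derivation ℂ L L => g * (Matrix.of fun i j => D i (t j)).det))
    (h : ∀ (κ : Type) [Field κ] [Algebra ℂ κ] (q : Fin N → κ), InGraph x y q p →
      Defined x y q ∧ ∃ (e : ℕ) (A B : MvPolynomial (Fin N) ℂ),
        A.IsHomogeneous (e + (m + (n + 1))) ∧ B.IsHomogeneous e ∧ MvPolynomial.aeval q B ≠ 0 ∧
        MvPolynomial.aeval x B * (φ * algebraMap L K g) = MvPolynomial.aeval x A) :
    ∃ θ : (Fin n → Derivation ℂ L L) → L, IsPluri 1 θ ∧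
      (∀ P : Place ℂ L, Divisorial n P → SectionAt a P θ) ∧
      ∃ (e : ℕ) (A B : MvPolynomial (Fin M) ℂ), A.IsHomogeneous e ∧ B.IsHomogeneous e ∧
        MvPolynomial.aeval p B ≠ 0 ∧ MvPolynomial.aeval p A = 0 ∧ dd p v A ≠ 0 ∧
        ∀ D : Fin n → Derivation ℂ L L, MvPolynomial.aeval y B * θ D =
          MvPolynomial.aeval y A * (g * (Matrix.of fun i j => D i (t j)).det) := by
  classical
  obtain ⟨z, E, S0, hE, hcoord, hsec, hgenr⟩ := data (m := m) hK hx (y := y) a hφ hglob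
  obtain ⟨hu0, hη⟩ := gen_ne hcoord hne
  have hG1 : ∀ f : Fin m → Fin N, MvPolynomial.aeval x
      (∏ k, (MvPolynomial.X (f k) : MvPolynomial (Fin N) ℂ)) = ∏ k, x (f k) := by
    intro f
    simp [map_prod, MvPolynomial.aeval_X]
  have hsec1 : ∀ s ∈ S0, ∀ f : Fin m → Fin N, ∀ P : Place ℂ L, Divisorial n P →
      SectionAt a P (pForm 1 z (Algebra.trace L K ((∏ k, x (f k)) * s))) := by
    intro s hs f P hP
    have h1 := hsec s hs _ (prodX_hom f) P hP
    rwa [hG1] at h1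
  obtain ⟨G, G', hG, hG', s, hs, s', hs', e, A, B, hA, hB, hBp, hAp, hdd, hAB⟩ := core_tanG
    red lowb (quo tay) glob blow hgood hrT
    hm hp hv hu0 S0 (fun s hs f => reg_of hE hgen (hsec1 s hs f)) (hgenr p hp g t ht h)
  refine ⟨pForm 1 z (Algebra.trace L K (MvPolynomial.aeval x G * s +
    MvPolynomial.aeval x G' * s')), pForm_pluri 1 z _, fun P hP => ?_, e, A, B, hA, hB, hBp,
    hAp, hdd, fun D => ?_⟩
  · rw [map_add]
    exact sectionAt_add a P z (hsec s hs G hG P hP) (hsec s' hs' G' hG' P hP)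
  · rw [hη D]
    unfold pForm
    linear_combination (Matrix.of fun i j => D i (z j)).det ^ 1 * hAB

end

end Pool.Agent.H90.VA
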