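import Pool.Agent.H90.VA.Stm

/-!
Project VA, DEP: forms are linearly dependent modulo `JJ`.
-/

set_option autoImplicit false
set_option linter.unusedSectionVars false
set_option linter.overlappingInstances false

namespace Pool.Agent.H90.VA

open Module MvPolynomial

/-- a `ℂ`-linear retraction of the valuation ring to `ℂ` which kills the nonunits -/
theorem exists_retr {L : Type} [Field L] [Algebra ℂ L] (O : ValuationSubring L)
    (hO : ∀ a : ℂ, algebraMap ℂ L a ∈ O) : ∃ φ : O →+ ℂ,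
      (∀ (x : O) (a : ℂ), φ (x * ⟨algebraMap ℂ L a, hO a⟩) = φ x * a) ∧ φ 1 = 1 ∧
      ∀ x : O, (x : L) ∈ O.nonunits → φ x = 0 := by
  obtain ⟨ι, hι⟩ : ∃ ι : ℂ →+* O, ∀ a, (ι a : L) = algebraMap ℂ L a :=
    ⟨(algebraMap ℂ L).codRestrict O.toSubring hO, fun a => rfl⟩
  let alg : Algebra ℂ (IsLocalRing.ResidueField O) :=
    ((IsLocalRing.residue O).comp ι).toAlgebra
  have halg : ∀ a, algebraMap ℂ (IsLocalRing.ResidueField O) a = IsLocalRing.residue O (ι a) :=
    fun a => rfl
  obtain ⟨ρ, hρ⟩ := LinearMap.exists_leftInverse_of_injective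
    (Algebra.linearMap ℂ (IsLocalRing.ResidueField O))
    (LinearMap.ker_eq_bot.2 (algebraMap ℂ (IsLocalRing.ResidueField O)).injective)
  refine ⟨ρ.toAddMonoidHom.comp (IsLocalRing.residue O).toAddMonoidHom, ?_, ?_, ?_⟩
  · intro x a
    change ρ (IsLocalRing.residue O (x * _)) = ρ (IsLocalRing.residue O x) * a
    have h1 : (⟨algebraMap ℂ L a, hO a⟩ : O) = ι a := Subtype.ext (hι a).symm
    rw [h1, map_mul, ← halg, mul_comm, ← Algebra.smul_def, map_smul, smul_eq_mul, mul_comm]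
  · change ρ (IsLocalRing.residue O 1) = 1
    have h1 := LinearMap.congr_fun hρ 1
    rw [LinearMap.comp_apply, Algebra.linearMap_apply, map_one, LinearMap.id_apply] at h1
    rw [map_one]
    exact h1
  · intro x hx
    change ρ (IsLocalRing.residue O x) = 0
    have h1 : IsLocalRing.residue O x = 0 := by
      rw [IsLocalRing.residue_eq_zero_iff]
      obtain ⟨h2, h3⟩ := O.mem_nonunits_iff_exists_mem_maximalIdeal.1 hx
      exact h3
    rw [h1, map_zero]

theorem dep (hSPAN : S_SPAN) (hSPR : S_SPR) : S_DEP := by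
  intro K L _ _ _ _ _ _ _ N m r d T O _ _ hO ξ hint hone S τ M hr hT hdT hMn hS h hh
  classical
  -- values on forms of degree `m`
  have hform : ∀ F : MvPolynomial (Fin N) ℂ, F.IsHomogeneous m → ∀ s ∈ S,
      ∃ a : ℂ, τ (aeval ξ F * s) - algebraMap ℂ L a ∈ M := by
    intro F hF s hs
    refine Submodule.span_induction (p := fun F _ => ∃ a : ℂ,
      τ (aeval ξ F * s) - algebraMap ℂ L a ∈ M) ?_ ?_ ?_ ?_ (hSPAN N m F hF)
    · rintro _ ⟨f, rfl⟩
      obtain ⟨a, ha⟩ := hS f s hs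
      refine ⟨a, ?_⟩
      rw [map_prod]
      simp only [aeval_X]
      exact ha
    · exact ⟨0, by rw [map_zero, zero_mul, map_zero, map_zero, sub_zero]; exact zero_mem _⟩
    · rintro x y _ _ ⟨a, ha⟩ ⟨b, hb⟩
      refine ⟨a + b, ?_⟩
      have e : τ (aeval ξ (x + y) * s) - algebraMap ℂ L (a + b) =
          (τ (aeval ξ x * s) - algebraMap ℂ L a) + (τ (aeval ξ y * s) - algebraMap ℂ L b) := by
        rw [map_add, add_mul, map_add, map_add]
        ring
      rw [e]
      exact add_mem ha hb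
    · rintro c x _ ⟨a, ha⟩
      refine ⟨c * a, ?_⟩
      have e : τ (aeval ξ (c • x) * s) - algebraMap ℂ L (c * a) =
          (⟨algebraMap ℂ L c, hO c⟩ : O) • (τ (aeval ξ x * s) - algebraMap ℂ L a) := by
        rw [map_smul, smul_mul_assoc, ← algebraMap_smul L c (aeval ξ x * s), map_smul,
          map_mul (algebraMap ℂ L)]
        change algebraMap ℂ L c * _ - _ = algebraMap ℂ L c * (_ - _)
        ring
      rw [e]
      exact M.smul_mem _ ha
  -- linear dependence over `L`
  have hli : ¬ LinearIndependent L fun i => aeval ξ (h i) := by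
    intro hli
    have := hli.fintype_card_le_finrank
    rw [Fintype.card_fin] at this
    omega
  rw [Fintype.linearIndependent_iff] at hli
  push Not at hli
  obtain ⟨a, ha, ha0⟩ := hli
  obtain ⟨i0, b, h0, hb1, hb⟩ := exists_scale (R := O) a ha0
  have hsum : ∑ i, algebraMap O L (b i) • aeval ξ (h i) = 0 := by
    have h3 : a i0 • ∑ i, algebraMap O L (b i) • aeval ξ (h i) = 0 := by
      rw [← ha, Finset.smul_sum]
      refine Finset.sum_congr rfl fun i _ => ?_
      rw [hb i, mul_smul]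
    exact (smul_eq_zero.1 h3).resolve_left h0
  obtain ⟨φ, hφ1, hφ2, hφ3⟩ := exists_retr O hO
  refine ⟨fun i => φ (b i), ?_, ?_⟩
  · intro hc
    have := congrFun hc i0
    simp only [hb1, hφ2, Pi.zero_apply] at this
    exact one_ne_zero this
  rw [mem_JJ]
  intro c hc s hs
  have e1 : aeval ξ (∑ i, C (φ (b i)) * h i) * c * s =
      c * (aeval ξ (∑ i, C (φ (b i)) * h i) * s) := by ring
  rw [e1]
  refine hSPR K L N T O ξ hint hone hT M τ _ ?_ c hc
  intro f
  have hX : ∀ i, ∃ Λ : ℂ, τ (aeval ξ (h i) * ((∏ k, ξ (f k)) * s)) - algebraMap ℂ L Λ ∈ M := by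
    intro i
    have h1 : (h i * ∏ k, X (f k)).IsHomogeneous m := by
      rw [← hdT]
      refine (hh i).mul ?_
      have h2 := IsHomogeneous.prod (Finset.univ : Finset (Fin T))
        (fun k => (X (f k) : MvPolynomial (Fin N) ℂ)) (fun _ => 1)
        (fun k _ => isHomogeneous_X ℂ (f k))
      simpa using h2
    obtain ⟨Λ, hΛ⟩ := hform _ h1 s hs
    refine ⟨Λ, ?_⟩
    rw [map_mul (aeval ξ), map_prod] at hΛ
    simp only [aeval_X] at hΛ
    rw [← mul_assoc]
    exact hΛ
  choose Λ hΛ using hX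
  -- the constants
  have hcon : ∑ i, φ (b i) * Λ i = 0 := by
    have h1 : ∑ i, (algebraMap O L (b i)) * τ (aeval ξ (h i) * ((∏ k, ξ (f k)) * s)) = 0 := by
      have h2 : τ ((∑ i, algebraMap O L (b i) • aeval ξ (h i)) * ((∏ k, ξ (f k)) * s)) = 0 := by
        rw [hsum, zero_mul, map_zero]
      rw [Finset.sum_mul, map_sum] at h2
      rw [← h2]
      refine Finset.sum_congr rfl fun i _ => ?_
      rw [smul_mul_assoc, map_smul, smul_eq_mul]
    have h3 : ∑ i, b i • (τ (aeval ξ (h i) * ((∏ k, ξ (f k)) * s)) - algebraMap ℂ L (Λ i)) ∈ M :=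
      Submodule.sum_mem _ fun i _ => M.smul_mem _ (hΛ i)
    have h4 : ∑ i, b i • (τ (aeval ξ (h i) * ((∏ k, ξ (f k)) * s)) - algebraMap ℂ L (Λ i)) =
        -((∑ i, b i * (⟨algebraMap ℂ L (Λ i), hO (Λ i)⟩ : O) : O) : L) := by
      have h5 : ((∑ i, b i * (⟨algebraMap ℂ L (Λ i), hO (Λ i)⟩ : O) : O) : L) =
          ∑ i, algebraMap O L (b i) * algebraMap ℂ L (Λ i) := by
        change algebraMap O L _ = _
        rw [map_sum]
        exact Finset.sum_congr rfl fun i _ => by rw [map_mul]; rfl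
      rw [h5, ← zero_sub, ← h1, ← Finset.sum_sub_distrib]
      refine Finset.sum_congr rfl fun i _ => ?_
      change algebraMap O L (b i) * _ = _
      ring
    rw [h4, neg_mem_iff] at h3
    have h6 := hφ3 _ (hMn _ h3)
    rw [map_sum] at h6
    rw [← h6]
    exact Finset.sum_congr rfl fun i _ => (hφ1 _ _).symm
  have e2 : (∏ k, ξ (f k)) * (aeval ξ (∑ i, C (φ (b i)) * h i) * s) =
      ∑ i, (φ (b i)) • (aeval ξ (h i) * ((∏ k, ξ (f k)) * s)) := by
    rw [map_sum, Finset.sum_mul, Finset.mul_sum]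
    refine Finset.sum_congr rfl fun i _ => ?_
    rw [map_mul, aeval_C, Algebra.smul_def]
    ring
  have e3 : τ (∑ i, (φ (b i)) • (aeval ξ (h i) * ((∏ k, ξ (f k)) * s))) =
      ∑ i, (⟨algebraMap ℂ L (φ (b i)), hO _⟩ : O) •
        (τ (aeval ξ (h i) * ((∏ k, ξ (f k)) * s)) - algebraMap ℂ L (Λ i)) := by
    rw [map_sum]
    have e4 : ∑ i, algebraMap ℂ L (φ (b i)) * algebraMap ℂ L (Λ i) = 0 := by
      rw [← map_zero (algebraMap ℂ L), ← hcon, map_sum]
      exact Finset.sum_congr rfl fun i _ => (map_mul _ _ _).symm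
    rw [← sub_zero (∑ i, τ _), ← e4, ← Finset.sum_sub_distrib]
    refine Finset.sum_congr rfl fun i _ => ?_
    rw [← algebraMap_smul L (φ (b i)) (aeval ξ (h i) * _), map_smul]
    change algebraMap ℂ L (φ (b i)) * _ - _ = algebraMap ℂ L (φ (b i)) * _
    ring
  rw [e2, e3]
  exact Submodule.sum_mem _ fun i _ => M.smul_mem _ (hΛ i)

end Pool.Agent.H90.VA
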