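import Pool.Agent.H90.VA.Stm

/-!
Project VA: induction for forms.
-/

set_option autoImplicit false

namespace Pool.Agent.H90.VA

open MvPolynomial

theorem form : S_FORM := by
  classical
  intro N e P h0 hadd hX F hF
  have hmon : ∀ (d : Fin N →₀ ℕ) (a : ℂ), d.degree = e + 1 → P (monomial d a) := by
    intro d a hd
    obtain ⟨i, hi⟩ : ∃ i, d i ≠ 0 := by
      by_contra hcon
      push Not at hcon
      have h1 : d = 0 := Finsupp.ext hcon
      rw [h1, map_zero] at hd
      omega
    have hd' : Finsupp.single i 1 + (d - Finsupp.single i 1) = d :=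
      add_tsub_cancel_of_le (Finsupp.single_le_iff.2 (Nat.one_le_iff_ne_zero.2 hi))
    have h2 : (d - Finsupp.single i 1).degree = e := by
      have h3 := congrArg Finsupp.degree hd'
      rw [map_add, Finsupp.degree_single, hd] at h3
      omega
    have h4 : monomial d a = X i * monomial (d - Finsupp.single i 1) a := by
      rw [X, monomial_mul, one_mul, hd']
    rw [h4]
    exact hX i _ (isHomogeneous_monomial a h2)
  have key : ∀ s : Finset (Fin N →₀ ℕ), (∀ d ∈ s, d.degree = e + 1) →
      (∑ d ∈ s, monomial d (F.coeff d)).IsHomogeneous (e + 1) ∧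
      P (∑ d ∈ s, monomial d (F.coeff d)) := by
    intro s
    induction s using Finset.induction_on with
    | empty =>
      intro _
      rw [Finset.sum_empty]
      exact ⟨isHomogeneous_zero _ _ _, h0⟩
    | insert d s hds ih =>
      intro hs
      obtain ⟨h1, h2⟩ := ih fun d' hd' => hs d' (Finset.mem_insert_of_mem hd')
      have h3 := hs d (Finset.mem_insert_self _ _)
      have h4 : (monomial d (F.coeff d)).IsHomogeneous (e + 1) := isHomogeneous_monomial _ h3
      rw [Finset.sum_insert hds]
      exact ⟨h4.add h1, hadd _ _ h4 h1 (hmon d _ h3) h2⟩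
  have h5 := (key F.support fun d hd => by
    have h6 := hF (mem_support_iff.1 hd)
    rw [Finsupp.degree_eq_weight_one]
    exact h6).2
  rwa [F.support_sum_monomial_coeff] at h5

end Pool.Agent.H90.VA
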