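import Pool.Agent.H90.VA.Stm

set_option autoImplicit false

namespace Pool.Agent.H90.VA

open Module MvPolynomial

theorem span : S_FORM → S_SPAN := by
  intro hform N m
  induction m with
  | zero =>
    intro F hF
    have h1 : F = C (coeff 0 F) := by
      ext d
      rw [coeff_C]
      by_cases hd : 0 = d
      · rw [if_pos hd, hd]
      · rw [if_neg hd]
        by_contra hne
        have h2 := hF hne
        apply hd
        have h3 : d.degree = 0 := by
          rw [← h2]
          simp only [Finsupp.weight_apply, Finsupp.sum, Pi.one_apply, smul_eq_mul, mul_one]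
          rfl
        exact ((Finsupp.degree_eq_zero_iff d).1 h3).symm
    rw [h1]
    have h4 : (C (coeff 0 F) : MvPolynomial (Fin N) ℂ) = (coeff 0 F) • ∏ k : Fin 0, (X ((finZeroElim : Fin 0 → Fin N) k) : MvPolynomial (Fin N) ℂ) := by
      rw [Finset.univ_eq_empty, Finset.prod_empty, MvPolynomial.smul_eq_C_mul, mul_one]
    rw [h4]
    exact Submodule.smul_mem _ _ (Submodule.subset_span ⟨_, rfl⟩)
  | succ m ih =>
    intro F hF
    apply hform N m (fun F => F ∈ Submodule.span ℂ
      (Set.range fun f : Fin (m + 1) → Fin N => ∏ k, (X (f k) : MvPolynomial (Fin N) ℂ)))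
    · exact zero_mem _
    · intro F G _ _ h1 h2
      exact add_mem h1 h2
    · intro i F hF
      have h1 := ih F hF
      clear hF
      induction h1 using Submodule.span_induction with
      | mem x hx =>
        obtain ⟨f, rfl⟩ := hx
        refine Submodule.subset_span ⟨Fin.cons i f, ?_⟩
        simp only
        rw [Fin.prod_univ_succ]
        simp
      | zero => rw [mul_zero]; exact zero_mem _
      | add x y hx hy h1 h2 =>
        rw [mul_add]
        exact add_mem h1 h2
      | smul a x hx h1 =>
        rw [mul_smul_comm]
        exact Submodule.smul_mem _ _ h1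
    · exact hF

end Pool.Agent.H90.VA
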