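import Pool.Agent.H90.VA.Low
import Pool.Agent.H90.VA.Dep
import Pool.Agent.H90.VA.Form
import Pool.Agent.H90.VA.Span

/-!
Statements of the stubs of project VB: adjoint line bundles on images under diagonal coverings, with the
Davenport constant in place of the degree.
-/

set_option autoImplicit false
set_option linter.unusedSectionVars false
set_option linter.overlappingInstances false

namespace Pool.Agent.H90.VA

open Module MvPolynomial

/-- `O[ξ]` is generated as an `O`-module by the monomials of degree `T` -/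
def Filt {K L : Type} [Field K] [Field L] [Algebra L K] {N : ℕ} (O : ValuationSubring L)
    [Algebra O K] (ξ : Fin N → K) (T : ℕ) : Prop :=
  (Algebra.adjoin O (Set.range ξ)).toSubmodule ≤ (Submodule.span O (Set.range ξ)) ^ T

/-- LOWB: as S_LOW, with `Filt O ξ T` in place of `finrank L K ≤ T + 1`. The proof of `low` in Low.lean
works: replace the one use of `hspr` by the proof of `spr` in Spr.lean, whose first line
`filt (L := L) ξ hint hone hd hc` is to be replaced by the hypothesis `Filt O ξ T`. -/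
def S_LOWB : Prop := ∀ (K L : Type) [Field K] [Algebra ℂ K] [Field L] [Algebra ℂ L] [Algebra L K]
  [IsScalarTower ℂ L K] [FiniteDimensional L K] (N m r T : ℕ) (O : ValuationSubring L)
  [Algebra O K] [IsScalarTower O L K] (hO : ∀ a : ℂ, algebraMap ℂ L a ∈ O) (ξ : Fin N → K),
  Filt O ξ T →
  ∀ (S : Set K) (τ : K →ₗ[L] L) (M : Submodule O L), r + T = m →
  (∀ z ∈ M, z ∈ O.nonunits) →
  (∀ f : Fin m → Fin N, ∀ s ∈ S, ∃ a : ℂ, τ ((∏ k, ξ (f k)) * s) - algebraMap ℂ L a ∈ M) →
  (∀ F : MvPolynomial (Fin N) ℂ, ∃ g : MvPolynomial (Fin N) ℂ, g.IsHomogeneous r ∧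
    F - g ∈ JJ O hO ξ S τ M) →
  ∀ F ∈ JJ O hO ξ S τ (sc O 1), F ∈ JJ O hO ξ S τ M

/-- DFILT: diagonal coverings. `hD`: in every sequence of `r + 1` quotients `x j / x i` (with a fixed
`i`) the product of some nonempty subsequence is in `L`. By `exists_ext` in Lib.lean there is a
valuation ring `V` of `K` with `algebraMap L K z ∈ V ↔ z ∈ O`; choose `i` with `V.valuation (x i)`
maximal. Constant sequences in `hD` give `(x j / x i) ^ e = algebraMap L K a` with `e > 0`, and `a ∈ O`
since `x j / x i ∈ V`; so `ξ j = x j / x i` is integral over `O`. For the last claim let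
`G = span O (range ξ)`, `1 = ξ i ∈ G`. A product of `r + 1` of the `ξ j` is `algebraMap L K b` times a
product of at most `r` of them, where `b` is integral over `O` (a product of integral elements;
`isIntegral_algebraMap_iff`), so `b ∈ O` as valuation rings are integrally closed. So
`G ^ (r + 1) ≤ G ^ r`, and `Algebra.adjoin O (range ξ) ≤ G ^ r ≤ G ^ T` (compare the proof of `filt` in
Lib.lean). -/
def S_DFILT : Prop := ∀ (K L : Type) [Field K] [Algebra ℂ K] [Field L] [Algebra ℂ L]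
  [Algebra L K] [IsScalarTower ℂ L K] [FiniteDimensional L K] (N r : ℕ) (x : Fin N → K), x ≠ 0 →
  (∀ i, x i ≠ 0 → ∀ f : Fin (r + 1) → Fin N, ∃ s : Finset (Fin (r + 1)), s.Nonempty ∧
    ∃ b : L, algebraMap L K b = ∏ k ∈ s, (x (f k) / x i)) →
  ∀ (O : ValuationSubring L) [Algebra O K] [IsScalarTower O L K],
    ∃ i, x i ≠ 0 ∧ (∀ j, IsIntegral O (x j / x i)) ∧
      ∀ T, r ≤ T → Filt O (fun j => x j / x i) T

/-- DSTAB: forms of degree `r + 1` modulo `JJ`, diagonal coverings. By SPAN (linear combinations) it is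
enough to consider `F = ∏ X (f k)`, `f : Fin (r + 1) → Fin N`. Take `s` and `b` from `hD`; `b` is
integral over `O`, so `b ∈ O`. Let `g0 = (∏ over the complement of s of X (f k)) * X i ^ (card s - 1)`, a
form of degree `r`, so `F(ξ) = b g0(ξ)` in `K` as `ξ i = 1`. Let `φ` be the retraction of `exists_retr` in
Dep.lean, `c = φ b`, and `g = C c * g0`. For `h : Fin T → Fin N` and `z ∈ S` let `G = ∏ X (h k)`. Then
`τ (X i g0 G (ξ) z) = Λ + μ` and `τ (F G (ξ) z) = Λ' + μ'` with `Λ, Λ' ∈ ℂ`, `μ, μ' ∈ M` (by SPAN, the degree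
is `m`), and the second is `b` times the first, so `Λ' - b Λ ∈ M` is a nonunit, `Λ' = φ(b) Λ = c Λ`, and
`τ ((F - X i * g) G (ξ) z) = μ' - c μ ∈ M`. Conclude for all elements of `O[ξ]` by `Filt O ξ T` (as in the
proof of `spr` in Spr.lean). -/
def S_DSTAB : Prop := ∀ (K L : Type) [Field K] [Algebra ℂ K] [Field L] [Algebra ℂ L] [Algebra L K]
  [IsScalarTower ℂ L K] [FiniteDimensional L K] (N m r T : ℕ) (O : ValuationSubring L)
  [Algebra O K] [IsScalarTower O L K] (hO : ∀ a : ℂ, algebraMap ℂ L a ∈ O) (ξ : Fin N → K)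
  (i : Fin N), ξ i = 1 → (∀ j, IsIntegral O (ξ j)) →
  (∀ f : Fin (r + 1) → Fin N, ∃ s : Finset (Fin (r + 1)), s.Nonempty ∧
    ∃ b : L, algebraMap L K b = ∏ k ∈ s, ξ (f k)) →
  Filt O ξ T → r + 1 + T = m →
  ∀ (S : Set K) (τ : K →ₗ[L] L) (M : Submodule O L), (∀ z ∈ M, z ∈ O.nonunits) →
  (∀ f : Fin m → Fin N, ∀ s ∈ S, ∃ a : ℂ, τ ((∏ k, ξ (f k)) * s) - algebraMap ℂ L a ∈ M) →
  ∀ F : MvPolynomial (Fin N) ℂ, F.IsHomogeneous (r + 1) →
    ∃ g : MvPolynomial (Fin N) ℂ, g.IsHomogeneous r ∧ F - X i * g ∈ JJ O hO ξ S τ M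

end Pool.Agent.H90.VA
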