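import Pool.Agent.H90.VA.Stm

set_option autoImplicit false

namespace Pool.Agent.H90.VA

open Module MvPolynomial

theorem glob : S_GLOB := by
  intro K L _ _ _ _ _ _ _ N M O _ _ hO ξ hint u hu c huc τ hyp
  classical
  obtain ⟨J, hJ⟩ : ∃ J : Ideal (Algebra.adjoin O (Set.range ξ)), ∀ b, b ∈ J ↔
      ∀ c' ∈ Algebra.adjoin O (Set.range ξ), τ ((b : K) * c') ∈ O.nonunits := by
    refine ⟨{ carrier := {b | ∀ c' ∈ Algebra.adjoin O (Set.range ξ), τ ((b : K) * c') ∈ O.nonunits}
              zero_mem' := ?_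
              add_mem' := ?_
              smul_mem' := ?_ }, fun b => Iff.rfl⟩
    · intro a b ha hb c' hc'
      have h1 : ((a + b : Algebra.adjoin O (Set.range ξ)) : K) * c' = a * c' + b * c' := by
        rw [AddMemClass.coe_add]
        ring
      rw [h1, map_add]
      exact add_mem (ha c' hc') (hb c' hc')
    · intro c' _
      rw [ZeroMemClass.coe_zero, zero_mul, map_zero]
      exact zero_mem _
    · intro g a ha c' hc'
      have h1 : ((g • a : Algebra.adjoin O (Set.range ξ)) : K) * c' = a * (g * c') := by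
        change ((g : K) * (a : K)) * c' = _
        ring
      rw [h1]
      exact ha _ (mul_mem g.2 hc')
  have h1 : J = ⊤ := by
    by_contra hne
    obtain ⟨I, hI, hle⟩ := Ideal.exists_le_maximal _ hne
    obtain ⟨κ, i1, i2, q, hq, hb⟩ := exists_residue O hO ξ hint u hu c huc I hI
    obtain ⟨B, hB, hB2⟩ := hyp κ q hq
    have hmem := aeval_mem O hO ξ B
    exact hb B ⟨aeval ξ B, hmem⟩ rfl hB (hle ((hJ _).2 hB2))
  have h2 : (1 : Algebra.adjoin O (Set.range ξ)) ∈ J := by
    rw [h1]
    exact Submodule.mem_top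
  have h3 := (hJ _).1 h2 1 (one_mem _)
  rwa [OneMemClass.coe_one, mul_one] at h3

end Pool.Agent.H90.VA
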