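import Pool.Agent.H90.VA.Stm

set_option autoImplicit false

namespace Pool.Agent.H90.VA

open Module MvPolynomial

namespace LOW

theorem smulC {L : Type} [Field L] [Algebra ℂ L] {O : ValuationSubring L}
    (hO : ∀ a : ℂ, algebraMap ℂ L a ∈ O) (M : Submodule O L) (a : ℂ) {x : L} (hx : x ∈ M) :
    algebraMap ℂ L a * x ∈ M := by
  have h := M.smul_mem (⟨algebraMap ℂ L a, hO a⟩ : O) hx
  exact h

theorem const_eq_zero {L : Type} [Field L] [Algebra ℂ L] {O : ValuationSubring L}
    (hO : ∀ a : ℂ, algebraMap ℂ L a ∈ O) (a : ℂ) (ha : algebraMap ℂ L a ∈ O.nonunits) : a = 0 := by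
  by_contra hne
  rw [O.mem_nonunits_iff] at ha
  have h1 : algebraMap ℂ L a * algebraMap ℂ L a⁻¹ = 1 := by
    rw [← map_mul, mul_inv_cancel₀ hne, map_one]
  have h2 : O.valuation (algebraMap ℂ L a) * O.valuation (algebraMap ℂ L a⁻¹) = 1 := by
    rw [← map_mul, h1, map_one]
  have h3 := (O.valuation_le_one_iff _).2 (hO a⁻¹)
  have h4 : O.valuation (algebraMap ℂ L a) * O.valuation (algebraMap ℂ L a⁻¹) < 1 :=
    lt_of_le_of_lt (mul_le_of_le_one_right' h3) ha
  rw [h2] at h4
  exact lt_irrefl _ h4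

theorem prod_mem {K L : Type} [Field K] [Field L] [Algebra L K] {N T : ℕ}
    (O : ValuationSubring L) [Algebra O K] (ξ : Fin N → K) (f : Fin T → Fin N) :
    (∏ k, ξ (f k)) ∈ Algebra.adjoin O (Set.range ξ) :=
  Subalgebra.prod_mem _ fun k _ => Algebra.subset_adjoin ⟨f k, rfl⟩

end LOW

open LOW in
theorem low : S_SPAN → S_SPR → S_LOW := by
  intro hspan hspr K L _ _ _ _ _ _ _ N m r T O _ _ hO ξ hint h1 S τ M hT hm hM hval hred F hF
  obtain ⟨g, hg, hFg⟩ := hred F
  -- `g ∈ JJ (sc O 1)`
  have hsub : ∀ z ∈ M, z ∈ sc O (1 : L) := fun z hz => ⟨z, hM z hz, by rw [one_mul]⟩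
  have hg1 : g ∈ JJ O hO ξ S τ (sc O 1) := by
    have h2 : F - g ∈ JJ O hO ξ S τ (sc O 1) := by
      intro c hc s hs
      exact hsub _ (hFg c hc s hs)
    have h3 : g = F - (F - g) := by ring
    rw [h3]
    exact Ideal.sub_mem _ hF h2
  have hg2 : g ∈ JJ O hO ξ S τ M := by
    intro c hc s hs
    have key : ∀ G : MvPolynomial (Fin N) ℂ, G.IsHomogeneous m →
        ∃ a : ℂ, τ (aeval ξ G * s) - algebraMap ℂ L a ∈ M := by
      intro G hG
      have h4 := hspan N m G hG
      clear hG
      induction h4 using Submodule.span_induction with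
      | mem x hx =>
        obtain ⟨f, rfl⟩ := hx
        obtain ⟨a, ha⟩ := hval f s hs
        refine ⟨a, ?_⟩
        simpa [map_prod] using ha
      | zero => exact ⟨0, by simp⟩
      | add x y hx hy h1 h2 =>
        obtain ⟨a, ha⟩ := h1
        obtain ⟨b, hb⟩ := h2
        refine ⟨a + b, ?_⟩
        have h5 : τ (aeval ξ (x + y) * s) - algebraMap ℂ L (a + b) =
            (τ (aeval ξ x * s) - algebraMap ℂ L a) + (τ (aeval ξ y * s) - algebraMap ℂ L b) := by
          rw [map_add (aeval ξ), add_mul, map_add τ, map_add (algebraMap ℂ L)]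
          ring
        rw [h5]
        exact add_mem ha hb
      | smul b x hx h1 =>
        obtain ⟨a, ha⟩ := h1
        refine ⟨b * a, ?_⟩
        have h5 : τ (aeval ξ (b • x) * s) - algebraMap ℂ L (b * a) =
            algebraMap ℂ L b * (τ (aeval ξ x * s) - algebraMap ℂ L a) := by
          have h6 : aeval ξ (b • x) * s = (algebraMap ℂ L b) • (aeval ξ x * s) := by
            rw [map_smul, smul_mul_assoc, algebraMap_smul]
          rw [h6, LinearMap.map_smul, smul_eq_mul, map_mul (algebraMap ℂ L)]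
          ring
        rw [h5]
        exact smulC hO M b ha
    have h5 : τ (c * (aeval ξ g * s)) ∈ M := by
      apply hspr K L N T O ξ hint h1 hT M τ (aeval ξ g * s) _ c hc
      intro f
      have h6 : (g * ∏ k, X (f k)).IsHomogeneous m := by
        rw [← hm]
        apply hg.mul
        have := MvPolynomial.IsHomogeneous.prod Finset.univ (fun k => (X (f k) : MvPolynomial (Fin N) ℂ))
          (fun _ => 1) (fun k _ => isHomogeneous_X ℂ (f k))
        simpa using this
      obtain ⟨a, ha⟩ := key _ h6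
      have h7 : aeval ξ (g * ∏ k, X (f k)) * s = (∏ k, ξ (f k)) * (aeval ξ g * s) := by
        rw [map_mul, map_prod]
        simp only [aeval_X]
        ring
      rw [h7] at ha
      have h8 : τ ((∏ k, ξ (f k)) * (aeval ξ g * s)) ∈ O.nonunits := by
        have h9 := hg1 (∏ k, ξ (f k)) (prod_mem O ξ f) s hs
        obtain ⟨z, hz, h10⟩ := h9
        have h11 : (∏ k, ξ (f k)) * (aeval ξ g * s) = aeval ξ g * (∏ k, ξ (f k)) * s := by ring
        rw [h11, h10, one_mul]
        exact hz
      have h9 : algebraMap ℂ L a ∈ O.nonunits := by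
        have h10 : algebraMap ℂ L a = τ ((∏ k, ξ (f k)) * (aeval ξ g * s)) +
            -(τ ((∏ k, ξ (f k)) * (aeval ξ g * s)) - algebraMap ℂ L a) := by ring
        rw [h10]
        exact add_mem h8 (hM _ (M.neg_mem ha))
      rw [const_eq_zero hO a h9, map_zero, sub_zero] at ha
      exact ha
    have h6 : aeval ξ g * c * s = c * (aeval ξ g * s) := by ring
    rw [h6]
    exact h5
  have h3 : F = (F - g) + g := by ring
  rw [h3]
  exact Ideal.add_mem _ hFg hg2

end Pool.Agent.H90.VA
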