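import Pool.Agent.H90.VA.Tay

/-!
QUO: Taylor expansion of quotients.
-/

set_option autoImplicit false
set_option linter.unusedSectionVars false
set_option linter.overlappingInstances false

namespace Pool.Agent.H90.VA

open Module MvPolynomial

open Tay68 in
theorem quo : S_TAY → S_QUO := by
  intro hT L _ _ O hO M u p v t ht hu A B f hB hf
  have hA' := hT L O hO M u p v t ht hu A
  have hB' := hT L O hO M u p v t ht hu B
  have ht' : t ∈ O := nonunits_mem ht
  set b : ℂ := aeval p B with hb
  set a : ℂ := aeval p A with ha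
  set b' : ℂ := dd p v B
  set a' : ℂ := dd p v A
  set β : L := aeval u B with hβ
  set α : L := aeval u A with hα
  have hbL : algebraMap ℂ L b ≠ 0 := by
    rw [Ne, map_eq_zero]
    exact hB
  -- `β` is a unit
  have hn : β - algebraMap ℂ L b ∈ O.nonunits := by
    obtain ⟨z, hz, hz'⟩ := hB'
    have h1 : β - algebraMap ℂ L b = (z + algebraMap ℂ L b') * t := by
      linear_combination hz'
    rw [h1]
    exact nonunits_mul ht (add_mem (nonunits_mem hz) (hO b'))
  have hvb : O.valuation (algebraMap ℂ L b) = 1 := by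
    refine le_antisymm ((O.valuation_le_one_iff _).2 (hO b)) ?_
    have h1 : O.valuation (algebraMap ℂ L b⁻¹) ≤ 1 := (O.valuation_le_one_iff _).2 (hO b⁻¹)
    have h2 : O.valuation (algebraMap ℂ L b) * O.valuation (algebraMap ℂ L b⁻¹) = 1 := by
      rw [← map_mul, ← map_mul, mul_inv_cancel₀ hB, map_one, map_one]
    calc (1 : O.ValueGroup) = O.valuation (algebraMap ℂ L b) * O.valuation (algebraMap ℂ L b⁻¹) := h2.symm
      _ ≤ O.valuation (algebraMap ℂ L b) * 1 := by gcongr
      _ = _ := mul_one _
  have hvβ : O.valuation β = 1 := by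
    have h1 : β = (β - algebraMap ℂ L b) + algebraMap ℂ L b := by ring
    rw [h1, Valuation.map_add_eq_of_lt_right]
    · exact hvb
    · rw [hvb]
      exact O.mem_nonunits_iff.1 hn
  have hβ0 : β ≠ 0 := by
    intro h
    rw [h, map_zero] at hvβ
    exact zero_ne_one hvβ
  have hβi : β⁻¹ ∈ O := by
    rw [← O.valuation_le_one_iff, map_inv₀, hvβ, inv_one]
  -- the expansion of the inverse
  set g : L := algebraMap ℂ L (a / b) + t * algebraMap ℂ L ((a' * b - a * b') / b ^ 2) with hg
  have hg1 : g - algebraMap ℂ L (a / b) - t * algebraMap ℂ L ((a' * b - a * b') / b ^ 2) ∈ sc O t := by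
    rw [hg]
    ring_nf
    exact zero_mem _
  have h3 := mul_tay hO ht hB' hg1
  have h4 : b * (a / b) = a := mul_div_cancel₀ a hB
  have h5 : b' * (a / b) + b * ((a' * b - a * b') / b ^ 2) = a' := by
    field_simp
    ring
  rw [h4, h5] at h3
  have h6 : f - g ∈ sc O t := by
    have h7 : f - g = β⁻¹ * ((α - algebraMap ℂ L a - t * algebraMap ℂ L a')
        - (β * g - algebraMap ℂ L a - t * algebraMap ℂ L a')) := by
      rw [← hf]
      field_simp
      ring
    rw [h7]
    exact sc_mul (sub_mem hA' h3) hβi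
  have h8 : f - algebraMap ℂ L (a / b) - t * algebraMap ℂ L ((a' * b - a * b') / b ^ 2) = f - g := by
    rw [hg]
    ring
  rw [h8]
  exact h6

end Pool.Agent.H90.VA
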