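import Pool.Agent.H90.VA.Stm

set_option autoImplicit false

namespace Pool.Agent.H90.VA

open Module MvPolynomial

theorem red : S_RED := by
  intro N r J lam hlam h1 hstab F
  induction F using MvPolynomial.induction_on with
  | C a =>
    refine ⟨C a * lam ^ r, ?_, ?_⟩
    · have h2 := (isHomogeneous_C (Fin N) a).mul (hlam.pow r)
      simpa using h2
    · have h2 : lam ^ r - 1 ∈ J := by
        have h3 : lam - 1 ∣ lam ^ r - 1 := by
          have := sub_dvd_pow_sub_pow lam 1 r
          simpa using this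
        exact J.mem_of_dvd h3 h1
      have h4 : C a - C a * lam ^ r = (-C a) * (lam ^ r - 1) := by ring
      rw [h4]
      exact J.mul_mem_left _ h2
  | add f g hf hg =>
    obtain ⟨g1, h2, h3⟩ := hf
    obtain ⟨g2, h4, h5⟩ := hg
    refine ⟨g1 + g2, h2.add h4, ?_⟩
    have h6 : f + g - (g1 + g2) = (f - g1) + (g - g2) := by ring
    rw [h6]
    exact J.add_mem h3 h5
  | mul_X f i hf =>
    obtain ⟨g', hg', h2⟩ := hf
    obtain ⟨g, hg, h3⟩ := hstab (g' * X i) (hg'.mul (isHomogeneous_X ℂ i))
    refine ⟨g, hg, ?_⟩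
    have h6 : f * X i - g = X i * (f - g') + (g' * X i - lam * g) + g * (lam - 1) := by ring
    rw [h6]
    exact J.add_mem (J.add_mem (J.mul_mem_left _ h2) h3) (J.mul_mem_left _ h1)

end Pool.Agent.H90.VA
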