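import Pool.Agent.H90.VA.Stm

/-!
SPR: values on monomials of degree `T` determine the values on `O[ξ]`.
-/

set_option autoImplicit false
set_option linter.unusedSectionVars false
set_option linter.overlappingInstances false

namespace Pool.Agent.H90.VA

open Module

theorem spr : S_SPR := by
  intro K L _ _ _ _ N T O _ _ ξ hint hone hd M τ z hτ c hc
  have h2 : c ∈ (Submodule.span O (Set.range ξ)) ^ T := filt (L := L) ξ hint hone hd hc
  rw [Submodule.span_pow] at h2
  refine Submodule.span_induction (p := fun c _ => τ (c * z) ∈ M) ?_ ?_ ?_ ?_ h2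
  · intro c hc
    obtain ⟨f, hf⟩ := Set.mem_pow.1 hc
    choose g hg using fun k => (f k).2
    have h3 := hτ g
    have h4 : ∏ k, ξ (g k) = c := by
      rw [← hf, List.prod_ofFn]
      exact Finset.prod_congr rfl fun k _ => hg k
    rwa [h4] at h3
  · rw [zero_mul, map_zero]
    exact zero_mem _
  · intro a b _ _ ha hb
    rw [add_mul, map_add]
    exact add_mem ha hb
  · intro a b _ hb
    rw [smul_mul_assoc, ← algebraMap_smul L a (b * z), map_smul]
    rw [algebraMap_smul]
    exact M.smul_mem a hb

end Pool.Agent.H90.VA
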