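import Pool.Agent.H90.VA.Stm

/-!
Project VA: stabilisation.
-/

set_option autoImplicit false

namespace Pool.Agent.H90.VA

open MvPolynomial

/-- the image of the forms of degree `d` in the quotient -/
noncomputable def BB {N : ℕ} (J : Ideal (MvPolynomial (Fin N) ℂ)) (d : ℕ) :
    Submodule ℂ (MvPolynomial (Fin N) ℂ ⧸ J) :=
  (homogeneousSubmodule (Fin N) ℂ d).map (Ideal.Quotient.mkₐ ℂ J).toLinearMap

theorem mem_BB {N : ℕ} {J : Ideal (MvPolynomial (Fin N) ℂ)} {d : ℕ}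
    {x : MvPolynomial (Fin N) ℂ ⧸ J} :
    x ∈ BB J d ↔ ∃ F : MvPolynomial (Fin N) ℂ, F.IsHomogeneous d ∧ Ideal.Quotient.mk J F = x := by
  unfold BB
  rw [Submodule.mem_map]
  constructor
  · rintro ⟨F, hF, h⟩
    exact ⟨F, (mem_homogeneousSubmodule _ _).1 hF, h⟩
  · rintro ⟨F, hF, h⟩
    exact ⟨F, (mem_homogeneousSubmodule _ _).2 hF, h⟩

theorem BB_fin {N : ℕ} (J : Ideal (MvPolynomial (Fin N) ℂ)) (d : ℕ) :
    Module.Finite ℂ (BB J d) := by
  rw [Module.Finite.iff_fg]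
  unfold BB
  exact (homogeneousSubmodule_fg (R := ℂ) (σ := Fin N) d).map _

theorem mk_lam {N : ℕ} {J : Ideal (MvPolynomial (Fin N) ℂ)} {lam : MvPolynomial (Fin N) ℂ}
    (hl : lam - 1 ∈ J) : Ideal.Quotient.mk J lam = 1 := by
  rw [← sub_eq_zero, ← map_one (Ideal.Quotient.mk J), ← map_sub, Ideal.Quotient.eq_zero_iff_mem]
  exact hl

theorem BB_mono {N : ℕ} {J : Ideal (MvPolynomial (Fin N) ℂ)} {lam : MvPolynomial (Fin N) ℂ}
    (hlam : lam.IsHomogeneous 1) (hl : lam - 1 ∈ J) (d : ℕ) : BB J d ≤ BB J (d + 1) := by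
  intro x hx
  obtain ⟨F, hF, rfl⟩ := mem_BB.1 hx
  refine mem_BB.2 ⟨lam * F, ?_, ?_⟩
  · rw [add_comm d 1]
    exact hlam.mul hF
  · rw [map_mul, mk_lam hl, one_mul]

theorem BB_step (hform : S_FORM) {N : ℕ} {J : Ideal (MvPolynomial (Fin N) ℂ)}
    {d : ℕ} (h : BB J (d + 1) ≤ BB J d) : BB J (d + 2) ≤ BB J (d + 1) := by
  intro x hx
  obtain ⟨F, hF, rfl⟩ := mem_BB.1 hx
  refine hform N (d + 1) (fun F => Ideal.Quotient.mk J F ∈ BB J (d + 1)) ?_ ?_ ?_ F hF
  · rw [map_zero]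
    exact zero_mem _
  · intro F G _ _ h1 h2
    rw [map_add]
    exact add_mem h1 h2
  · intro i F' hF'
    obtain ⟨G, hG, hG'⟩ := mem_BB.1 (h (mem_BB.2 ⟨F', hF', rfl⟩))
    refine mem_BB.2 ⟨X i * G, ?_, ?_⟩
    · rw [add_comm d 1]
      exact (isHomogeneous_X ℂ i).mul hG
    · rw [map_mul, map_mul, hG']

theorem BB_stab (hform : S_FORM) {N : ℕ} {J : Ideal (MvPolynomial (Fin N) ℂ)}
    {d : ℕ} (h : BB J (d + 1) ≤ BB J d) (k : ℕ) : BB J (d + k + 1) ≤ BB J (d + k) := by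
  induction k with
  | zero => exact h
  | succ k ih => exact BB_step hform ih

theorem stab : S_FORM → S_STAB := by
  intro hform N r J lam hlam hl hdep F hF
  -- the case `1 ∈ J`
  by_cases h1J : (1 : MvPolynomial (Fin N) ℂ) ∈ J
  · refine ⟨0, isHomogeneous_zero _ _ _, ?_⟩
    have := J.mul_mem_left (F - lam * 0) h1J
    rwa [mul_one] at this
  have hfin : ∀ d, Module.Finite ℂ (BB J d) := BB_fin J
  -- the dimension of `BB J (r + 1)`
  have hrk : Module.finrank ℂ (BB J (r + 1)) ≤ r + 1 := by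
    by_contra hcon
    push Not at hcon
    have h2 : r + 2 ≤ Module.finrank ℂ (BB J (r + 1)) := hcon
    let b := Module.finBasis ℂ (BB J (r + 1))
    have hb := b.linearIndependent
    let e : Fin (r + 2) → Fin (Module.finrank ℂ (BB J (r + 1))) := Fin.castLE h2
    have he : Function.Injective e := Fin.castLE_injective h2
    have hli := hb.comp e he
    have h3 : ∀ i : Fin (r + 2), ∃ G : MvPolynomial (Fin N) ℂ, G.IsHomogeneous (r + 1) ∧
        Ideal.Quotient.mk J G = ((b (e i) : BB J (r + 1)) : MvPolynomial (Fin N) ℂ ⧸ J) :=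
      fun i => mem_BB.1 (b (e i)).2
    choose G hG1 hG2 using h3
    obtain ⟨c, hc, hcJ⟩ := hdep G hG1
    apply hc
    have h4 : ∑ i, c i • (b (e i)) = 0 := by
      apply Subtype.ext
      rw [Submodule.coe_sum, Submodule.coe_zero]
      have h5 := Ideal.Quotient.eq_zero_iff_mem.2 hcJ
      rw [map_sum] at h5
      rw [← h5]
      refine Finset.sum_congr rfl fun i _ => ?_
      rw [Submodule.coe_smul, ← hG2 i, ← smul_eq_C_mul]
      exact ((Ideal.Quotient.mkₐ ℂ J).toLinearMap.map_smul (c i) (G i)).symm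
    exact funext fun i => Fintype.linearIndependent_iff.1 hli c h4 i
  -- some inclusion is an equality
  have hex : ∃ d, d ≤ r ∧ BB J (d + 1) ≤ BB J d := by
    by_contra hcon
    push Not at hcon
    have h2 : ∀ d, d ≤ r + 1 → d + 1 ≤ Module.finrank ℂ (BB J d) := by
      intro d
      induction d with
      | zero =>
        intro _
        have h3 : (1 : MvPolynomial (Fin N) ℂ ⧸ J) ∈ BB J 0 :=
          mem_BB.2 ⟨1, isHomogeneous_one _ _, map_one _⟩
        have h4 : (1 : MvPolynomial (Fin N) ℂ ⧸ J) ≠ 0 := by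
          intro h5
          rw [← map_one (Ideal.Quotient.mk J), Ideal.Quotient.eq_zero_iff_mem] at h5
          exact h1J h5
        have h5 : Nontrivial (BB J 0) :=
          ⟨⟨⟨1, h3⟩, 0, fun h6 => h4 (congrArg Subtype.val h6)⟩⟩
        have h6 : 0 < Module.finrank ℂ (BB J 0) := Module.finrank_pos
        omega
      | succ d ih =>
        intro hd
        have h3 := ih (by omega)
        have h4 : BB J d < BB J (d + 1) :=
          lt_of_le_not_ge (BB_mono hlam hl d) (hcon d (by omega))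
        have h5 := Submodule.finrank_lt_finrank_of_lt h4
        omega
    have h3 := h2 (r + 1) le_rfl
    omega
  obtain ⟨d, hd, hdd⟩ := hex
  have h6 := BB_stab hform hdd (r - d)
  rw [Nat.add_sub_cancel' hd] at h6
  obtain ⟨g, hg1, hg2⟩ := mem_BB.1 (h6 (mem_BB.2 ⟨F, hF, rfl⟩))
  refine ⟨g, hg1, ?_⟩
  rw [← Ideal.Quotient.eq_zero_iff_mem, map_sub, map_mul, mk_lam hl, one_mul, hg2, sub_self]

end Pool.Agent.H90.VA
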