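import Pool.Agent.H90.VA.Stm

/-!
Project VA: forms in `J` vanish at `q`.
-/

set_option autoImplicit false

namespace Pool.Agent.H90.VA

open MvPolynomial

theorem van_one_mem {N : ℕ} {J : Ideal (MvPolynomial (Fin N) ℂ)} {lam : MvPolynomial (Fin N) ℂ}
    (hl : lam - 1 ∈ J) (k : ℕ) (g : MvPolynomial (Fin N) ℂ) : lam ^ k * g - g ∈ J := by
  have h1 : lam ^ k - 1 ∈ J := by
    rw [← Ideal.Quotient.eq_zero_iff_mem, map_sub, map_pow]
    have h2 : Ideal.Quotient.mk J lam = 1 := by
      rw [← sub_eq_zero, ← map_one (Ideal.Quotient.mk J), ← map_sub, Ideal.Quotient.eq_zero_iff_mem]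
      exact hl
    rw [h2, one_pow, map_one, sub_self]
  have h3 : lam ^ k * g - g = g * (lam ^ k - 1) := by ring
  rw [h3]
  exact J.mul_mem_left g h1

theorem van : S_FORM → S_VAN := by
  intro hform N r J lam hlam hl hstab κ _ _ q hq hvan
  -- degree `r + k`
  have key : ∀ k : ℕ, ∀ F : MvPolynomial (Fin N) ℂ, F.IsHomogeneous (r + k) →
      ∃ g : MvPolynomial (Fin N) ℂ, g.IsHomogeneous r ∧ F - lam ^ k * g ∈ J ∧
        aeval q F = aeval q lam ^ k * aeval q g := by
    intro k
    induction k with
    | zero =>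
      intro F hF
      refine ⟨F, hF, ?_, ?_⟩
      · rw [pow_zero, one_mul, sub_self]
        exact J.zero_mem
      · rw [pow_zero, one_mul]
    | succ k ih =>
      intro F hF
      refine hform N (r + k) (fun F => ∃ g : MvPolynomial (Fin N) ℂ, g.IsHomogeneous r ∧
        F - lam ^ (k + 1) * g ∈ J ∧ aeval q F = aeval q lam ^ (k + 1) * aeval q g) ?_ ?_ ?_ F hF
      · refine ⟨0, isHomogeneous_zero _ _ _, ?_, ?_⟩
        · rw [mul_zero, sub_zero]
          exact J.zero_mem
        · rw [map_zero, mul_zero]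
      · rintro F G - - ⟨g, hg1, hg2, hg3⟩ ⟨g', hg1', hg2', hg3'⟩
        refine ⟨g + g', hg1.add hg1', ?_, ?_⟩
        · have h1 : F + G - lam ^ (k + 1) * (g + g') =
              (F - lam ^ (k + 1) * g) + (G - lam ^ (k + 1) * g') := by ring
          rw [h1]
          exact J.add_mem hg2 hg2'
        · rw [map_add, map_add, hg3, hg3']
          ring
      · intro i F' hF'
        obtain ⟨g', h1, h2, h3⟩ := ih F' hF'
        have h4 : (X i * g').IsHomogeneous (r + 1) := by
          rw [add_comm r 1]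
          exact (isHomogeneous_X ℂ i).mul h1
        obtain ⟨g, h5, h6⟩ := hstab _ h4
        have h7 : (X i * g' - lam * g).IsHomogeneous (r + 1) := by
          refine h4.sub ?_
          rw [add_comm r 1]
          exact hlam.mul h5
        have h8 := hvan _ h6 h7
        rw [map_sub, map_mul, map_mul, aeval_X, sub_eq_zero] at h8
        refine ⟨g, h5, ?_, ?_⟩
        · have h9 : X i * F' - lam ^ (k + 1) * g =
              X i * (F' - lam ^ k * g') + lam ^ k * (X i * g' - lam * g) := by ring
          rw [h9]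
          exact J.add_mem (J.mul_mem_left _ h2) (J.mul_mem_left _ h6)
        · rw [map_mul, aeval_X, h3, pow_succ, mul_assoc, ← h8]
          ring
  intro e F hFJ hF
  rcases Nat.lt_or_ge (r + 1) e with he | he
  · obtain ⟨k, rfl⟩ : ∃ k, e = r + (k + 1) := ⟨e - r - 1, by omega⟩
    obtain ⟨g, h1, h2, h3⟩ := key (k + 1) F hF
    have h4 : g ∈ J := by
      have h5 : lam ^ (k + 1) * g ∈ J := by
        have := J.sub_mem hFJ h2
        rwa [sub_sub_cancel] at this
      have := J.sub_mem h5 (van_one_mem hl (k + 1) g)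
      rwa [sub_sub_cancel] at this
    have h6 : aeval q (lam * g) = 0 := hvan _ (J.mul_mem_left _ h4) (by
      rw [add_comm r 1]
      exact hlam.mul h1)
    rw [map_mul] at h6
    rw [h3, pow_succ, mul_assoc, h6, mul_zero]
  · obtain ⟨i, hi⟩ : ∃ i, q i ≠ 0 := by
      by_contra hcon
      push Not at hcon
      exact hq (funext hcon)
    obtain ⟨k, hk⟩ : ∃ k, k + e = r + 1 := ⟨r + 1 - e, by omega⟩
    have h1 : (X i ^ k * F).IsHomogeneous (r + 1) := by
      rw [← hk]
      exact (isHomogeneous_X_pow i k).mul hF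
    have h2 := hvan _ (J.mul_mem_left _ hFJ) h1
    rw [map_mul, map_pow, aeval_X] at h2
    exact (mul_eq_zero.1 h2).resolve_left (pow_ne_zero k hi)

end Pool.Agent.H90.VA
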