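import Pool.Agent.H90.P.H614.BF.Fuj
import Pool.Agent.H90.VA.Tan
import Pool.Agent.H90.VA.Blow
import Pool.Agent.H90.VA.Dep
import Pool.Agent.H90.VA.Form
import Pool.Agent.H90.VA.Glob
import Pool.Agent.H90.VA.Low
import Pool.Agent.H90.VA.Quo
import Pool.Agent.H90.VA.Red
import Pool.Agent.H90.VA.Span
import Pool.Agent.H90.VA.Spr
import Pool.Agent.H90.VA.Stab
import Pool.Agent.H90.VA.Van

/-!
Adjoint line bundles on images: separation of points and of tangent directions.
-/

set_option autoImplicit false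
set_option linter.unusedSectionVars false
set_option linter.overlappingInstances false

open FF Module Pool.Agent.W602.GT Pool.Agent.W603.LV Pool.Agent.W619.PQ Pool.Agent.Y172
open Pool.Agent.Y184.NT

namespace Pool.Agent.H90.VA

open Pool.Agent.H614.BF (SectionAt Generates RegularFunctions wr pForm pForm_pluri pForm_frame
  fuj_section fuj_local)

section

variable {K L : Type} [Field K] [Algebra ℂ K] [Field L] [Algebra ℂ L] [Algebra L K]
  [IsScalarTower ℂ L K] [FiniteDimensional L K] {n m N M : ℕ}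

theorem sectionAt_zero (a : Place ℂ L → ℤ) (P : Place ℂ L) (z : Fin n → L) :
    SectionAt a P (pForm 1 z (0 : L)) := by
  intro D _
  left
  unfold pForm
  rw [mul_zero]

theorem sectionAt_add (a : Place ℂ L → ℤ) (P : Place ℂ L) (z : Fin n → L) {u w : L}
    (hu : SectionAt a P (pForm 1 z u)) (hw : SectionAt a P (pForm 1 z w)) :
    SectionAt a P (pForm 1 z (u + w)) := by
  intro D hD
  have h1 : Ge P (- a P) (pForm 1 z u D) := hu D hD
  have h2 : Ge P (- a P) (pForm 1 z w D) := hw D hD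
  have h3 : pForm 1 z (u + w) D = pForm 1 z u D + pForm 1 z w D := by
    unfold pForm
    rw [mul_add]
  rw [h3]
  exact h1.add h2

theorem sectionAt_smul (a : Place ℂ L → ℤ) (P : Place ℂ L) (z : Fin n → L) (c : ℂ) {w : L}
    (hw : SectionAt a P (pForm 1 z w)) :
    SectionAt a P (pForm 1 z (algebraMap ℂ L c * w)) := by
  intro D hD
  have h2 : Ge P (- a P) (pForm 1 z w D) := hw D hD
  have h1 : Ge P 0 (algebraMap ℂ L c) := P.reg_const c
  have h3 : pForm 1 z (algebraMap ℂ L c * w) D = algebraMap ℂ L c * pForm 1 z w D := by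
    unfold pForm
    ring
  rw [h3]
  have h4 := h1.mul h2
  rw [zero_add] at h4
  exact h4

/-- the data of the trace construction -/
theorem data [Algebra.EssFiniteType ℂ K] (hK : Algebra.trdeg ℂ K = n) {x : Fin N → K}
    (hx : x ≠ 0) {y : Fin M → L} (a : Place ℂ L → ℤ) {φ : K} (hφ : φ ≠ 0)
    (hglob : ∀ (Q : Place ℂ K) (P : Place ℂ L) (e : ℕ), Over Q P e → Divisorial n Q →
      ∀ i, x i ≠ 0 → Q.ord φ ≤ e * a P + ((m + (n + 1) : ℕ) : ℤ) * Q.ord (x i)) :
    ∃ (z : Fin n → L) (E : Fin n → Derivation ℂ L L) (S0 : Set K),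
      (∀ i j, E i (z j) = if i = j then 1 else 0) ∧
      (∀ θ : (Fin n → Derivation ℂ L L) → L, IsPluri 1 θ →
        ∀ D, θ D = (Matrix.of fun i j => D i (z j)).det ^ 1 * θ E) ∧
      (∀ s ∈ S0, ∀ G : MvPolynomial (Fin N) ℂ, G.IsHomogeneous m → ∀ P : Place ℂ L,
        Divisorial n P →
        SectionAt a P (pForm 1 z (Algebra.trace L K (MvPolynomial.aeval x G * s)))) ∧
      ∀ (p : Fin M → ℂ), IsPoint y p → ∀ (g : L) (t : Fin n → L), RegularFunctions y p t →
        (∀ (κ : Type) [Field κ] [Algebra ℂ κ] (q : Fin N → κ), InGraph x y q p →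
          Defined x y q ∧ ∃ (e : ℕ) (A B : MvPolynomial (Fin N) ℂ),
            A.IsHomogeneous (e + (m + (n + 1))) ∧ B.IsHomogeneous e ∧
            MvPolynomial.aeval q B ≠ 0 ∧
            MvPolynomial.aeval x B * (φ * algebraMap L K g) = MvPolynomial.aeval x A) →
        ∀ (κ : Type) [Field κ] [Algebra ℂ κ] (q : Fin N → κ), IsPoint x q →
          InGraph x y q p →
          (∀ (d : ℕ) (F : Fin M → MvPolynomial (Fin N) ℂ), (∀ j, (F j).IsHomogeneous d) →
            (∀ j k, algebraMap L K (y j) * MvPolynomial.aeval x (F k) =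
              algebraMap L K (y k) * MvPolynomial.aeval x (F j)) →
            ∀ j k, MvPolynomial.aeval q (F j) * algebraMap ℂ κ (p k) =
              MvPolynomial.aeval q (F k) * algebraMap ℂ κ (p j)) →
          Defined x y q ∧
          ∃ (e s : ℕ) (B : MvPolynomial (Fin N) ℂ) (A : Fin s → MvPolynomial (Fin N) ℂ)
            (w : Fin s → K), B.IsHomogeneous e ∧ MvPolynomial.aeval q B ≠ 0 ∧
            (∀ i, (A i).IsHomogeneous (e + m)) ∧ (∀ i, w i ∈ S0) ∧
            MvPolynomial.aeval x B * algebraMap L K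
              (g * (Matrix.of fun i j => E i (t j) : Matrix (Fin n) (Fin n) L).det) =
              ∑ i, MvPolynomial.aeval x (A i) * w i := by
  classical
  have hessL : Algebra.EssFiniteType ℂ L := Pool.Agent.TH466.QG.ess_below (K := K)
  have hL : Algebra.trdeg ℂ L = n := Pool.Agent.Y184.NT.trdeg_below (K := K) hK
  obtain ⟨z, E, hz, hE⟩ := Pool.Agent.Y172.exists_crd (k := ℂ) (K := L) hL
  choose E' hE' using fun i => Pool.Agent.Y172.exists_lift (k := ℂ) (K := L) (L := K) hL (E i)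
  refine ⟨z, E, {w | ∃ I : Fin (n + 1) → Fin N, w = φ⁻¹ * wr (fun b => x (I b)) E'}, hE,
    fun θ hθ D => pluri_coord hz hE hθ D, ?_, ?_⟩
  · rintro _ ⟨I, rfl⟩ G hG P hP
    exact form_closed (span form) (fun u => SectionAt a P (pForm 1 z u))
      (sectionAt_zero a P z) (fun _ _ => sectionAt_add a P z) (fun c _ => sectionAt_smul a P z c)
      (Algebra.trace L K) (fun f => fuj_section hK hx a hglob hz hE hE' I f P hP) G hG
  · intro p hp g t ht h κ _ _ q hq hgraph hpq
    obtain ⟨⟨d, F, hF, hyF, k0, hk0⟩, hg⟩ := h κ q hgraph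
    obtain ⟨e, s, B, A, w, hB, hBq, hA, hw, hsum⟩ := fuj_local (m := m) hq hp hφ ht hF hyF
      hk0 (hpq d F hF hyF) hg hE'
    exact ⟨⟨d, F, hF, hyF, k0, hk0⟩, e, s, B, A, w, hB, hBq, hA, hw, hsum⟩

/-- the values of global sections are regular -/
theorem reg_of {y : Fin M → L} {p : Fin M → ℂ} {a : Place ℂ L → ℤ} {z : Fin n → L}
    {E : Fin n → Derivation ℂ L L} (hE : ∀ i j, E i (z j) = if i = j then 1 else 0) {g : L}
    {t : Fin n → L}
    (hgen : Generates a y p
      (fun D : Fin n → Derivation ℂ L L => g * (Matrix.of fun i j => D i (t j)).det)) {u : L}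
    (hu : ∀ P : Place ℂ L, Divisorial n P → SectionAt a P (pForm 1 z u)) :
    Reg y p (g * (Matrix.of fun i j => E i (t j) : Matrix (Fin n) (Fin n) L).det) u := by
  obtain ⟨e, A, B, hA, hB, hBp, hAB⟩ := hgen (pForm 1 z u) (pForm_pluri 1 z u)
    (fun P hP _ => hu P hP)
  have h1 := hAB E
  rw [pForm_frame 1 u hE] at h1
  exact ⟨e, A, B, hA, hB, hBp, h1⟩

/-- generators do not vanish on the frame -/
theorem gen_ne {z : Fin n → L} {E : Fin n → Derivation ℂ L L}
    (hcoord : ∀ θ : (Fin n → Derivation ℂ L L) → L, IsPluri 1 θ →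
      ∀ D, θ D = (Matrix.of fun i j => D i (z j)).det ^ 1 * θ E) {g : L} {t : Fin n → L}
    (hne : ∃ D : Fin n → Derivation ℂ L L, g * (Matrix.of fun i j => D i (t j)).det ≠ 0) :
    g * (Matrix.of fun i j => E i (t j) : Matrix (Fin n) (Fin n) L).det ≠ 0 ∧
    ∀ D : Fin n → Derivation ℂ L L, g * (Matrix.of fun i j => D i (t j)).det =
      (Matrix.of fun i j => D i (z j)).det ^ 1 *
        (g * (Matrix.of fun i j => E i (t j) : Matrix (Fin n) (Fin n) L).det) := by
  obtain ⟨η, hη⟩ : ∃ η : (Fin n → Derivation ℂ L L) → L,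
      η = fun D => g * (Matrix.of fun i j => D i (t j)).det := ⟨_, rfl⟩
  have hηp : IsPluri 1 η := by
    intro A D
    have h1 := pForm_pluri 1 t g A D
    unfold pForm at h1
    rw [hη]
    linear_combination h1
  have h2 := hcoord η hηp
  rw [hη] at h2
  refine ⟨?_, h2⟩
  intro h0
  obtain ⟨D, hD⟩ := hne
  apply hD
  have h3 := h2 D
  change g * (Matrix.of fun i j => D i (t j)).det = _ * (g * _) at h3
  rw [h3, h0, mul_zero]

/-- **Separation of points.** -/
theorem fuj_pts [Algebra.EssFiniteType ℂ K] (hK : Algebra.trdeg ℂ K = n) {x : Fin N → K}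
    (hx : x ≠ 0) {y : Fin M → L} {r T k : ℕ} (hd1 : finrank L K ≤ r + 1)
    (hd2 : finrank L K ≤ T + 1) (hm : k * (r + 1) + T = m) (a : Place ℂ L → ℤ) {φ : K}
    (hφ : φ ≠ 0)
    (hglob : ∀ (Q : Place ℂ K) (P : Place ℂ L) (e : ℕ), Over Q P e → Divisorial n Q →
      ∀ i, x i ≠ 0 → Q.ord φ ≤ e * a P + ((m + (n + 1) : ℕ) : ℤ) * Q.ord (x i))
    {p : Fin M → ℂ} (hp : IsPoint y p) {g : L} {t : Fin n → L} (ht : RegularFunctions y p t)
    (hne : ∃ D : Fin n → Derivation ℂ L L, g * (Matrix.of fun i j => D i (t j)).det ≠ 0)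
    (hgen : Generates a y p
      (fun D : Fin n → Derivation ℂ L L => g * (Matrix.of fun i j => D i (t j)).det))
    (h : ∀ (κ : Type) [Field κ] [Algebra ℂ κ] (q : Fin N → κ), InGraph x y q p →
      Defined x y q ∧ ∃ (e : ℕ) (A B : MvPolynomial (Fin N) ℂ),
        A.IsHomogeneous (e + (m + (n + 1))) ∧ B.IsHomogeneous e ∧ MvPolynomial.aeval q B ≠ 0 ∧
        MvPolynomial.aeval x B * (φ * algebraMap L K g) = MvPolynomial.aeval x A)
    {p' : Fin k → Fin M → ℂ} (hp' : ∀ i, IsPoint y (p' i))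
    (hpp' : ∀ i, ∃ j l, p j * p' i l ≠ p l * p' i j) {g' : Fin k → L} {t' : Fin k → Fin n → L}
    (hne' : ∀ i, ∃ D : Fin n → Derivation ℂ L L,
      g' i * (Matrix.of fun i' j => D i' (t' i j)).det ≠ 0)
    (hgen' : ∀ i, Generates a y (p' i)
      (fun D : Fin n → Derivation ℂ L L => g' i * (Matrix.of fun i' j => D i' (t' i j)).det)) :
    ∃ θ : (Fin n → Derivation ℂ L L) → L, IsPluri 1 θ ∧
      (∀ P : Place ℂ L, Divisorial n P → SectionAt a P θ) ∧ Generates a y p θ ∧
      ∀ i, ∃ (e : ℕ) (A B : MvPolynomial (Fin M) ℂ), A.IsHomogeneous e ∧ B.IsHomogeneous e ∧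
        MvPolynomial.aeval (p' i) B ≠ 0 ∧ MvPolynomial.aeval (p' i) A = 0 ∧
        ∀ D : Fin n → Derivation ℂ L L, MvPolynomial.aeval y B * θ D =
          MvPolynomial.aeval y A * (g' i * (Matrix.of fun i' j => D i' (t' i j)).det) := by
  classical
  obtain ⟨z, E, S0, hE, hcoord, hsec, hgenr⟩ := data (m := m) hK hx (y := y) a hφ hglob
  obtain ⟨hu0, hη⟩ := gen_ne hcoord hne
  have hG1 : ∀ f : Fin m → Fin N, MvPolynomial.aeval x
      (∏ k, (MvPolynomial.X (f k) : MvPolynomial (Fin N) ℂ)) = ∏ k, x (f k) := by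
    intro f
    simp [map_prod, MvPolynomial.aeval_X]
  have hsec1 : ∀ s ∈ S0, ∀ f : Fin m → Fin N, ∀ P : Place ℂ L, Divisorial n P →
      SectionAt a P (pForm 1 z (Algebra.trace L K ((∏ k, x (f k)) * s))) := by
    intro s hs f P hP
    have h1 := hsec s hs _ (prodX_hom f) P hP
    rwa [hG1] at h1
  obtain ⟨G, hG, s, hs, ⟨e, A, B, hA, hB, hBp, hAp, hAB⟩, hvan'⟩ := core_pts (span form) spr
    (dep (span form) spr) (stab form) (van form) hx hd1 hd2 hm hp hu0 hp'
    (fun i => (gen_ne hcoord (hne' i)).1) hpp' S0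
    (fun s hs f => reg_of hE hgen (hsec1 s hs f))
    (fun i s hs f => reg_of hE (hgen' i) (hsec1 s hs f)) (hgenr p hp g t ht h)
  have hθ : ∀ D, pForm 1 z (Algebra.trace L K (MvPolynomial.aeval x G * s)) D =
      (Matrix.of fun i j => D i (z j)).det ^ 1 *
        Algebra.trace L K (MvPolynomial.aeval x G * s) := fun D => rfl
  refine ⟨pForm 1 z (Algebra.trace L K (MvPolynomial.aeval x G * s)), pForm_pluri 1 z _,
    fun P hP => hsec s hs G hG P hP, fun θ' hθp' hθ' => ?_, fun i => ?_⟩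
  · obtain ⟨e', A', B', hA', hB', hB'p, hAB'⟩ := hgen θ' hθp' hθ'
    refine ⟨e' + e, A' * B, B' * A, hA'.mul hB, hB'.mul hA, ?_, fun D => ?_⟩
    · rw [map_mul]
      exact mul_ne_zero hB'p hAp
    · rw [map_mul, map_mul, hθ]
      have h4 := hAB' D
      have h5 := hη D
      change MvPolynomial.aeval y B' * θ' D = MvPolynomial.aeval y A' *
        (g * (Matrix.of fun i j => D i (t j)).det) at h4
      rw [h5] at h4
      linear_combination MvPolynomial.aeval y A * h4 -
        MvPolynomial.aeval y A' * (Matrix.of fun i j => D i (z j)).det ^ 1 * hAB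
  · obtain ⟨e', A', B', hA', hB', hB'p, hA'p, hAB'⟩ := hvan' i
    refine ⟨e', A', B', hA', hB', hB'p, hA'p, fun D => ?_⟩
    rw [hθ, (gen_ne hcoord (hne' i)).2 D]
    linear_combination (Matrix.of fun i j => D i (z j)).det ^ 1 * hAB'

/-- **Separation of tangent directions.** -/
theorem fuj_tan [Algebra.EssFiniteType ℂ K] (hK : Algebra.trdeg ℂ K = n) {x : Fin N → K}
    (hx : x ≠ 0) {y : Fin M → L} {r T : ℕ} (hd1 : finrank L K ≤ r + 1)
    (hd2 : finrank L K ≤ T + 1) (hm : r + 1 + T = m) (a : Place ℂ L → ℤ) {φ : K}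
    (hφ : φ ≠ 0)
    (hglob : ∀ (Q : Place ℂ K) (P : Place ℂ L) (e : ℕ), Over Q P e → Divisorial n Q →
      ∀ i, x i ≠ 0 → Q.ord φ ≤ e * a P + ((m + (n + 1) : ℕ) : ℤ) * Q.ord (x i))
    {p : Fin M → ℂ} (hp : IsPoint y p) {v : Fin M → ℂ} (hv : Direction y p v) {g : L}
    {t : Fin n → L} (ht : RegularFunctions y p t)
    (hne : ∃ D : Fin n → Derivation ℂ L L, g * (Matrix.of fun i j => D i (t j)).det ≠ 0)
    (hgen : Generates a y p
      (fun D : Fin n → Derivation ℂ L L => g * (Matrix.of fun i j => D i (t j)).det))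
    (h : ∀ (κ : Type) [Field κ] [Algebra ℂ κ] (q : Fin N → κ), InGraph x y q p →
      Defined x y q ∧ ∃ (e : ℕ) (A B : MvPolynomial (Fin N) ℂ),
        A.IsHomogeneous (e + (m + (n + 1))) ∧ B.IsHomogeneous e ∧ MvPolynomial.aeval q B ≠ 0 ∧
        MvPolynomial.aeval x B * (φ * algebraMap L K g) = MvPolynomial.aeval x A) :
    ∃ θ : (Fin n → Derivation ℂ L L) → L, IsPluri 1 θ ∧
      (∀ P : Place ℂ L, Divisorial n P → SectionAt a P θ) ∧
      ∃ (e : ℕ) (A B : MvPolynomial (Fin M) ℂ), A.IsHomogeneous e ∧ B.IsHomogeneous e ∧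
        MvPolynomial.aeval p B ≠ 0 ∧ MvPolynomial.aeval p A = 0 ∧ dd p v A ≠ 0 ∧
        ∀ D : Fin n → Derivation ℂ L L, MvPolynomial.aeval y B * θ D =
          MvPolynomial.aeval y A * (g * (Matrix.of fun i j => D i (t j)).det) := by
  classical
  obtain ⟨z, E, S0, hE, hcoord, hsec, hgenr⟩ := data (m := m) hK hx (y := y) a hφ hglob
  obtain ⟨hu0, hη⟩ := gen_ne hcoord hne
  have hG1 : ∀ f : Fin m → Fin N, MvPolynomial.aeval x
      (∏ k, (MvPolynomial.X (f k) : MvPolynomial (Fin N) ℂ)) = ∏ k, x (f k) := by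
    intro f
    simp [map_prod, MvPolynomial.aeval_X]
  have hsec1 : ∀ s ∈ S0, ∀ f : Fin m → Fin N, ∀ P : Place ℂ L, Divisorial n P →
      SectionAt a P (pForm 1 z (Algebra.trace L K ((∏ k, x (f k)) * s))) := by
    intro s hs f P hP
    have h1 := hsec s hs _ (prodX_hom f) P hP
    rwa [hG1] at h1
  obtain ⟨G, G', hG, hG', s, hs, s', hs', e, A, B, hA, hB, hBp, hAp, hdd, hAB⟩ := core_tan spr
    (dep (span form) spr) (stab form) red (low (span form) spr) (quo tay) glob blow hx hd1 hd2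
    hm hp hv hu0 S0 (fun s hs f => reg_of hE hgen (hsec1 s hs f)) (hgenr p hp g t ht h)
  refine ⟨pForm 1 z (Algebra.trace L K (MvPolynomial.aeval x G * s +
    MvPolynomial.aeval x G' * s')), pForm_pluri 1 z _, fun P hP => ?_, e, A, B, hA, hB, hBp,
    hAp, hdd, fun D => ?_⟩
  · rw [map_add]
    exact sectionAt_add a P z (hsec s hs G hG P hP) (hsec s' hs' G' hG' P hP)
  · rw [hη D]
    unfold pForm
    linear_combination (Matrix.of fun i j => D i (z j)).det ^ 1 * hAB

end

end Pool.Agent.H90.VA
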