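import Mathlib

/-!
Library lemmas on valuation rings and traces (copies of the modules `H614.BF.*` of the library which
need only Mathlib), namespace changed.
-/

set_option autoImplicit false
set_option linter.unusedSectionVars false
set_option linter.overlappingInstances false

namespace Pool.Agent.H90.VA

open Module

section

open Submodule


open Submodule

section

variable {R L K ι : Type} [CommRing R] [IsDomain R] [ValuationRing R] [Field L] [Field K]
  [Algebra R L] [IsFractionRing R L] [Algebra L K] [Algebra R K] [IsScalarTower R L K]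

/-- scaling coefficients into the valuation ring -/
theorem exists_scale {s : Type} [Fintype s] (a : s → L) (h : ∃ i, a i ≠ 0) :
    ∃ (i0 : s) (b : s → R), a i0 ≠ 0 ∧ b i0 = 1 ∧ ∀ i, a i = a i0 * algebraMap R L (b i) := by
  classical
  obtain ⟨i1, hi1⟩ := h
  have : Nonempty s := ⟨i1⟩
  obtain ⟨i0, hi0⟩ := Finite.exists_max (fun i => ValuationRing.valuation R L (a i))
  have h0 : a i0 ≠ 0 := by
    intro h0
    have h1 := hi0 i1
    rw [h0, map_zero, le_zero_iff, map_eq_zero] at h1
    exact hi1 h1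
  have hex : ∀ i, ∃ b : R, algebraMap R L b = a i / a i0 := by
    intro i
    rw [← ValuationRing.mem_integer_iff, Valuation.mem_integer_iff, map_div₀]
    exact div_le_one_of_le₀ (hi0 i) zero_le
  choose b hb using hex
  refine ⟨i0, fun i => if i = i0 then 1 else b i, h0, if_pos rfl, fun i => ?_⟩
  change a i = a i0 * algebraMap R L (if i = i0 then 1 else b i)
  by_cases hi : i = i0
  · rw [if_pos hi, map_one, mul_one, hi]
  · rw [if_neg hi, hb, mul_div_cancel₀ _ h0]

/-- linear independence from a filtration -/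
theorem indep_filt {s : ℕ} (c : Fin s → K) (A : ℕ → Submodule R K) (hA : Monotone A)
    (hm : ∀ r ∈ IsLocalRing.maximalIdeal R, ∀ i, r • c i ∈ A 0)
    (h1 : ∀ i : Fin s, c i ∈ A (i + 1)) (h2 : ∀ i : Fin s, c i ∉ A i) :
    LinearIndependent L c := by
  classical
  rw [Fintype.linearIndependent_iff]
  intro a ha
  by_contra hcon
  push Not at hcon
  obtain ⟨i0, b, h0, hb1, hb⟩ := exists_scale (R := R) a hcon
  have hsum : ∑ i, b i • c i = 0 := by
    have h3 : a i0 • ∑ i, b i • c i = 0 := by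
      rw [← ha, Finset.smul_sum]
      refine Finset.sum_congr rfl fun i _ => ?_
      rw [hb i, mul_smul, algebraMap_smul]
    exact (smul_eq_zero.1 h3).resolve_left h0
  have hne : (Finset.univ.filter fun i : Fin s => IsUnit (b i)).Nonempty :=
    ⟨i0, by rw [Finset.mem_filter, hb1]; exact ⟨Finset.mem_univ _, isUnit_one⟩⟩
  obtain ⟨j, hj, hjmax⟩ := Finset.exists_max_image _ (fun i : Fin s => i) hne
  rw [Finset.mem_filter] at hj
  obtain ⟨v, hv⟩ := hj.2
  have hcj : b j • c j ∈ A j := by
    rw [← Finset.add_sum_erase _ _ (Finset.mem_univ j)] at hsum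
    rw [eq_neg_of_add_eq_zero_left hsum]
    refine neg_mem (Submodule.sum_mem _ fun i hi => ?_)
    by_cases hu : IsUnit (b i)
    · have hle : i ≤ j := hjmax i (Finset.mem_filter.2 ⟨Finset.mem_univ _, hu⟩)
      have hlt : (i : ℕ) + 1 ≤ j := by
        have := lt_of_le_of_ne hle (Finset.ne_of_mem_erase hi)
        exact this
      exact Submodule.smul_mem _ _ (hA hlt (h1 i))
    · exact hA (Nat.zero_le _) (hm _ ((IsLocalRing.mem_maximalIdeal _).2 hu) i)
  apply h2 j
  have h4 : (↑v⁻¹ : R) • (b j • c j) = c j := by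
    rw [← mul_smul, ← hv, Units.inv_mul, one_smul]
  rw [← h4]
  exact Submodule.smul_mem _ _ hcj

end

section

variable {R L K ι : Type} [CommRing R] [IsDomain R] [ValuationRing R] [Field L] [Field K]
  [Algebra R L] [IsFractionRing R L] [Algebra L K] [Algebra R K] [IsScalarTower R L K]
  [FiniteDimensional L K]

/-- **The algebra generated by the integral elements `ξ i`, one of whose linear combinations is `1`,
is generated as a module by the monomials of degree `m`, if the degree of the field extension is at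
most `m + 1`.** -/
theorem filt [Finite ι] (ξ : ι → K) (hint : ∀ i, IsIntegral R (ξ i))
    (hone : (1 : K) ∈ span R (Set.range ξ)) {m : ℕ} (hd : Module.finrank L K ≤ m + 1) :
    (Algebra.adjoin R (Set.range ξ)).toSubmodule ≤ (span R (Set.range ξ)) ^ m := by
  classical
  obtain ⟨G, hG⟩ : ∃ G : Submodule R K, G = span R (Set.range ξ) := ⟨_, rfl⟩
  obtain ⟨C, hC⟩ : ∃ C : Submodule R K, C = (Algebra.adjoin R (Set.range ξ)).toSubmodule :=
    ⟨_, rfl⟩
  obtain ⟨I, hI⟩ : ∃ I : Ideal R, I = IsLocalRing.maximalIdeal R := ⟨_, rfl⟩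
  rw [← hG] at hone ⊢
  rw [← hC]
  have hmulC : ∀ a b : K, a ∈ C → b ∈ C → a * b ∈ C := by
    intro a b ha hb
    rw [hC] at ha hb ⊢
    exact mul_mem (S := Subalgebra R K) ha hb
  have honeC : (1 : K) ∈ C := by
    rw [hC]
    exact one_mem (Algebra.adjoin R (Set.range ξ))
  have hGC : G ≤ C := by
    rw [hG, hC, span_le]
    exact Algebra.subset_adjoin
  have hpow : ∀ j, G ^ j ≤ C := by
    intro j
    induction j with
    | zero =>
      rw [pow_zero, Submodule.one_le]
      exact honeC
    | succ j ih =>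
      rw [pow_succ, Submodule.mul_le]
      exact fun a ha b hb => hmulC a b (ih ha) (hGC hb)
  have hmono1 : ∀ j, G ^ j ≤ G ^ (j + 1) := by
    intro j x hx
    rw [pow_succ]
    have h1 := Submodule.mul_mem_mul hx hone
    rwa [mul_one] at h1
  have hmono : Monotone fun j => G ^ j := monotone_nat_of_le_succ hmono1
  -- everything is in some power
  have hex : ∀ z ∈ C, ∃ j, z ∈ G ^ j := by
    intro z hz
    rw [hC, Subalgebra.mem_toSubmodule] at hz
    induction hz using Algebra.adjoin_induction with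
    | mem x hx =>
      refine ⟨1, ?_⟩
      rw [pow_one, hG]
      exact subset_span hx
    | algebraMap r =>
      refine ⟨0, ?_⟩
      rw [pow_zero]
      exact Submodule.mem_one.2 ⟨r, rfl⟩
    | add x y _ _ hx hy =>
      obtain ⟨i, hi⟩ := hx
      obtain ⟨j, hj⟩ := hy
      exact ⟨max i j, add_mem (hmono (le_max_left _ _) hi) (hmono (le_max_right _ _) hj)⟩
    | mul x y _ _ hx hy =>
      obtain ⟨i, hi⟩ := hx
      obtain ⟨j, hj⟩ := hy
      exact ⟨i + j, by rw [pow_add]; exact Submodule.mul_mem_mul hi hj⟩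
  obtain ⟨N0, hN0⟩ : ∃ N0 : Submodule R K, N0 = I • C := ⟨_, rfl⟩
  have hN0C : ∀ z ∈ N0, ∀ c ∈ C, z * c ∈ N0 := by
    intro z hz c hc
    rw [hN0] at hz ⊢
    refine Submodule.smul_induction_on hz (fun r hr w hw => ?_) fun x y hx hy => ?_
    · rw [smul_mul_assoc]
      exact Submodule.smul_mem_smul hr (hmulC _ _ hw hc)
    · rw [add_mul]
      exact add_mem hx hy
  have hfg : C.FG := by
    rw [hC]
    refine fg_adjoin_of_finite (Set.finite_range ξ) ?_
    rintro _ ⟨i, rfl⟩
    exact hint i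
  have hnak : ∀ N : Submodule R K, C ≤ N ⊔ N0 → C ≤ N := by
    intro N hN
    rw [hN0] at hN
    refine Submodule.le_of_le_smul_of_le_jacobson_bot hfg ?_ hN
    rw [hI, IsLocalRing.jacobson_eq_maximalIdeal ⊥ bot_ne_top]
  -- stabilisation
  have hstab : ∀ j, G ^ (j + 1) ≤ G ^ j ⊔ N0 → C ≤ G ^ j ⊔ N0 := by
    intro j hj
    have h1 : ∀ i, G ^ i ≤ G ^ j ⊔ N0 := by
      intro i
      induction i with
      | zero => exact (hmono (Nat.zero_le j)).trans le_sup_left
      | succ i ih =>
        rw [pow_succ, Submodule.mul_le]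
        intro a ha g hg
        obtain ⟨u, hu, v, hv, rfl⟩ := Submodule.mem_sup.1 (ih ha)
        rw [add_mul]
        refine add_mem (hj ?_) (le_sup_right (a := G ^ j) (hN0C v hv g (hGC hg)))
        rw [pow_succ]
        exact Submodule.mul_mem_mul hu hg
    intro z hz
    obtain ⟨i, hi⟩ := hex z hz
    exact h1 i hi
  by_contra hcon
  have hnot : ∀ j ≤ m, ¬ G ^ (j + 1) ≤ G ^ j ⊔ N0 := by
    intro j hj h
    apply hcon
    exact hnak _ ((hstab j h).trans (sup_le_sup_right (hmono hj) N0))
  have hone0 : (1 : K) ∉ N0 := by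
    intro h
    apply hcon
    refine hnak _ fun z hz => ?_
    have h1 := hN0C 1 h z hz
    rw [one_mul] at h1
    exact le_sup_right (a := G ^ m) h1
  obtain ⟨A, hA0, hA1⟩ : ∃ A : ℕ → Submodule R K, A 0 = N0 ∧ ∀ j, A (j + 1) = G ^ j ⊔ N0 :=
    ⟨fun j => Nat.casesOn j N0 fun j => G ^ j ⊔ N0, rfl, fun _ => rfl⟩
  have hAmono : Monotone A := by
    refine monotone_nat_of_le_succ fun j => ?_
    cases j with
    | zero => rw [hA0, hA1]; exact le_sup_right
    | succ j => rw [hA1, hA1]; exact sup_le_sup_right (hmono1 j) N0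
  have hc : ∀ i : Fin (m + 2), ∃ z : K, z ∈ C ∧ z ∈ A (i + 1) ∧ z ∉ A i := by
    intro i
    obtain ⟨i, hi⟩ := i
    cases i with
    | zero =>
      refine ⟨1, honeC, ?_, ?_⟩
      · rw [hA1]
        exact le_sup_left (b := N0) (by rw [pow_zero]; exact Submodule.one_le.1 le_rfl)
      · rw [hA0]
        exact hone0
    | succ i =>
      obtain ⟨z, hz, hz'⟩ := SetLike.not_le_iff_exists.1 (hnot i (by omega))
      refine ⟨z, hpow _ hz, ?_, ?_⟩
      · rw [hA1]
        exact le_sup_left (b := N0) hz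
      · rw [hA1]
        exact hz'
  choose c hcC hc1 hc2 using hc
  have hli : LinearIndependent L c := by
    refine indep_filt (R := R) c A hAmono ?_ hc1 hc2
    intro r hr i
    rw [hA0, hN0, hI]
    exact Submodule.smul_mem_smul hr (hcC i)
  have h3 := hli.fintype_card_le_finrank
  rw [Fintype.card_fin] at h3
  omega

end


end



/-- a valuation ring centred at a point -/
theorem exists_val {L : Type} [Field L] [Algebra ℂ L] {ι : Type} (u : ι → L) (c : ι → ℂ)
    (h : ∀ F : MvPolynomial (ι) ℂ, MvPolynomial.aeval u F = 0 → MvPolynomial.aeval c F = 0) :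
    ∃ O : ValuationSubring L, (∀ F : MvPolynomial (ι) ℂ, MvPolynomial.aeval u F ∈ O) ∧
      ∀ F : MvPolynomial (ι) ℂ, MvPolynomial.aeval c F = 0 →
        MvPolynomial.aeval u F ∈ O.nonunits := by
  classical
  obtain ⟨f, hf⟩ : ∃ f : MvPolynomial (ι) ℂ →+* L, ∀ F, f F = MvPolynomial.aeval u F :=
    ⟨(MvPolynomial.aeval u : MvPolynomial (ι) ℂ →ₐ[ℂ] L).toRingHom, fun _ => rfl⟩
  obtain ⟨g, hg⟩ : ∃ g : MvPolynomial (ι) ℂ →+* ℂ, ∀ F, g F = MvPolynomial.aeval c F :=
    ⟨(MvPolynomial.aeval c : MvPolynomial (ι) ℂ →ₐ[ℂ] ℂ).toRingHom, fun _ => rfl⟩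
  have hI : Ideal.map f.rangeRestrict (RingHom.ker g) ≠ ⊤ := by
    intro hI
    have h1 : (1 : f.range) ∈ Ideal.map f.rangeRestrict (RingHom.ker g) := by
      rw [hI]
      exact Submodule.mem_top
    rw [Ideal.mem_map_iff_of_surjective _ f.rangeRestrict_surjective] at h1
    obtain ⟨F, hF, hF1⟩ := h1
    have h2 : f F = 1 := congrArg Subtype.val hF1
    have h3 : g F = 0 := hF
    have h4 := h (F - 1) (by rw [← hf, map_sub, h2, map_one, sub_self])
    rw [← hg, map_sub, h3, map_one, zero_sub] at h4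
    exact one_ne_zero (neg_eq_zero.1 h4)
  obtain ⟨O, hO1, hO2⟩ := Ideal.image_subset_nonunits_valuationSubring _ hI
  refine ⟨O, fun F => ?_, fun F hF => ?_⟩
  · rw [← hf]
    exact hO1 ⟨F, rfl⟩
  · rw [← hf]
    apply hO2
    refine ⟨f.rangeRestrict F, Ideal.mem_map_of_mem _ ?_, rfl⟩
    rw [RingHom.mem_ker, hg, hF]

/-- extension of a valuation ring -/
theorem exists_ext {L Ω : Type} [Field L] [Field Ω] [Algebra L Ω] (O : ValuationSubring L) :
    ∃ V : ValuationSubring Ω, ∀ z : L, algebraMap L Ω z ∈ V ↔ z ∈ O := by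
  obtain ⟨V, h, hloc⟩ := IsLocalRing.exists_factor_valuationRing
    (((algebraMap L Ω).comp O.subtype : O →+* Ω))
  refine ⟨V, fun z => ⟨fun hz => ?_, fun hz => h ⟨z, hz⟩⟩⟩
  by_contra hcon
  have hzi : z⁻¹ ∈ O := (O.mem_or_inv_mem z).resolve_left hcon
  have hz0 : z ≠ 0 := by
    rintro rfl
    exact hcon O.zero_mem
  have hu : IsUnit ((((algebraMap L Ω).comp O.subtype : O →+* Ω).codRestrict V.toSubring h)
      ⟨z⁻¹, hzi⟩) := by
    refine IsUnit.of_mul_eq_one ⟨algebraMap L Ω z, hz⟩ ?_
    apply Subtype.ext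
    change algebraMap L Ω z⁻¹ * algebraMap L Ω z = 1
    rw [← map_mul, inv_mul_cancel₀ hz0, map_one]
  have hu2 : IsUnit (⟨z⁻¹, hzi⟩ : O) := hloc.map_nonunit _ hu
  obtain ⟨w, hw⟩ := hu2.exists_right_inv
  apply hcon
  have h1 : z⁻¹ * (w : L) = 1 := congrArg Subtype.val hw
  have h2 : (w : L) = z := by
    field_simp at h1
    exact h1
  rw [← h2]
  exact w.2

/-- coordinates which are integral over a valuation ring -/
theorem exists_form {L K : Type} [Field L] [Field K] [Algebra ℂ L] [Algebra ℂ K] [Algebra L K]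
    [IsScalarTower ℂ L K] [FiniteDimensional L K] (O : ValuationSubring L)
    (hO : ∀ a : ℂ, algebraMap ℂ L a ∈ O) {N : ℕ} (x : Fin N → K) (hx : x ≠ 0) :
    ∃ a : Fin N → ℂ, (∑ i, algebraMap ℂ K (a i) * x i) ≠ 0 ∧
      ∀ j, ∃ P : Polynomial L, P.Monic ∧ (∀ i, P.coeff i ∈ O) ∧
        Polynomial.aeval (x j / ∑ i, algebraMap ℂ K (a i) * x i) P = 0 := by
  classical
  have hcL : CharZero L := charZero_of_injective_algebraMap (algebraMap ℂ L).injective
  obtain ⟨V, hV⟩ := exists_ext (Ω := AlgebraicClosure K) O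
  obtain ⟨j0, hj0⟩ : ∃ j, x j ≠ 0 := by
    by_contra hcon
    push Not at hcon
    exact hx (funext hcon)
  have : Nonempty (Fin N) := ⟨j0⟩
  have hVC : ∀ a : ℂ, algebraMap ℂ (AlgebraicClosure K) a ∈ V := by
    intro a
    have h1 : algebraMap ℂ (AlgebraicClosure K) a =
        algebraMap L (AlgebraicClosure K) (algebraMap ℂ L a) := by
      rw [IsScalarTower.algebraMap_apply ℂ K (AlgebraicClosure K),
        IsScalarTower.algebraMap_apply ℂ L K, ← IsScalarTower.algebraMap_apply L K]
    rw [h1, hV]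
    exact hO a
  -- the maximal coordinate
  have hmax : ∀ σ : K →ₐ[L] AlgebraicClosure K, ∃ i0 : Fin N,
      σ (x i0) ≠ 0 ∧ ∀ i, σ (x i) / σ (x i0) ∈ V := by
    intro σ
    obtain ⟨i0, hi0⟩ := Finite.exists_max (fun i => V.valuation (σ (x i)))
    have h0 : σ (x i0) ≠ 0 := by
      intro h0
      have h1 := hi0 j0
      rw [h0, map_zero, le_zero_iff, map_eq_zero, map_eq_zero] at h1
      exact hj0 h1
    refine ⟨i0, h0, fun i => ?_⟩
    rw [← V.valuation_le_one_iff, map_div₀]
    exact div_le_one_of_le₀ (hi0 i) zero_le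
  choose i0 hi0 hc using hmax
  obtain ⟨φ, hφ⟩ : ∃ φ : ℂ →+* IsLocalRing.ResidueField V,
      ∀ a, φ a = IsLocalRing.residue V ⟨algebraMap ℂ (AlgebraicClosure K) a, hVC a⟩ := by
    refine ⟨(IsLocalRing.residue V).comp
      ((algebraMap ℂ (AlgebraicClosure K)).codRestrict V.toSubring hVC), fun a => rfl⟩
  obtain ⟨p, hp⟩ : ∃ p : (K →ₐ[L] AlgebraicClosure K) → Polynomial (IsLocalRing.ResidueField V),
      ∀ σ, p σ = ∑ i : Fin N, Polynomial.C (IsLocalRing.residue V ⟨_, hc σ i⟩) *
        Polynomial.X ^ (i : ℕ) := ⟨_, fun _ => rfl⟩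
  have hp0 : ∀ σ, p σ ≠ 0 := by
    intro σ h0
    have h1 : (p σ).coeff (i0 σ) = 0 := by rw [h0, Polynomial.coeff_zero]
    rw [hp, Polynomial.finsetSum_coeff, Finset.sum_eq_single (i0 σ)] at h1
    · rw [Polynomial.coeff_C_mul, Polynomial.coeff_X_pow_self, mul_one] at h1
      have h2 : (⟨_, hc σ (i0 σ)⟩ : V) = 1 := Subtype.ext (div_self (hi0 σ))
      rw [h2, map_one] at h1
      exact one_ne_zero h1
    · intro b _ hb
      rw [Polynomial.coeff_C_mul, Polynomial.coeff_X_pow, if_neg, mul_zero]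
      intro h
      exact hb (Fin.ext h.symm)
    · intro h
      exact absurd (Finset.mem_univ _) h
  obtain ⟨t, ht⟩ : ∃ t : ℂ, ∀ σ, (p σ).eval (φ t) ≠ 0 := by
    have h1 : (∏ σ, p σ) ≠ 0 := Finset.prod_ne_zero_iff.2 fun σ _ => hp0 σ
    by_contra hcon
    push Not at hcon
    apply h1
    refine Polynomial.eq_zero_of_infinite_isRoot _
      ((Set.infinite_range_of_injective φ.injective).mono ?_)
    rintro _ ⟨t, rfl⟩
    obtain ⟨σ, hσ⟩ := hcon t
    change (∏ σ, p σ).eval (φ t) = 0
    rw [Polynomial.eval_prod]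
    exact Finset.prod_eq_zero (Finset.mem_univ σ) hσ
  obtain ⟨lam, hlam⟩ : ∃ lam : K, lam = ∑ i : Fin N, algebraMap ℂ K (t ^ (i : ℕ)) * x i :=
    ⟨_, rfl⟩
  -- the quotient is a unit
  have hunit : ∀ σ : K →ₐ[L] AlgebraicClosure K, σ lam ≠ 0 ∧ σ (x (i0 σ)) / σ lam ∈ V := by
    intro σ
    have h1 : σ lam / σ (x (i0 σ)) = ∑ i : Fin N,
        algebraMap ℂ (AlgebraicClosure K) (t ^ (i : ℕ)) * (σ (x i) / σ (x (i0 σ))) := by
      rw [hlam, map_sum, Finset.sum_div]
      refine Finset.sum_congr rfl fun i _ => ?_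
      rw [map_mul, mul_div_assoc]
      congr 1
      rw [IsScalarTower.algebraMap_apply ℂ L K, AlgHom.commutes,
        IsScalarTower.algebraMap_apply L K (AlgebraicClosure K),
        ← IsScalarTower.algebraMap_apply ℂ L K, ← IsScalarTower.algebraMap_apply ℂ K]
    have h2 : σ lam / σ (x (i0 σ)) ∈ V := by
      rw [h1]
      exact sum_mem fun i _ => mul_mem (hVC _) (hc σ i)
    have h3 : IsLocalRing.residue V ⟨_, h2⟩ = (p σ).eval (φ t) := by
      have h4 : (⟨_, h2⟩ : V) = ∑ i : Fin N,
          (⟨_, hVC (t ^ (i : ℕ))⟩ : V) * (⟨_, hc σ i⟩ : V) := by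
        apply Subtype.ext
        rw [AddSubmonoidClass.coe_finsetSum]
        exact h1
      rw [h4, map_sum, hp, Polynomial.eval_finsetSum]
      refine Finset.sum_congr rfl fun i _ => ?_
      rw [map_mul, Polynomial.eval_mul, Polynomial.eval_C, Polynomial.eval_pow,
        Polynomial.eval_X, ← map_pow, hφ, mul_comm]
    have h5 : IsUnit (⟨_, h2⟩ : V) := by
      by_contra hn
      apply ht σ
      rw [← h3, IsLocalRing.residue_eq_zero_iff]
      exact (IsLocalRing.mem_maximalIdeal _).2 hn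
    obtain ⟨w, hw⟩ := h5.exists_right_inv
    have h6 : σ lam / σ (x (i0 σ)) * (w : AlgebraicClosure K) = 1 := congrArg Subtype.val hw
    have h7 : σ lam ≠ 0 := by
      intro h0
      rw [h0, zero_div, zero_mul] at h6
      exact zero_ne_one h6
    refine ⟨h7, ?_⟩
    have h8 : σ (x (i0 σ)) / σ lam = w := by
      have := hi0 σ
      field_simp at h6 ⊢
      exact h6.symm
    rw [h8]
    exact w.2
  have hσ0 : Nonempty (K →ₐ[L] AlgebraicClosure K) :=
    ⟨IsScalarTower.toAlgHom L K (AlgebraicClosure K)⟩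
  have hlam0 : lam ≠ 0 := by
    obtain ⟨σ⟩ := hσ0
    intro h0
    apply (hunit σ).1
    rw [h0, map_zero]
  refine ⟨fun i => t ^ (i : ℕ), by rw [← hlam]; exact hlam0, fun j => ?_⟩
  rw [← hlam]
  have hconj : ∀ σ : K →ₐ[L] AlgebraicClosure K, σ (x j / lam) ∈ V := by
    intro σ
    have h1 : σ (x j / lam) = σ (x j) / σ (x (i0 σ)) * (σ (x (i0 σ)) / σ lam) := by
      rw [map_div₀, div_mul_div_cancel₀ (hi0 σ)]
    rw [h1]
    exact mul_mem (hc σ j) (hunit σ).2
  have hint : IsIntegral L (x j / lam) := Algebra.IsIntegral.isIntegral _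
  refine ⟨minpoly L (x j / lam), minpoly.monic hint, fun i => ?_, minpoly.aeval _ _⟩
  rw [← hV]
  have h1 : (minpoly L (x j / lam)).map (algebraMap L (AlgebraicClosure K)) ∈
      Polynomial.lifts V.subtype := by
    have h2 := (IsAlgClosed.splits ((minpoly L (x j / lam)).map
      (algebraMap L (AlgebraicClosure K)))).eq_prod_roots
    rw [((minpoly.monic hint).map _).leadingCoeff, Polynomial.C_1, one_mul] at h2
    rw [h2]
    refine multiset_prod_mem _ fun q hq => ?_
    obtain ⟨r, hr, rfl⟩ := Multiset.mem_map.1 hq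
    have h3 : r ∈ (minpoly L (x j / lam)).rootSet (AlgebraicClosure K) := by
      rw [Polynomial.mem_rootSet]
      refine ⟨minpoly.ne_zero hint, ?_⟩
      rw [Polynomial.mem_roots'] at hr
      have h4 := hr.2
      rw [Polynomial.IsRoot, Polynomial.eval_map_algebraMap] at h4
      exact h4
    rw [← Algebra.IsAlgebraic.range_eval_eq_rootSet_minpoly] at h3
    obtain ⟨σ, hσ⟩ := h3
    rw [Polynomial.lifts_iff_coeff_lifts]
    have h5 : r ∈ V := by
      rw [← hσ]
      exact hconj σ
    have h6 : (Polynomial.X - Polynomial.C r : Polynomial (AlgebraicClosure K)) =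
        (Polynomial.X - Polynomial.C (⟨r, h5⟩ : V)).map V.subtype := by
      rw [Polynomial.map_sub, Polynomial.map_X, Polynomial.map_C]
      rfl
    intro k
    rw [h6, Polynomial.coeff_map]
    exact ⟨_, rfl⟩
  rw [Polynomial.lifts_iff_coeff_lifts] at h1
  obtain ⟨w, hw⟩ := h1 i
  rw [Polynomial.coeff_map] at hw
  rw [← hw]
  exact w.2


section

open Submodule


open Submodule

section

variable {R L K : Type} [CommRing R] [IsDomain R] [ValuationRing R] [Field L] [Field K]
  [Algebra R L] [IsFractionRing R L] [Algebra L K] [Algebra R K] [IsScalarTower R L K]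
  [FiniteDimensional L K]

/-- The functional `τ` has values in the maximal ideal on everything, if it has such values on the
products of monomials of degree `m` with the elements of `S`, and if the elements of `S` generate. -/
theorem key {N m : ℕ} (ξ : Fin N → K) (hint : ∀ i, IsIntegral R (ξ i))
    (hone : (1 : K) ∈ span R (Set.range ξ)) (hd : Module.finrank L K ≤ m + 1)
    (S : Set K) (τ : K →ₗ[L] L)
    (hτ : ∀ (f : Fin m → Fin N), ∀ s ∈ S, ∃ t ∈ IsLocalRing.maximalIdeal R,
      algebraMap R L t = τ ((∏ k, ξ (f k)) * s))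
    (hgg : ∀ I : Ideal (Algebra.adjoin R (Set.range ξ)), I.IsMaximal →
      ∃ b : Algebra.adjoin R (Set.range ξ), b ∉ I ∧
        (b : K) ∈ Submodule.span (Algebra.adjoin R (Set.range ξ)) S) :
    ∃ t ∈ IsLocalRing.maximalIdeal R, algebraMap R L t = τ 1 := by
  classical
  obtain ⟨T, hT⟩ : ∃ T : Submodule R K, ∀ z, z ∈ T ↔
      ∃ t ∈ IsLocalRing.maximalIdeal R, algebraMap R L t = τ z := by
    refine ⟨{ carrier := {z | ∃ t ∈ IsLocalRing.maximalIdeal R, algebraMap R L t = τ z}
              zero_mem' := ⟨0, zero_mem _, by rw [map_zero, map_zero]⟩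
              add_mem' := ?_
              smul_mem' := ?_ }, fun z => Iff.rfl⟩
    · rintro a b ⟨t, ht, hta⟩ ⟨s, hs, hsb⟩
      exact ⟨t + s, add_mem ht hs, by rw [map_add, hta, hsb, map_add]⟩
    · rintro c z ⟨t, ht, htz⟩
      refine ⟨c * t, Ideal.mul_mem_left _ _ ht, ?_⟩
      rw [map_mul, htz, ← algebraMap_smul L c z, map_smul, smul_eq_mul]
  have h1 : ∀ s ∈ S, ∀ c ∈ Algebra.adjoin R (Set.range ξ), c * s ∈ T := by
    intro s hs c hc
    have h2 : c ∈ (span R (Set.range ξ)) ^ m := filt (L := L) ξ hint hone hd hc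
    rw [Submodule.span_pow] at h2
    refine Submodule.span_induction (p := fun c _ => c * s ∈ T) ?_ ?_ ?_ ?_ h2
    · intro c hc
      obtain ⟨f, hf⟩ := Set.mem_pow.1 hc
      choose g hg using fun k => (f k).2
      obtain ⟨t, ht, ht'⟩ := hτ g s hs
      rw [hT]
      refine ⟨t, ht, ?_⟩
      rw [ht', ← hf, List.prod_ofFn]
      congr 2
      exact Finset.prod_congr rfl fun k _ => hg k
    · rw [zero_mul]
      exact zero_mem _
    · intro a b _ _ ha hb
      rw [add_mul]
      exact add_mem ha hb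
    · intro a b _ hb
      rw [smul_mul_assoc]
      exact T.smul_mem a hb
  have h2 : ∀ z ∈ Submodule.span (Algebra.adjoin R (Set.range ξ)) S,
      ∀ c ∈ Algebra.adjoin R (Set.range ξ), c * z ∈ T := by
    intro z hz
    refine Submodule.span_induction
      (p := fun z _ => ∀ c ∈ Algebra.adjoin R (Set.range ξ), c * z ∈ T) ?_ ?_ ?_ ?_ hz
    · exact fun s hs c hc => h1 s hs c hc
    · intro c _
      rw [mul_zero]
      exact zero_mem _
    · intro a b _ _ ha hb c hc
      rw [mul_add]
      exact add_mem (ha c hc) (hb c hc)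
    · intro a b _ hb c hc
      have h3 : c * (a • b) = (c * (a : K)) * b := by
        rw [Algebra.smul_def, mul_assoc]
        rfl
      rw [h3]
      exact hb _ (mul_mem hc a.2)
  have h3 : Submodule.comap (LinearMap.toSpanSingleton (Algebra.adjoin R (Set.range ξ)) K 1)
      (Submodule.span (Algebra.adjoin R (Set.range ξ)) S) = ⊤ := by
    by_contra hne
    obtain ⟨I, hI, hle⟩ := Ideal.exists_le_maximal _ hne
    obtain ⟨b, hb, hb'⟩ := hgg I hI
    apply hb
    apply hle
    rw [Submodule.mem_comap, LinearMap.toSpanSingleton_apply, Algebra.smul_def, mul_one]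
    exact hb'
  have h4 : (1 : K) ∈ Submodule.span (Algebra.adjoin R (Set.range ξ)) S := by
    have h5 : (1 : Algebra.adjoin R (Set.range ξ)) ∈ Submodule.comap
        (LinearMap.toSpanSingleton (Algebra.adjoin R (Set.range ξ)) K 1)
        (Submodule.span (Algebra.adjoin R (Set.range ξ)) S) := by
      rw [h3]
      exact Submodule.mem_top
    rw [Submodule.mem_comap, LinearMap.toSpanSingleton_apply, one_smul] at h5
    exact h5
  have h5 := h2 1 h4 1 (one_mem _)
  rw [mul_one] at h5
  exact (hT 1).1 h5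

end


end

section

variable {K : Type} [Field K] [Algebra ℂ K]

/-- `q` is a point, with coordinates in `κ`, of the projective variety with generic point `x` -/
def IsPoint {ι : Type} (x : ι → K) {κ : Type} [Field κ] [Algebra ℂ κ] (q : ι → κ) : Prop :=
  q ≠ 0 ∧ ∀ (e : ℕ) (F : MvPolynomial ι ℂ), F.IsHomogeneous e →
    MvPolynomial.aeval x F = 0 → MvPolynomial.aeval q F = 0


end

section

variable {K L : Type} [Field K] [Algebra ℂ K] [Field L] [Algebra ℂ L] [Algebra L K] {N M : ℕ}

/-- the rational map is defined at `q` -/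
def Defined (x : Fin N → K) (y : Fin M → L) {κ : Type} [Field κ] [Algebra ℂ κ]
    (q : Fin N → κ) : Prop :=
  ∃ (e : ℕ) (F : Fin M → MvPolynomial (Fin N) ℂ), (∀ j, (F j).IsHomogeneous e) ∧
    (∀ j k, algebraMap L K (y j) * MvPolynomial.aeval x (F k) =
      algebraMap L K (y k) * MvPolynomial.aeval x (F j)) ∧
    ∃ j, MvPolynomial.aeval q (F j) ≠ 0

/-- `(q, p)` is a point of the closure of the graph -/
def InGraph (x : Fin N → K) (y : Fin M → L) {κ : Type} [Field κ] [Algebra ℂ κ]
    (q : Fin N → κ) (p : Fin M → ℂ) : Prop :=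
  IsPoint (fun ij : Fin N × Fin M => x ij.1 * algebraMap L K (y ij.2))
    (fun ij : Fin N × Fin M => q ij.1 * algebraMap ℂ κ (p ij.2))

end


/-- forms at a multiple of a point -/
theorem smul_form {κ ι : Type} [Field κ] [Algebra ℂ κ] [Fintype ι] {F : MvPolynomial ι ℂ} {e : ℕ}
    (hF : F.IsHomogeneous e) (c : κ) (y : ι → κ) :
    MvPolynomial.aeval (fun l => c * y l) F = c ^ e * MvPolynomial.aeval y F := by
  classical
  rw [MvPolynomial.aeval_def, MvPolynomial.eval₂_eq', MvPolynomial.aeval_def,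
    MvPolynomial.eval₂_eq', Finset.mul_sum]
  refine Finset.sum_congr rfl fun a ha => ?_
  have h1 : ∑ i, a i = e := by
    have h2 := hF (MvPolynomial.mem_support_iff.1 ha)
    rw [← h2, Finsupp.weight_apply, Finsupp.sum_fintype _ _ fun i => by simp]
    simp
  simp only [mul_pow, Finset.prod_mul_distrib]
  rw [Finset.prod_pow_eq_pow_sum, h1]
  ring




/-- homogenisation -/
theorem exists_hom {ι : Type} [Fintype ι] (j1 : ι) (F : MvPolynomial (ι) ℂ) :
    ∃ (T : ℕ) (G : MvPolynomial (ι) ℂ), G.IsHomogeneous T ∧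
      ∀ (κ : Type) [Field κ] [Algebra ℂ κ] (u : ι → κ), u j1 = 1 →
        MvPolynomial.aeval u G = MvPolynomial.aeval u F := by
  classical
  refine ⟨F.totalDegree, ∑ k ∈ Finset.range (F.totalDegree + 1),
    MvPolynomial.homogeneousComponent k F * MvPolynomial.X j1 ^ (F.totalDegree - k), ?_, ?_⟩
  · refine MvPolynomial.IsHomogeneous.sum _ _ _ fun k hk => ?_
    have hk' : k ≤ F.totalDegree := by
      have := Finset.mem_range.1 hk
      omega
    have h1 := (MvPolynomial.homogeneousComponent_isHomogeneous k F).mul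
      ((MvPolynomial.isHomogeneous_X ℂ j1).pow (F.totalDegree - k))
    have h2 : k + 1 * (F.totalDegree - k) = F.totalDegree := by omega
    rwa [h2] at h1
  · intro κ _ _ u hu
    conv_rhs => rw [← MvPolynomial.sum_homogeneousComponent F]
    rw [map_sum, map_sum]
    refine Finset.sum_congr rfl fun k _ => ?_
    rw [map_mul, map_pow, MvPolynomial.aeval_X, hu, one_pow, mul_one]

/-- affine coordinates of a point -/
theorem dehom {L : Type} [Field L] [Algebra ℂ L] {ι : Type} [Fintype ι] {y : ι → L} {p : ι → ℂ}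
    (hp : IsPoint y p) {j1 : ι} (hj1 : p j1 ≠ 0) (hy1 : y j1 ≠ 0)
    (F : MvPolynomial (ι) ℂ) (hF : MvPolynomial.aeval (fun j => y j / y j1) F = 0) :
    MvPolynomial.aeval (fun j => p j / p j1) F = 0 := by
  obtain ⟨T, G, hG, hGF⟩ := exists_hom j1 F
  have h1 : MvPolynomial.aeval y G = 0 := by
    have h2 : y = fun j => y j1 * (y j / y j1) := by
      funext j
      rw [mul_div_cancel₀ _ hy1]
    rw [h2, smul_form hG, hGF L _ (div_self hy1), hF, mul_zero]
  have h2 := hp.2 T G hG h1
  have h3 : p = fun j => p j1 * (p j / p j1) := by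
    funext j
    rw [mul_div_cancel₀ _ hj1]
  rw [h3, smul_form hG, hGF ℂ _ (div_self hj1)] at h2
  exact (mul_eq_zero.1 h2).resolve_left (pow_ne_zero _ hj1)

/-- the points over the maximal ideals -/
theorem exists_residue {L K : Type} [Field L] [Field K] [Algebra ℂ L] [Algebra ℂ K] [Algebra L K]
    [IsScalarTower ℂ L K] (O : ValuationSubring L) [Algebra O K] [IsScalarTower O L K]
    (hO : ∀ a : ℂ, algebraMap ℂ L a ∈ O) {N M : ℕ} (ξ : Fin N → K)
    (hint : ∀ i, IsIntegral O (ξ i)) (u : Fin M → L) (hu : ∀ j, u j ∈ O) (c : Fin M → ℂ)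
    (huc : ∀ j, u j - algebraMap ℂ L (c j) ∈ O.nonunits)
    (I : Ideal (Algebra.adjoin O (Set.range ξ))) (hI : I.IsMaximal) :
    ∃ (κ : Type) (_ : Field κ) (_ : Algebra ℂ κ) (q : Fin N → κ),
      (∀ G : MvPolynomial (Fin N ⊕ Fin M) ℂ,
        MvPolynomial.aeval (Sum.elim ξ fun j => algebraMap L K (u j)) G = 0 →
          MvPolynomial.aeval (Sum.elim q fun j => algebraMap ℂ κ (c j)) G = 0) ∧
      ∀ (B : MvPolynomial (Fin N) ℂ) (b : Algebra.adjoin O (Set.range ξ)),
        (b : K) = MvPolynomial.aeval ξ B → MvPolynomial.aeval q B ≠ 0 → b ∉ I := by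
  classical
  obtain ⟨ι, hι⟩ : ∃ ι : ℂ →+* Algebra.adjoin O (Set.range ξ),
      ∀ a, ι a = algebraMap O _ (⟨algebraMap ℂ L a, hO a⟩ : O) := by
    refine ⟨(algebraMap O (Algebra.adjoin O (Set.range ξ))).comp
      ((algebraMap ℂ L).codRestrict O.toSubring hO), fun a => rfl⟩
  have hιK : ∀ a, ((ι a : Algebra.adjoin O (Set.range ξ)) : K) = algebraMap ℂ K a := by
    intro a
    rw [hι]
    change algebraMap O K (⟨algebraMap ℂ L a, hO a⟩ : O) = _
    rw [IsScalarTower.algebraMap_apply O L K, IsScalarTower.algebraMap_apply ℂ L K]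
    rfl
  obtain ⟨v, hv⟩ : ∃ v : Fin N ⊕ Fin M → Algebra.adjoin O (Set.range ξ),
      v = Sum.elim (fun i => ⟨ξ i, Algebra.subset_adjoin ⟨i, rfl⟩⟩)
        (fun j => algebraMap O _ ⟨u j, hu j⟩) := ⟨_, rfl⟩
  let _ : Field (Algebra.adjoin O (Set.range ξ) ⧸ I) := Ideal.Quotient.field I
  obtain ⟨π, hπ⟩ : ∃ π : Algebra.adjoin O (Set.range ξ) →+*
      (Algebra.adjoin O (Set.range ξ) ⧸ I), π = Ideal.Quotient.mk I := ⟨_, rfl⟩
  let _ : Algebra ℂ (Algebra.adjoin O (Set.range ξ) ⧸ I) := (π.comp ι).toAlgebra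
  have hint' : Algebra.IsIntegral O (Algebra.adjoin O (Set.range ξ)) :=
    Algebra.IsIntegral.adjoin (by rintro _ ⟨i, rfl⟩; exact hint i)
  have hmax : (I.comap (algebraMap O (Algebra.adjoin O (Set.range ξ)))).IsMaximal :=
    Ideal.isMaximal_comap_of_isIntegral_of_isMaximal I
  have hmI : ∀ r ∈ IsLocalRing.maximalIdeal O,
      algebraMap O (Algebra.adjoin O (Set.range ξ)) r ∈ I := by
    intro r hr
    rw [← IsLocalRing.eq_maximalIdeal hmax] at hr
    exact hr
  have hcoe : ∀ (σ : Type) (w : σ → Algebra.adjoin O (Set.range ξ)) (G : MvPolynomial σ ℂ),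
      ((MvPolynomial.eval₂ ι w G : Algebra.adjoin O (Set.range ξ)) : K) =
        MvPolynomial.aeval (fun i => ((w i : Algebra.adjoin O (Set.range ξ)) : K)) G := by
    intro σ w G
    have h1 := MvPolynomial.eval₂_comp_left
      ((Algebra.adjoin O (Set.range ξ)).val : Algebra.adjoin O (Set.range ξ) →+* K) ι w G
    change ((Algebra.adjoin O (Set.range ξ)).val : Algebra.adjoin O (Set.range ξ) →+* K)
      (MvPolynomial.eval₂ ι w G) = _
    rw [h1, MvPolynomial.aeval_def]
    congr 1
    ext a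
    exact hιK a
  have hres : ∀ (σ : Type) (w : σ → Algebra.adjoin O (Set.range ξ)) (G : MvPolynomial σ ℂ),
      π (MvPolynomial.eval₂ ι w G) = MvPolynomial.aeval (fun i => π (w i)) G := by
    intro σ w G
    rw [MvPolynomial.eval₂_comp_left π ι w G, MvPolynomial.aeval_def]
    rfl
  refine ⟨Algebra.adjoin O (Set.range ξ) ⧸ I, inferInstance, inferInstance,
    fun i => π (v (Sum.inl i)), fun G hG => ?_, fun B b hb hB hbI => ?_⟩
  · have h1 : (Sum.elim (fun i => π (v (Sum.inl i)))
        fun j => algebraMap ℂ (Algebra.adjoin O (Set.range ξ) ⧸ I) (c j)) = fun i => π (v i) := by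
      funext i
      rcases i with i | j
      · rfl
      · change π (ι (c j)) = π (v (Sum.inr j))
        symm
        rw [← sub_eq_zero, ← map_sub, hπ, Ideal.Quotient.eq_zero_iff_mem, hv, hι]
        change algebraMap O _ (⟨u j, hu j⟩ : O) - _ ∈ I
        rw [← map_sub]
        apply hmI
        obtain ⟨h1, h2⟩ := O.mem_nonunits_iff_exists_mem_maximalIdeal.1 (huc j)
        exact h2
    rw [h1, ← hres]
    have h2 : MvPolynomial.eval₂ ι v G = 0 := by
      apply Subtype.ext
      rw [hcoe]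
      have h3 : (fun i => ((v i : Algebra.adjoin O (Set.range ξ)) : K)) =
          Sum.elim ξ fun j => algebraMap L K (u j) := by
        funext i
        rw [hv]
        rcases i with i | j
        · rfl
        · change algebraMap O K (⟨u j, hu j⟩ : O) = _
          rw [IsScalarTower.algebraMap_apply O L K]
          rfl
      rw [h3, hG]
      rfl
    rw [h2, map_zero]
  · apply hB
    have h1 : (fun i => π (v (Sum.inl i))) = fun i => π ((v ∘ Sum.inl) i) := rfl
    rw [h1, ← hres]
    have h2 : MvPolynomial.eval₂ ι (v ∘ Sum.inl) B = b := by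
      apply Subtype.ext
      rw [hcoe, hb]
      congr 2
      funext i
      rw [hv]
      rfl
    rw [h2, hπ, Ideal.Quotient.eq_zero_iff_mem]
    exact hbI




section

variable {K L : Type} [Field K] [Algebra ℂ K] [Field L] [Algebra ℂ L] [Algebra L K]
  [IsScalarTower ℂ L K] [FiniteDimensional L K] {n m N M : ℕ}

/-- **Traces generate.** -/
theorem core {x : Fin N → K} (hx : x ≠ 0) {y : Fin M → L} (hd : Module.finrank L K ≤ m + 1)
    {p : Fin M → ℂ} (hp : IsPoint y p) {u0 : L} (hu0' : u0 ≠ 0) (S0 : Set K)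
    (h1 : ∀ s ∈ S0, ∀ f : Fin m → Fin N, ∃ (e : ℕ) (A B : MvPolynomial (Fin M) ℂ),
      A.IsHomogeneous e ∧ B.IsHomogeneous e ∧ MvPolynomial.aeval p B ≠ 0 ∧
      MvPolynomial.aeval y B * Algebra.trace L K ((∏ k, x (f k)) * s) =
        MvPolynomial.aeval y A * u0)
    (h2 : ∀ (κ : Type) [Field κ] [Algebra ℂ κ] (q : Fin N → κ), IsPoint x q →
      InGraph x y q p →
      (∀ (d : ℕ) (F : Fin M → MvPolynomial (Fin N) ℂ), (∀ j, (F j).IsHomogeneous d) →
        (∀ j k, algebraMap L K (y j) * MvPolynomial.aeval x (F k) =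
          algebraMap L K (y k) * MvPolynomial.aeval x (F j)) →
        ∀ j k, MvPolynomial.aeval q (F j) * algebraMap ℂ κ (p k) =
          MvPolynomial.aeval q (F k) * algebraMap ℂ κ (p j)) →
      ∃ (e s : ℕ) (B : MvPolynomial (Fin N) ℂ) (A : Fin s → MvPolynomial (Fin N) ℂ)
        (w : Fin s → K), B.IsHomogeneous e ∧ MvPolynomial.aeval q B ≠ 0 ∧
        (∀ i, (A i).IsHomogeneous (e + m)) ∧ (∀ i, w i ∈ S0) ∧
        MvPolynomial.aeval x B * algebraMap L K u0 = ∑ i, MvPolynomial.aeval x (A i) * w i) :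
    ∃ s ∈ S0, ∃ (f : Fin m → Fin N) (e : ℕ) (A B : MvPolynomial (Fin M) ℂ),
      A.IsHomogeneous e ∧ B.IsHomogeneous e ∧ MvPolynomial.aeval p B ≠ 0 ∧
      MvPolynomial.aeval p A ≠ 0 ∧
      MvPolynomial.aeval y B * Algebra.trace L K ((∏ k, x (f k)) * s) =
        MvPolynomial.aeval y A * u0 := by
  classical
  have hcL : CharZero L := charZero_of_injective_algebraMap (algebraMap ℂ L).injective
  by_contra hcon
  have hu0K : algebraMap L K u0 ≠ 0 := by
    rw [Ne, map_eq_zero]
    exact hu0'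
  -- affine coordinates
  obtain ⟨j1, hj1⟩ : ∃ j, p j ≠ 0 := by
    by_contra hc
    push Not at hc
    exact hp.1 (funext hc)
  have hy1 : y j1 ≠ 0 := by
    intro h0
    apply hj1
    have h1 := hp.2 1 (MvPolynomial.X j1) (MvPolynomial.isHomogeneous_X ℂ j1)
      (by rw [MvPolynomial.aeval_X, h0])
    rwa [MvPolynomial.aeval_X] at h1
  obtain ⟨u, hu⟩ : ∃ u : Fin M → L, u = fun j => y j / y j1 := ⟨_, rfl⟩
  obtain ⟨c, hc⟩ : ∃ c : Fin M → ℂ, c = fun j => p j / p j1 := ⟨_, rfl⟩
  have hyu : y = fun j => y j1 * u j := by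
    funext j
    rw [hu]
    exact (mul_div_cancel₀ _ hy1).symm
  have hpc : p = fun j => p j1 * c j := by
    funext j
    rw [hc]
    exact (mul_div_cancel₀ _ hj1).symm
  obtain ⟨O, hO1, hO2⟩ := exists_val u c (fun F hF => by
    rw [hc]
    exact dehom hp hj1 hy1 F (by rw [← hu]; exact hF))
  have hO : ∀ a : ℂ, algebraMap ℂ L a ∈ O := by
    intro a
    have h1 := hO1 (MvPolynomial.C a)
    rwa [MvPolynomial.aeval_C] at h1
  have huO : ∀ j, u j ∈ O := by
    intro j
    have h1 := hO1 (MvPolynomial.X j)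
    rwa [MvPolynomial.aeval_X] at h1
  have huc : ∀ j, u j - algebraMap ℂ L (c j) ∈ O.nonunits := by
    intro j
    have h1 := hO2 (MvPolynomial.X j - MvPolynomial.C (c j)) (by
      rw [map_sub, MvPolynomial.aeval_X, MvPolynomial.aeval_C, Algebra.algebraMap_self_apply,
        sub_self])
    rwa [map_sub, MvPolynomial.aeval_X, MvPolynomial.aeval_C] at h1
  have hconst : ∀ a : ℂ, a ≠ 0 → algebraMap ℂ L a ∉ O.nonunits := by
    intro a ha h1
    rw [O.mem_nonunits_iff_or] at h1
    rcases h1 with h1 | h1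
    · rw [map_eq_zero] at h1
      exact ha h1
    · apply h1
      rw [← map_inv₀]
      exact hO _
  -- the quotients of forms at `p`
  have hquot : ∀ (e : ℕ) (A B : MvPolynomial (Fin M) ℂ), A.IsHomogeneous e → B.IsHomogeneous e →
      MvPolynomial.aeval p B ≠ 0 → MvPolynomial.aeval p A = 0 →
      MvPolynomial.aeval y A / MvPolynomial.aeval y B ∈ O.nonunits := by
    intro e A B hA hB hBp hAp
    have hAc : MvPolynomial.aeval c A = 0 := by
      rw [hpc, smul_form hA] at hAp
      exact (mul_eq_zero.1 hAp).resolve_left (pow_ne_zero _ hj1)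
    have hBc : MvPolynomial.aeval c B ≠ 0 := by
      rw [hpc, smul_form hB] at hBp
      exact (mul_ne_zero_iff.1 hBp).2
    have h1 : MvPolynomial.aeval y A / MvPolynomial.aeval y B =
        MvPolynomial.aeval u A * (MvPolynomial.aeval u B)⁻¹ := by
      conv_lhs => rw [hyu]
      rw [smul_form hA, smul_form hB, mul_div_mul_left _ _ (pow_ne_zero _ hy1), div_eq_mul_inv]
    have h2 : MvPolynomial.aeval u B ∉ O.nonunits := by
      intro h3
      have h4 := hO2 (B - MvPolynomial.C (MvPolynomial.aeval c B)) (by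
        rw [map_sub, MvPolynomial.aeval_C, Algebra.algebraMap_self_apply, sub_self])
      rw [map_sub, MvPolynomial.aeval_C] at h4
      apply hconst _ hBc
      have h5 := sub_mem h3 h4
      rwa [sub_sub_cancel] at h5
    have h3 : (MvPolynomial.aeval u B)⁻¹ ∈ O := by
      by_contra h4
      exact h2 (O.mem_nonunits_iff_or.2 (Or.inr h4))
    rw [h1, O.mem_nonunits_iff, map_mul]
    have h4 := O.mem_nonunits_iff.1 (hO2 A hAc)
    have h5 := (O.valuation_le_one_iff _).2 h3
    exact (mul_le_mul_right h5 _).trans_lt (by rwa [mul_one])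
  -- the coordinates of `V`
  obtain ⟨a, hlam, hPint⟩ := exists_form O hO x hx
  obtain ⟨lam, hlamdef⟩ : ∃ lam : K, lam = ∑ i, algebraMap ℂ K (a i) * x i := ⟨_, rfl⟩
  rw [← hlamdef] at hlam hPint
  obtain ⟨ξ, hξ⟩ : ∃ ξ : Fin N → K, ξ = fun j => x j / lam := ⟨_, rfl⟩
  have hxξ : x = fun j => lam * ξ j := by
    funext j
    rw [hξ]
    exact (mul_div_cancel₀ _ hlam).symm
  let _ : Algebra O K := ((algebraMap L K).comp (algebraMap O L)).toAlgebra
  have _ : IsScalarTower O L K := IsScalarTower.of_algebraMap_eq fun _ => rfl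
  have hint : ∀ j, IsIntegral O (ξ j) := by
    intro j
    obtain ⟨P, hP1, hP2, hP3⟩ := hPint j
    have h1 : P ∈ Polynomial.lifts (algebraMap O L) := by
      rw [Polynomial.lifts_iff_coeff_lifts]
      exact fun i => ⟨⟨_, hP2 i⟩, rfl⟩
    obtain ⟨P', hP', -, hP'm⟩ := Polynomial.lifts_and_natDegree_eq_and_monic h1 hP1
    refine ⟨P', hP'm, ?_⟩
    rw [IsScalarTower.algebraMap_eq O L K, ← Polynomial.eval₂_map, hP', hξ]
    exact hP3
  have honeξ : ∑ i, algebraMap ℂ K (a i) * ξ i = 1 := by
    rw [hξ]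
    simp only [← mul_div_assoc]
    rw [← Finset.sum_div, ← hlamdef, div_self hlam]
  have hone : (1 : K) ∈ Submodule.span O (Set.range ξ) := by
    rw [← honeξ]
    refine Submodule.sum_mem _ fun i _ => ?_
    have h1 : algebraMap ℂ K (a i) * ξ i = (⟨algebraMap ℂ L (a i), hO (a i)⟩ : O) • ξ i := by
      rw [Algebra.smul_def, IsScalarTower.algebraMap_apply O L K,
        IsScalarTower.algebraMap_apply ℂ L K]
      rfl
    rw [h1]
    exact Submodule.smul_mem _ _ (Submodule.subset_span ⟨i, rfl⟩)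
  obtain ⟨S, hS⟩ : ∃ S : Set K, S = {s | ∃ w ∈ S0, s = lam ^ m * (w / algebraMap L K u0)} :=
    ⟨_, rfl⟩
  -- the traces
  have hτ : ∀ (f : Fin m → Fin N), ∀ s ∈ S, ∃ t ∈ IsLocalRing.maximalIdeal O,
      algebraMap O L t = Algebra.trace L K ((∏ k, ξ (f k)) * s) := by
    intro f s hs
    rw [hS] at hs
    obtain ⟨w, hw, rfl⟩ := hs
    obtain ⟨e, A, B, hA, hB, hBp, hAB⟩ := h1 w hw f
    have hBy : MvPolynomial.aeval y B ≠ 0 := fun h0 => hBp (hp.2 e B hB h0)
    have hval : Algebra.trace L K ((∏ k, ξ (f k)) *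
        (lam ^ m * (w / algebraMap L K u0))) =
        MvPolynomial.aeval y A / MvPolynomial.aeval y B := by
      have h3 : (∏ k, ξ (f k)) * (lam ^ m * (w / algebraMap L K u0)) =
          u0⁻¹ • ((∏ k, x (f k)) * w) := by
        have h4 : (∏ k, x (f k)) = lam ^ m * ∏ k, ξ (f k) := by
          conv_lhs => rw [hxξ]
          rw [Finset.prod_mul_distrib, Finset.prod_const, Finset.card_univ, Fintype.card_fin]
        rw [Algebra.smul_def, map_inv₀, h4]
        field_simp
      rw [h3, map_smul, smul_eq_mul]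
      field_simp
      linear_combination hAB
    have hAp : MvPolynomial.aeval p A = 0 := by
      by_contra hAp
      exact hcon ⟨w, hw, f, e, A, B, hA, hB, hBp, hAp, hAB⟩
    obtain ⟨h5, h6⟩ := O.mem_nonunits_iff_exists_mem_maximalIdeal.1 (hquot e A B hA hB hBp hAp)
    exact ⟨⟨_, h5⟩, h6, hval.symm⟩
  -- generation
  have hgg : ∀ I : Ideal (Algebra.adjoin O (Set.range ξ)), I.IsMaximal →
      ∃ b : Algebra.adjoin O (Set.range ξ), b ∉ I ∧
        (b : K) ∈ Submodule.span (Algebra.adjoin O (Set.range ξ)) S := by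
    intro I hI
    obtain ⟨κ, _, _, q, hq1, hq2⟩ := exists_residue O hO ξ hint u huO c huc I hI
    have hj1' : algebraMap ℂ κ (p j1) ≠ 0 := by
      rw [Ne, map_eq_zero]
      exact hj1
    have hq3 : ∀ F : MvPolynomial (Fin N) ℂ, MvPolynomial.aeval ξ F = 0 →
        MvPolynomial.aeval q F = 0 := by
      intro F hF
      have h1 := hq1 (MvPolynomial.rename Sum.inl F) (by
        rw [MvPolynomial.aeval_rename, Sum.elim_comp_inl, hF])
      rwa [MvPolynomial.aeval_rename, Sum.elim_comp_inl] at h1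
    have hqone : ∑ i, algebraMap ℂ κ (a i) * q i = 1 := by
      have h1 := hq3 (∑ i, MvPolynomial.C (a i) * MvPolynomial.X i - 1) (by
        rw [map_sub, map_sum, map_one]
        simp only [map_mul, MvPolynomial.aeval_C, MvPolynomial.aeval_X]
        rw [honeξ, sub_self])
      rw [map_sub, map_sum, map_one] at h1
      simp only [map_mul, MvPolynomial.aeval_C, MvPolynomial.aeval_X] at h1
      exact sub_eq_zero.1 h1
    have hq0 : ∃ i, q i ≠ 0 := by
      by_contra hc'
      push Not at hc'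
      apply one_ne_zero (α := κ)
      rw [← hqone]
      exact Finset.sum_eq_zero fun i _ => by rw [hc', mul_zero]
    have hqpt : IsPoint x q := by
      refine ⟨fun h0 => ?_, fun e F hF hF0 => ?_⟩
      · obtain ⟨i, hi⟩ := hq0
        exact hi (congrFun h0 i)
      · apply hq3
        rw [hxξ, smul_form hF] at hF0
        exact (mul_eq_zero.1 hF0).resolve_left (pow_ne_zero _ hlam)
    have hgraph : InGraph x y q p := by
      refine ⟨fun h0 => ?_, fun e F hF hF0 => ?_⟩
      · obtain ⟨i, hi⟩ := hq0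
        exact mul_ne_zero hi hj1' (congrFun h0 (i, j1))
      · have h1 : (fun ij : Fin N × Fin M => x ij.1 * algebraMap L K (y ij.2)) =
            fun ij => (lam * algebraMap L K (y j1)) * (ξ ij.1 * algebraMap L K (u ij.2)) := by
          funext ij
          conv_lhs => rw [hxξ, hyu]
          rw [map_mul]
          ring
        rw [h1, smul_form hF] at hF0
        have hy1K : algebraMap L K (y j1) ≠ 0 := by
          rw [Ne, map_eq_zero]
          exact hy1
        have hF1 := (mul_eq_zero.1 hF0).resolve_left (pow_ne_zero _ (mul_ne_zero hlam hy1K))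
        have h2 : (fun ij : Fin N × Fin M => q ij.1 * algebraMap ℂ κ (p ij.2)) =
            fun ij => algebraMap ℂ κ (p j1) * (q ij.1 * algebraMap ℂ κ (c ij.2)) := by
          funext ij
          conv_lhs => rw [hpc]
          rw [map_mul]
          ring
        rw [h2, smul_form hF]
        have h3 := hq1 (MvPolynomial.aeval (fun ij : Fin N × Fin M =>
          (MvPolynomial.X (Sum.inl ij.1) * MvPolynomial.X (Sum.inr ij.2) :
            MvPolynomial (Fin N ⊕ Fin M) ℂ)) F) (by
          rw [MvPolynomial.comp_aeval_apply]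
          simp only [map_mul, MvPolynomial.aeval_X, Sum.elim_inl, Sum.elim_inr]
          exact hF1)
        rw [MvPolynomial.comp_aeval_apply] at h3
        simp only [map_mul, MvPolynomial.aeval_X, Sum.elim_inl, Sum.elim_inr] at h3
        rw [h3, mul_zero]
    have hpq : ∀ (d : ℕ) (F : Fin M → MvPolynomial (Fin N) ℂ), (∀ j, (F j).IsHomogeneous d) →
        (∀ j k, algebraMap L K (y j) * MvPolynomial.aeval x (F k) =
          algebraMap L K (y k) * MvPolynomial.aeval x (F j)) →
        ∀ j k, MvPolynomial.aeval q (F j) * algebraMap ℂ κ (p k) =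
          MvPolynomial.aeval q (F k) * algebraMap ℂ κ (p j) := by
      intro d F hF hyF j k
      have h1 := hq1 (MvPolynomial.rename Sum.inl (F j) * MvPolynomial.X (Sum.inr k) -
        MvPolynomial.rename Sum.inl (F k) * MvPolynomial.X (Sum.inr j)) (by
          rw [map_sub, map_mul, map_mul, MvPolynomial.aeval_rename, MvPolynomial.aeval_rename,
            Sum.elim_comp_inl, MvPolynomial.aeval_X, MvPolynomial.aeval_X, Sum.elim_inr,
            Sum.elim_inr]
          have h2 := hyF j k
          have hy1K : algebraMap L K (y j1) ≠ 0 := by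
            rw [Ne, map_eq_zero]
            exact hy1
          rw [hxξ, smul_form (hF k), smul_form (hF j)] at h2
          have h3 : ∀ i, algebraMap L K (y i) = algebraMap L K (y j1) * algebraMap L K (u i) := by
            intro i
            rw [← map_mul]
            congr 1
            exact congrFun hyu i
          rw [h3 j, h3 k] at h2
          have h4 : (algebraMap L K (y j1) * lam ^ d) * (MvPolynomial.aeval ξ (F j) *
              algebraMap L K (u k) - MvPolynomial.aeval ξ (F k) * algebraMap L K (u j)) = 0 := by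
            linear_combination -h2
          exact (mul_eq_zero.1 h4).resolve_left (mul_ne_zero hy1K (pow_ne_zero _ hlam)))
      rw [map_sub, map_mul, map_mul, MvPolynomial.aeval_rename, MvPolynomial.aeval_rename,
        Sum.elim_comp_inl, MvPolynomial.aeval_X, MvPolynomial.aeval_X, Sum.elim_inr,
        Sum.elim_inr] at h1
      have h3 : ∀ i, algebraMap ℂ κ (p i) = algebraMap ℂ κ (p j1) * algebraMap ℂ κ (c i) := by
        intro i
        rw [← map_mul]
        congr 1
        exact congrFun hpc i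
      rw [h3 k, h3 j]
      linear_combination algebraMap ℂ κ (p j1) * h1
    obtain ⟨e, s, B, A, w, hB, hBq, hA, hw, hsum⟩ := h2 κ q hqpt hgraph hpq
    have hmem : ∀ G : MvPolynomial (Fin N) ℂ,
        MvPolynomial.aeval ξ G ∈ Algebra.adjoin O (Set.range ξ) := by
      intro G
      induction G using MvPolynomial.induction_on with
      | C r =>
        rw [MvPolynomial.aeval_C]
        have h1 : algebraMap ℂ K r = algebraMap O K (⟨algebraMap ℂ L r, hO r⟩ : O) := by
          rw [IsScalarTower.algebraMap_apply O L K, IsScalarTower.algebraMap_apply ℂ L K]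
          rfl
        rw [h1]
        exact Subalgebra.algebraMap_mem _ _
      | add f g hf hg =>
        rw [map_add]
        exact add_mem hf hg
      | mul_X f i hf =>
        rw [map_mul, MvPolynomial.aeval_X]
        exact mul_mem hf (Algebra.subset_adjoin ⟨i, rfl⟩)
    refine ⟨⟨MvPolynomial.aeval ξ B, hmem B⟩, hq2 B _ rfl hBq, ?_⟩
    have h5 : MvPolynomial.aeval ξ B = ∑ i, MvPolynomial.aeval ξ (A i) *
        (lam ^ m * (w i / algebraMap L K u0)) := by
      have h6 := hsum
      rw [hxξ, smul_form hB] at h6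
      have h3 : ∀ i, MvPolynomial.aeval (fun j => lam * ξ j) (A i) * w i =
          lam ^ e * algebraMap L K u0 * (MvPolynomial.aeval ξ (A i) *
            (lam ^ m * (w i / algebraMap L K u0))) := by
        intro i
        rw [smul_form (hA i), pow_add]
        field_simp
      rw [Finset.sum_congr rfl fun i _ => h3 i, ← Finset.mul_sum] at h6
      have h4 : lam ^ e * algebraMap L K u0 ≠ 0 := mul_ne_zero (pow_ne_zero _ hlam) hu0K
      apply mul_left_cancel₀ h4
      rw [← h6]
      ring
    change MvPolynomial.aeval ξ B ∈ _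
    rw [h5]
    refine Submodule.sum_mem _ fun i _ => ?_
    have h6 : MvPolynomial.aeval ξ (A i) * (lam ^ m * (w i / algebraMap L K u0)) =
        (⟨MvPolynomial.aeval ξ (A i), hmem (A i)⟩ : Algebra.adjoin O (Set.range ξ)) •
          (lam ^ m * (w i / algebraMap L K u0)) := by
      rw [Algebra.smul_def]
      rfl
    rw [h6]
    refine Submodule.smul_mem _ _ (Submodule.subset_span ?_)
    rw [hS]
    exact ⟨w i, hw i, rfl⟩
  obtain ⟨t, ht, ht'⟩ := key ξ hint hone hd S (Algebra.trace L K) hτ hgg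
  have h3 : Algebra.trace L K 1 = algebraMap ℂ L (Module.finrank L K) := by
    have h4 := Algebra.trace_algebraMap (R := L) (S := K) (1 : L)
    rw [map_one] at h4
    rw [h4, nsmul_eq_mul, mul_one, map_natCast]
  rw [h3] at ht'
  have h4 : (Module.finrank L K : ℂ) ≠ 0 := by
    exact_mod_cast (Module.finrank_pos (R := L) (M := K)).ne'
  apply hconst _ h4
  rw [← ht']
  exact O.coe_mem_nonunits_iff.2 ht

end


end Pool.Agent.H90.VA
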