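import Pool.Agent.H90.VA.Lib

/-!
Statements of the stubs of project VA (adjoint line bundles on images: very ampleness).
-/

set_option autoImplicit false
set_option linter.unusedSectionVars false
set_option linter.overlappingInstances false

namespace Pool.Agent.H90.VA

open Module MvPolynomial

section

variable {K L : Type} [Field K] [Algebra ℂ K] [Field L] [Algebra ℂ L] [Algebra L K]
  [IsScalarTower ℂ L K] {N : ℕ}

/-- the elements `t z`, where `z` is in the maximal ideal of `O` -/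
def sc (O : ValuationSubring L) (t : L) : Submodule O L where
  carrier := {w | ∃ z ∈ O.nonunits, w = t * z}
  zero_mem' := ⟨0, zero_mem _, by rw [mul_zero]⟩
  add_mem' := by
    rintro a b ⟨z, hz, rfl⟩ ⟨w, hw, rfl⟩
    exact ⟨z + w, add_mem hz hw, by rw [mul_add]⟩
  smul_mem' := by
    rintro c w ⟨z, hz, rfl⟩
    refine ⟨(c : L) * z, ?_, ?_⟩
    · rw [O.mem_nonunits_iff, map_mul]
      have h5 := (O.valuation_le_one_iff _).2 c.2
      exact (mul_le_mul_left h5 _).trans_lt (by rw [one_mul]; exact O.mem_nonunits_iff.1 hz)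
    · change (c : L) * (t * z) = _
      ring

theorem aeval_mem (O : ValuationSubring L) [Algebra O K] [IsScalarTower O L K]
    (hO : ∀ a : ℂ, algebraMap ℂ L a ∈ O) (ξ : Fin N → K) (G : MvPolynomial (Fin N) ℂ) :
    aeval ξ G ∈ Algebra.adjoin O (Set.range ξ) := by
  induction G using MvPolynomial.induction_on with
  | C r =>
    rw [MvPolynomial.aeval_C]
    have h1 : algebraMap ℂ K r = algebraMap O K (⟨algebraMap ℂ L r, hO r⟩ : O) := by
      rw [IsScalarTower.algebraMap_apply O L K, IsScalarTower.algebraMap_apply ℂ L K]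
      rfl
    rw [h1]
    exact Subalgebra.algebraMap_mem _ _
  | add f g hf hg =>
    rw [map_add]
    exact add_mem hf hg
  | mul_X f i hf =>
    rw [map_mul, MvPolynomial.aeval_X]
    exact mul_mem hf (Algebra.subset_adjoin ⟨i, rfl⟩)

/-- the ideal of the polynomials `h` such that `τ (h(ξ) c s) ∈ M` for all `c ∈ O[ξ]`, `s ∈ S` -/
def JJ (O : ValuationSubring L) [Algebra O K] [IsScalarTower O L K]
    (hO : ∀ a : ℂ, algebraMap ℂ L a ∈ O) (ξ : Fin N → K) (S : Set K) (τ : K →ₗ[L] L)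
    (M : Submodule O L) : Ideal (MvPolynomial (Fin N) ℂ) where
  carrier := {h | ∀ c ∈ Algebra.adjoin O (Set.range ξ), ∀ s ∈ S, τ (aeval ξ h * c * s) ∈ M}
  zero_mem' := by
    intro c _ s _
    rw [map_zero, zero_mul, zero_mul, map_zero]
    exact zero_mem _
  add_mem' := by
    intro a b ha hb c hc s hs
    rw [map_add, add_mul, add_mul, map_add]
    exact add_mem (ha c hc s hs) (hb c hc s hs)
  smul_mem' := by
    intro g a ha c hc s hs
    have h1 : aeval ξ (g • a) * c * s = aeval ξ a * (aeval ξ g * c) * s := by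
      rw [smul_eq_mul, map_mul]
      ring
    rw [h1]
    exact ha _ (mul_mem (aeval_mem O hO ξ g) hc) s hs

theorem mem_JJ {O : ValuationSubring L} [Algebra O K] [IsScalarTower O L K]
    {hO : ∀ a : ℂ, algebraMap ℂ L a ∈ O} {ξ : Fin N → K} {S : Set K} {τ : K →ₗ[L] L}
    {M : Submodule O L} {h : MvPolynomial (Fin N) ℂ} : h ∈ JJ O hO ξ S τ M ↔
      ∀ c ∈ Algebra.adjoin O (Set.range ξ), ∀ s ∈ S, τ (aeval ξ h * c * s) ∈ M := Iff.rfl

end

/-- the derivative along `v` at `p` -/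
noncomputable def dd {M : ℕ} (p v : Fin M → ℂ) (A : MvPolynomial (Fin M) ℂ) : ℂ :=
  ∑ j, aeval p (pderiv j A) * v j

/-- `v` is a limit of secant directions of `W` at `p`: `(p, v)` gives a point of the blow-up of `W` at
`p`, as a subvariety of the product of two projective spaces, in the Segre embedding -/
def Direction {L : Type} [Field L] [Algebra ℂ L] {M : ℕ} (y : Fin M → L) (p v : Fin M → ℂ) :
    Prop :=
  IsPoint (fun i : Fin M × Fin M × Fin M =>
      y i.1 * (y i.2.1 * algebraMap ℂ L (p i.2.2) - y i.2.2 * algebraMap ℂ L (p i.2.1)))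
    (fun i : Fin M × Fin M × Fin M => p i.1 * (v i.2.1 * p i.2.2 - v i.2.2 * p i.2.1))

/-- FORM: induction for forms. A form of degree `e + 1` is a sum of monomials of degree `e + 1`, each of
which is `X i` times a monomial of degree `e`. -/
def S_FORM : Prop := ∀ (N e : ℕ) (P : MvPolynomial (Fin N) ℂ → Prop), P 0 →
  (∀ F G, F.IsHomogeneous (e + 1) → G.IsHomogeneous (e + 1) → P F → P G → P (F + G)) →
  (∀ i F, F.IsHomogeneous e → P (X i * F)) → ∀ F : MvPolynomial (Fin N) ℂ, F.IsHomogeneous (e + 1) → P F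

/-- SPAN: forms are linear combinations of products of variables (induction on `m` with FORM,
`Fin.cons`, `Fin.prod_univ_succ`). -/
def S_SPAN : Prop := ∀ (N m : ℕ) (F : MvPolynomial (Fin N) ℂ), F.IsHomogeneous m →
  F ∈ Submodule.span ℂ
    (Set.range fun f : Fin m → Fin N => ∏ k, (X (f k) : MvPolynomial (Fin N) ℂ))

/-- STAB: stabilisation. Let `B d` be the image of the forms of degree `d` in the quotient by `J`. Since
`lam = 1` in the quotient, `B d ≤ B (d + 1)`. Every `r + 2` elements of `B (r + 1)` are linearly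
dependent, so `finrank (B (r + 1)) ≤ r + 1`. If `1 ∈ J` the claim is trivial. Otherwise `B 0` has rank 1,
and the inclusions in `B 0 ≤ B 1 ≤ ... ≤ B (r + 1)` cannot all be strict. If `B d = B (d + 1)` then
`B (d + 1) = B (d + 2)` (by FORM: `B (d + 2) = ∑ X i B (d + 1)`), so `B r = B (r + 1)`, and the claim
follows with `lam = 1`. -/
def S_STAB : Prop := ∀ (N r : ℕ) (J : Ideal (MvPolynomial (Fin N) ℂ))
  (lam : MvPolynomial (Fin N) ℂ), lam.IsHomogeneous 1 → lam - 1 ∈ J →
  (∀ h : Fin (r + 2) → MvPolynomial (Fin N) ℂ, (∀ i, (h i).IsHomogeneous (r + 1)) →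
    ∃ c : Fin (r + 2) → ℂ, c ≠ 0 ∧ ∑ i, C (c i) * h i ∈ J) →
  ∀ F : MvPolynomial (Fin N) ℂ, F.IsHomogeneous (r + 1) → ∃ g : MvPolynomial (Fin N) ℂ, g.IsHomogeneous r ∧ F - lam * g ∈ J

/-- RED: every polynomial is modulo `J` a form of degree `r` (`MvPolynomial.induction_on`: for a
constant `a` take `g = a lam ^ r`, and `X i * g` is a form of degree `r + 1`). -/
def S_RED : Prop := ∀ (N r : ℕ) (J : Ideal (MvPolynomial (Fin N) ℂ))
  (lam : MvPolynomial (Fin N) ℂ), lam.IsHomogeneous 1 → lam - 1 ∈ J →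
  (∀ F : MvPolynomial (Fin N) ℂ, F.IsHomogeneous (r + 1) → ∃ g : MvPolynomial (Fin N) ℂ, g.IsHomogeneous r ∧ F - lam * g ∈ J) →
  ∀ F : MvPolynomial (Fin N) ℂ, ∃ g : MvPolynomial (Fin N) ℂ, g.IsHomogeneous r ∧ F - g ∈ J

/-- VAN: if the forms of degree `r + 1` in `J` vanish at `q`, then all forms in `J` vanish at `q`.
For `e ≤ r + 1` multiply `F` by a power of a variable which is not zero at `q`. For `e = r + k` show by
induction on `k`, with FORM, that for every form `F` of degree `r + k` there is a form `g` of degree `r`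
with `F - lam ^ k * g ∈ J` and `F(q) = lam(q) ^ k * g(q)` (if `F = X i * F'`, with `g'` for `F'`, take
`g` with `X i * g' - lam * g ∈ J`; this is a form of degree `r + 1` in `J`, so it vanishes at `q`). If
`F ∈ J` then `g ∈ J` since `lam - 1 ∈ J`, so `lam * g` is a form of degree `r + 1` in `J` and vanishes at
`q`, and so does `F` if `k > 0`. -/
def S_VAN : Prop := ∀ (N r : ℕ) (J : Ideal (MvPolynomial (Fin N) ℂ))
  (lam : MvPolynomial (Fin N) ℂ), lam.IsHomogeneous 1 → lam - 1 ∈ J →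
  (∀ F : MvPolynomial (Fin N) ℂ, F.IsHomogeneous (r + 1) → ∃ g : MvPolynomial (Fin N) ℂ, g.IsHomogeneous r ∧ F - lam * g ∈ J) →
  ∀ (κ : Type) [Field κ] [Algebra ℂ κ] (q : Fin N → κ), q ≠ 0 →
  (∀ F ∈ J, F.IsHomogeneous (r + 1) → aeval q F = 0) →
  ∀ (e : ℕ), ∀ F ∈ J, F.IsHomogeneous e → aeval q F = 0

/-- SPR: values on monomials of degree `T` determine the values on `O[ξ]` (`filt` in `Lib.lean`; copy the
proof of the first step `h1` of `key` there). -/
def S_SPR : Prop := ∀ (K L : Type) [Field K] [Field L] [Algebra L K] [FiniteDimensional L K]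
  (N T : ℕ) (O : ValuationSubring L) [Algebra O K] [IsScalarTower O L K] (ξ : Fin N → K),
  (∀ i, IsIntegral O (ξ i)) → (1 : K) ∈ Submodule.span O (Set.range ξ) →
  Module.finrank L K ≤ T + 1 → ∀ (M : Submodule O L) (τ : K →ₗ[L] L) (z : K),
  (∀ f : Fin T → Fin N, τ ((∏ k, ξ (f k)) * z) ∈ M) →
  ∀ c ∈ Algebra.adjoin O (Set.range ξ), τ (c * z) ∈ M

/-- DEP: `r + 2` forms of degree `d` are linearly dependent over `ℂ` modulo `JJ`. The elements
`(h i)(ξ)` of `K` are linearly dependent over `L`: `∑ a i • (h i)(ξ) = 0`, with `a i ∈ O` and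
`a i0 = 1` (`exists_scale` in `Lib.lean`, `R = O`). For `f : Fin T → Fin N` and `s ∈ S` we have
`τ ((h i)(ξ) (∏ ξ (f k)) s) = Λ i + μ i` with `Λ i ∈ ℂ`, `μ i ∈ M` (by SPAN, since `h i * ∏ X (f k)` is a
form of degree `m`), so `∑ a i Λ i ∈ M ⊂ O.nonunits`. Let `φ : O → ℂ` be `ℂ`-linear with `φ 1 = 1` which
kills the nonunits (residue field of `O`, then a `ℂ`-linear retraction to `ℂ`,
`LinearMap.exists_leftInverse_of_injective`). Then `c i = φ (a i)` has `∑ c i Λ i = 0`, so
`τ ((∑ c i h i)(ξ) (∏ ξ (f k)) s) ∈ M`; conclude with SPR. -/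
def S_DEP : Prop := ∀ (K L : Type) [Field K] [Algebra ℂ K] [Field L] [Algebra ℂ L] [Algebra L K]
  [IsScalarTower ℂ L K] [FiniteDimensional L K] (N m r d T : ℕ) (O : ValuationSubring L)
  [Algebra O K] [IsScalarTower O L K] (hO : ∀ a : ℂ, algebraMap ℂ L a ∈ O) (ξ : Fin N → K),
  (∀ i, IsIntegral O (ξ i)) → (1 : K) ∈ Submodule.span O (Set.range ξ) →
  ∀ (S : Set K) (τ : K →ₗ[L] L) (M : Submodule O L),
  Module.finrank L K ≤ r + 1 → Module.finrank L K ≤ T + 1 → d + T = m →
  (∀ z ∈ M, z ∈ O.nonunits) →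
  (∀ f : Fin m → Fin N, ∀ s ∈ S, ∃ a : ℂ, τ ((∏ k, ξ (f k)) * s) - algebraMap ℂ L a ∈ M) →
  ∀ h : Fin (r + 2) → MvPolynomial (Fin N) ℂ, (∀ i, (h i).IsHomogeneous d) →
    ∃ c : Fin (r + 2) → ℂ, c ≠ 0 ∧ ∑ i, C (c i) * h i ∈ JJ O hO ξ S τ M

/-- LOW: membership in `JJ (sc 1)` implies membership in `JJ M` (`sc O 1` is the set of nonunits). By the
hypothesis (RED) `F = g + j` with `g` a form of degree `r`, `j ∈ JJ M ⊂ JJ (sc 1)`. For `f : Fin T → Fin N`
and `s ∈ S` the element `τ (g(ξ) (∏ ξ (f k)) s)` is in `ℂ + M` (by SPAN) and it is a nonunit, so the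
constant is `0` and the element is in `M`; conclude with SPR. -/
def S_LOW : Prop := ∀ (K L : Type) [Field K] [Algebra ℂ K] [Field L] [Algebra ℂ L] [Algebra L K]
  [IsScalarTower ℂ L K] [FiniteDimensional L K] (N m r T : ℕ) (O : ValuationSubring L)
  [Algebra O K] [IsScalarTower O L K] (hO : ∀ a : ℂ, algebraMap ℂ L a ∈ O) (ξ : Fin N → K),
  (∀ i, IsIntegral O (ξ i)) → (1 : K) ∈ Submodule.span O (Set.range ξ) →
  ∀ (S : Set K) (τ : K →ₗ[L] L) (M : Submodule O L),
  Module.finrank L K ≤ T + 1 → r + T = m →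
  (∀ z ∈ M, z ∈ O.nonunits) →
  (∀ f : Fin m → Fin N, ∀ s ∈ S, ∃ a : ℂ, τ ((∏ k, ξ (f k)) * s) - algebraMap ℂ L a ∈ M) →
  (∀ F : MvPolynomial (Fin N) ℂ, ∃ g : MvPolynomial (Fin N) ℂ, g.IsHomogeneous r ∧ F - g ∈ JJ O hO ξ S τ M) →
  ∀ F ∈ JJ O hO ξ S τ (sc O 1), F ∈ JJ O hO ξ S τ M

/-- TAY: Taylor expansion (`MvPolynomial.induction_on`). -/
def S_TAY : Prop := ∀ (L : Type) [Field L] [Algebra ℂ L] (O : ValuationSubring L),
  (∀ a : ℂ, algebraMap ℂ L a ∈ O) → ∀ (M : ℕ) (u : Fin M → L) (p v : Fin M → ℂ) (t : L),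
  t ∈ O.nonunits →
  (∀ j, u j - algebraMap ℂ L (p j) - t * algebraMap ℂ L (v j) ∈ sc O t) →
  ∀ A : MvPolynomial (Fin M) ℂ,
    aeval u A - algebraMap ℂ L (aeval p A) - t * algebraMap ℂ L (dd p v A) ∈ sc O t

/-- QUO: Taylor expansion of quotients (from TAY for `A` and `B`; `B(u)` is a unit of `O`). -/
def S_QUO : Prop := ∀ (L : Type) [Field L] [Algebra ℂ L] (O : ValuationSubring L),
  (∀ a : ℂ, algebraMap ℂ L a ∈ O) → ∀ (M : ℕ) (u : Fin M → L) (p v : Fin M → ℂ) (t : L),
  t ∈ O.nonunits →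
  (∀ j, u j - algebraMap ℂ L (p j) - t * algebraMap ℂ L (v j) ∈ sc O t) →
  ∀ (A B : MvPolynomial (Fin M) ℂ) (f : L), aeval p B ≠ 0 → aeval u B * f = aeval u A →
    f - algebraMap ℂ L (aeval p A / aeval p B) - t * algebraMap ℂ L
      ((dd p v A * aeval p B - aeval p A * dd p v B) / (aeval p B) ^ 2) ∈ sc O t

/-- GLOB: from the points over `p` to the valuation ring. The set of all `b ∈ O[ξ]` with
`τ (b c') ∈ O.nonunits` for all `c' ∈ O[ξ]` is an ideal of `Algebra.adjoin O (Set.range ξ)`; it is not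
contained in any maximal ideal by `exists_residue` in `Lib.lean` (compare the proof of `key` there), so it
contains `1`. -/
def S_GLOB : Prop := ∀ (K L : Type) [Field K] [Algebra ℂ K] [Field L] [Algebra ℂ L] [Algebra L K]
  [IsScalarTower ℂ L K] [FiniteDimensional L K] (N M : ℕ) (O : ValuationSubring L)
  [Algebra O K] [IsScalarTower O L K] (_ : ∀ a : ℂ, algebraMap ℂ L a ∈ O) (ξ : Fin N → K),
  (∀ i, IsIntegral O (ξ i)) → ∀ (u : Fin M → L), (∀ j, u j ∈ O) → ∀ (c : Fin M → ℂ),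
  (∀ j, u j - algebraMap ℂ L (c j) ∈ O.nonunits) → ∀ (τ : K →ₗ[L] L),
  (∀ (κ : Type) [Field κ] [Algebra ℂ κ] (q : Fin N → κ),
    (∀ G : MvPolynomial (Fin N ⊕ Fin M) ℂ, aeval (Sum.elim ξ fun j => algebraMap L K (u j)) G = 0 →
      aeval (Sum.elim q fun j => algebraMap ℂ κ (c j)) G = 0) →
    ∃ B : MvPolynomial (Fin N) ℂ, aeval q B ≠ 0 ∧
      ∀ c' ∈ Algebra.adjoin O (Set.range ξ), τ (aeval ξ B * c') ∈ O.nonunits) →
  τ 1 ∈ O.nonunits

/-- BLOW: the valuation ring of a direction. Choose `j1` with `p j1 ≠ 0` and (since the point in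
`Direction` is not zero) `j2` with `v j2 * p j1 - v j1 * p j2 ≠ 0`. By `dehom` (for the coordinate
`(j1, j2, j1)`, which is not zero for `y` since it is not zero for the point) and `exists_val` (both for an
arbitrary finite index type in `Lib.lean`) there is a valuation ring `O` which contains
the quotients of the coordinates by the coordinate `(j1, j2, j1)` and such that these quotients are
congruent to those of the point. With `u j = y j / y j1`, `c j = p j / p j1`, the coordinates `(j, j2, j1)`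
give `u j ≡ c j`, and the coordinates `(j1, j, j1)` give
`(u j - c j) / (u j2 - c j2) ≡ w j / w j2`, where `w j = (v j * p j1 - v j1 * p j) / (p j1) ^ 2`. Put
`t = (u j2 - c j2) / w j2`, so `u j - c j - t w j ∈ sc O t`, and `s = (y j1 / p j1) / (1 + t v j1 / p j1)`. -/
def S_BLOW : Prop := ∀ (L : Type) [Field L] [Algebra ℂ L] (M : ℕ) (y : Fin M → L)
  (p v : Fin M → ℂ), IsPoint y p → Direction y p v →
  ∃ (O : ValuationSubring L) (t s : L), (∀ a : ℂ, algebraMap ℂ L a ∈ O) ∧ t ≠ 0 ∧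
    t ∈ O.nonunits ∧ s ≠ 0 ∧
    ∀ j, y j / s - algebraMap ℂ L (p j) - t * algebraMap ℂ L (v j) ∈ sc O t

end Pool.Agent.H90.VA
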