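import Pool.Agent.H90.VA.Stm

/-!
Statements of two more stubs of project VA: tangent vectors at smooth points are limits of secants.
-/

set_option autoImplicit false

namespace Pool.Agent.H90.VA

open Module MvPolynomial

/-- ARCA: formal arcs on complete intersections (implicit function theorem over `ℂ[[s]]`).
The linear map `w ↦ (dd p w (F i))_i` from `ℂ^M` to `ℂ^c` is surjective, since the differentials are
linearly independent. Construct polynomials (or truncations) `γ_k` with `γ_1 = p + s v`,
`γ_{k+1} = γ_k + s^{k+1} w_k` and `F i (γ_k) = 0 mod s^{k+1}`: here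
`F i (γ_k + s^{k+1} w) = F i (γ_k) + s^{k+1} dd p w (F i) mod s^{k+2}`, so `w_k` is a solution of
`dd p w (F i) = - coeff (k+1) (F i (γ_k))`. Let `γ` be the power series with the coefficients `p`, `v`,
`w_1`, `w_2`, ...; it is congruent to `γ_k` modulo `s^{k+1}`, so `F i (γ) = 0`. (For
`k = 0` the step gives `dd p v (F i) = 0`.) -/
def S_ARCA : Prop := ∀ (M c : ℕ) (F : Fin c → MvPolynomial (Fin M) ℂ) (p v : Fin M → ℂ),
  (∀ i, aeval p (F i) = 0) →
  LinearIndependent ℂ (fun (i : Fin c) (j : Fin M) => aeval p (pderiv j (F i))) →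
  (∀ i, dd p v (F i) = 0) →
  ∃ γ : Fin M → PowerSeries ℂ, (∀ j, PowerSeries.coeff 0 (γ j) = p j) ∧
    (∀ j, PowerSeries.coeff 1 (γ j) = v j) ∧ ∀ i, aeval γ (F i) = 0

/-- ARCB: velocities of formal arcs are limits of secants. The point in `Direction` is not zero, since
`v j * p k - v k * p j ≠ 0` for some `j, k`, and `p i ≠ 0` for some `i`. Let `F` be a form of degree `e`
in the coordinates `z` which vanishes at `(y i (y j p k - y k p j))`. Then `H = F (X i (X j p k - X k p j))`
(`aeval`) is a form of degree `2 e` (`IsHomogeneous.aeval`) which vanishes at `y`, so it vanishes at `γ`.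
Now `γ i (γ j p k - γ k p j) = s ζ` with a power series `ζ` with constant coefficient
`p i (v j p k - v k p j)`, as the constant coefficient of `γ j p k - γ k p j` is `0`. So
`s ^ e F(ζ) = F(s ζ) = 0` (`smul_form` holds for fields; repeat its proof for the ring of power series,
or use the fraction field `LaurentSeries ℂ`), so `F(ζ) = 0`, and the constant coefficient is the value
of `F` at the point. -/
def S_ARCB : Prop := ∀ (L : Type) [Field L] [Algebra ℂ L] (M : ℕ) (y : Fin M → L)
  (p v : Fin M → ℂ) (γ : Fin M → PowerSeries ℂ),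
  (∀ j, PowerSeries.coeff 0 (γ j) = p j) → (∀ j, PowerSeries.coeff 1 (γ j) = v j) →
  (∀ (e : ℕ) (G : MvPolynomial (Fin M) ℂ), G.IsHomogeneous e → aeval y G = 0 →
    aeval γ G = 0) →
  (∃ j k, v j * p k ≠ v k * p j) → Direction y p v

end Pool.Agent.H90.VA
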